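import Pool.Agent.N288.TFW.En

/-!
# The attraction term, the energy
-/

set_option autoImplicit false

open MeasureTheory Filter Topology Set Metric
open scoped ENNReal NNReal Convolution ContDiff

namespace Pool.Agent.N288.TFW

open Pool.Agent.TH791.Cl (Nice pot)

lemma ker_int (L : ℝ) : Integrable (indicator (ball (0:E3) L) (fun u : E3 => ‖u‖ ^ (-(5/2) : ℝ))) := by
  rw [integrable_indicator_iff measurableSet_ball,
    integrableOn_fun_norm_addHaar volume (f := fun y : ℝ => y ^ (-(5/2) : ℝ))]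
  have hfr : Module.finrank ℝ E3 = 3 := finrank_euclideanSpace_fin
  rw [hfr]
  rcases le_or_gt L 0 with h | h
  · rw [Ioo_eq_empty (not_lt.2 h)]; simp
  have h1 : IntegrableOn (fun y : ℝ => y ^ (-(1/2) : ℝ)) (Ioo 0 L) :=
    (intervalIntegral.integrableOn_Ioo_rpow_iff h).mpr (by norm_num)
  refine h1.congr_fun ?_ measurableSet_Ioo
  intro y hy
  have hy0 : 0 < y := hy.1
  show y ^ (-(1/2) : ℝ) = y ^ (3 - 1) • y ^ (-(5/2) : ℝ)
  rw [smul_eq_mul, ← Real.rpow_natCast, ← Real.rpow_add hy0]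
  norm_num

lemma young_tau (τ : ℝ) (hτ : 0 < τ) : ∃ C : ℝ, 0 < C ∧ ∀ a b : ℝ, 0 ≤ a → 0 ≤ b →
    a * b ≤ τ * a ^ (5/3 : ℝ) + C * b ^ (5/2 : ℝ) := by
  have hθ : 0 < τ ^ (3/5 : ℝ) := Real.rpow_pos_of_pos hτ _
  refine ⟨((τ ^ (3/5 : ℝ))⁻¹) ^ (5/2 : ℝ), by positivity, fun a b ha hb => ?_⟩
  have hpq : (5/3 : ℝ).HolderConjugate (5/2 : ℝ) := by
    rw [Real.holderConjugate_iff]; norm_num
  have h1 := Real.young_inequality_of_nonneg (mul_nonneg hθ.le ha)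
    (mul_nonneg (inv_pos.mpr hθ).le hb) hpq
  have h2 : (τ ^ (3/5 : ℝ) * a) * ((τ ^ (3/5 : ℝ))⁻¹ * b) = a * b := by
    field_simp
  have h3 : (τ ^ (3/5 : ℝ) * a) ^ (5/3 : ℝ) = τ * a ^ (5/3 : ℝ) := by
    rw [Real.mul_rpow hθ.le ha, ← Real.rpow_mul hτ.le]
    norm_num
  rw [h2, h3, Real.mul_rpow (inv_pos.mpr hθ).le hb] at h1
  have h4 : 0 ≤ τ * a ^ (5/3 : ℝ) := by positivity
  have h5 : 0 ≤ ((τ ^ (3/5 : ℝ))⁻¹) ^ (5/2 : ℝ) * b ^ (5/2 : ℝ) := by positivity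
  have h6 : τ * a ^ (5/3 : ℝ) / (5/3) ≤ τ * a ^ (5/3 : ℝ) := by
    rw [div_le_iff₀ (by norm_num)]; linarith
  have h7 : ((τ ^ (3/5 : ℝ))⁻¹) ^ (5/2 : ℝ) * b ^ (5/2 : ℝ) / (5/2) ≤
      ((τ ^ (3/5 : ℝ))⁻¹) ^ (5/2 : ℝ) * b ^ (5/2 : ℝ) := by
    rw [div_le_iff₀ (by norm_num)]; linarith
  linarith

lemma young_L {τ η : ℝ} (hτ : 0 < τ) (hη : 0 < η) : ∃ K : E3 → ℝ, Integrable K ∧ (∀ u, 0 ≤ K u) ∧
    ∀ (a : ℝ), 0 ≤ a → ∀ u : E3, a / ‖u‖ ≤ τ * a ^ (5/3 : ℝ) + K u + η * a := by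
  obtain ⟨C, hC, hY⟩ := young_tau τ hτ
  refine ⟨fun u => C * indicator (ball (0:E3) (1 / η)) (fun u : E3 => ‖u‖ ^ (-(5/2) : ℝ)) u,
    (ker_int _).const_mul C, fun u => mul_nonneg hC.le (indicator_nonneg (fun u _ => by positivity) u),
    fun a ha u => ?_⟩
  simp only
  by_cases h : u ∈ ball (0:E3) (1 / η)
  · rw [indicator_of_mem h]
    have h1 := hY a (‖u‖⁻¹) ha (by positivity)
    rw [Real.inv_rpow (norm_nonneg _), ← Real.rpow_neg (norm_nonneg _)] at h1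
    have h2 : a / ‖u‖ = a * ‖u‖⁻¹ := div_eq_mul_inv _ _
    rw [h2]
    have : 0 ≤ η * a := by positivity
    linarith
  · rw [indicator_of_notMem h]
    rw [mem_ball_zero_iff, not_lt] at h
    have hu : 0 < ‖u‖ := lt_of_lt_of_le (by positivity) h
    have h1 : a / ‖u‖ ≤ η * a := by
      rw [div_le_iff₀ hu]
      have : 1 ≤ η * ‖u‖ := by
        rw [div_le_iff₀ hη] at h; linarith
      nlinarith
    have : 0 ≤ τ * a ^ (5/3 : ℝ) := by positivity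
    linarith

variable {k : ℕ}

/-- the nuclear potential -/
noncomputable def V (z : Fin k → ℝ) (R : Fin k → E3) (x : E3) : ℝ := ∑ i, z i / ‖x - R i‖

lemma V_nonneg {z : Fin k → ℝ} (hz : ∀ i, 0 < z i) (R : Fin k → E3) (x : E3) : 0 ≤ V z R x :=
  Finset.sum_nonneg fun i _ => div_nonneg (hz i).le (norm_nonneg _)

lemma V_young {z : Fin k → ℝ} (hz : ∀ i, 0 < z i) (R : Fin k → E3) {τ η : ℝ} (hτ : 0 < τ)
    (hη : 0 < η) : ∃ K : E3 → ℝ, Integrable K ∧ (∀ u, 0 ≤ K u) ∧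
    ∀ (a : ℝ), 0 ≤ a → ∀ x : E3, V z R x * a ≤ τ * a ^ (5/3 : ℝ) + K x + η * a := by
  set Z : ℝ := ∑ i, z i with hZ
  have hZ0 : 0 ≤ Z := Finset.sum_nonneg fun i _ => (hz i).le
  obtain ⟨K, hK, hK0, hKa⟩ := young_L (τ := τ / (Z + 1)) (η := η / (Z + 1)) (by positivity) (by positivity)
  refine ⟨fun x => ∑ i, z i * K (x - R i), integrable_finsetSum _ fun i _ =>
    ((hK.comp_sub_right (R i)).const_mul (z i)), fun x => Finset.sum_nonneg fun i _ =>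
    mul_nonneg (hz i).le (hK0 _), fun a ha x => ?_⟩
  have h1 : V z R x * a = ∑ i, z i * (a / ‖x - R i‖) := by
    unfold V
    rw [Finset.sum_mul]
    refine Finset.sum_congr rfl fun i _ => ?_
    ring
  rw [h1]
  have h2 : ∑ i, z i * (a / ‖x - R i‖) ≤ ∑ i, z i * (τ / (Z + 1) * a ^ (5/3 : ℝ) + K (x - R i)
      + η / (Z + 1) * a) :=
    Finset.sum_le_sum fun i _ => mul_le_mul_of_nonneg_left (hKa a ha _) (hz i).le
  refine h2.trans ?_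
  have h3 : ∑ i, z i * (τ / (Z + 1) * a ^ (5/3 : ℝ) + K (x - R i) + η / (Z + 1) * a)
      = Z * (τ / (Z + 1) * a ^ (5/3 : ℝ)) + ∑ i, z i * K (x - R i) + Z * (η / (Z + 1) * a) := by
    simp only [mul_add, Finset.sum_add_distrib]
    rw [← Finset.sum_mul, ← Finset.sum_mul]
  rw [h3]
  have h4 : Z * (τ / (Z + 1) * a ^ (5/3 : ℝ)) ≤ τ * a ^ (5/3 : ℝ) := by
    have : Z * (τ / (Z + 1)) ≤ τ := by
      rw [mul_div_assoc', div_le_iff₀ (by positivity)]; nlinarith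
    have h5 : 0 ≤ a ^ (5/3 : ℝ) := by positivity
    nlinarith
  have h5 : Z * (η / (Z + 1) * a) ≤ η * a := by
    have : Z * (η / (Z + 1)) ≤ η := by
      rw [mul_div_assoc', div_le_iff₀ (by positivity)]; nlinarith
    nlinarith
  linarith

lemma V_meas (z : Fin k → ℝ) (R : Fin k → E3) : Measurable (V z R) := by
  unfold V
  exact Finset.measurable_fun_sum _ fun i _ => measurable_const.div (measurable_id.sub_const _).norm

lemma V_int (z : Fin k → ℝ) (R : Fin k → E3) {ρ : E3 → ℝ} (h : NN ρ) :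
    Integrable (fun x => V z R x * ρ x) ∧
    ∫ x, V z R x * ρ x = ∑ i, z i * pot ρ (R i) := by
  obtain ⟨B, _, hB⟩ := h.bdd
  have e : ∀ x, V z R x * ρ x = ∑ i, z i * (ρ x / ‖R i - x‖) := by
    intro x
    unfold V
    rw [Finset.sum_mul]
    refine Finset.sum_congr rfl fun i _ => ?_
    rw [norm_sub_rev]; ring
  simp only [e]
  have hi : ∀ i ∈ Finset.univ, Integrable (fun x => z i * (ρ x / ‖R i - x‖)) :=
    fun i _ => ((hB (R i)).1.const_mul (z i))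
  refine ⟨integrable_finsetSum _ hi, ?_⟩
  rw [integral_finsetSum _ hi]
  refine Finset.sum_congr rfl fun i _ => ?_
  rw [integral_const_mul]
  rfl

/-- admissible pairs, as in the frozen statement -/
structure Adm (ρ : E3 → ℝ) (g : E3 → E3) : Prop where
  nonneg : ∀ x, 0 ≤ ρ x
  int : Integrable ρ
  int53 : Integrable (fun x => ρ x ^ (5/3 : ℝ))
  g2 : MemLp g 2 volume
  weak : ∀ φ : E3 → ℝ, ContDiff ℝ ∞ φ → HasCompactSupport φ → ∀ v : E3,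
    ∫ x, √(ρ x) * fderiv ℝ φ x v = -∫ x, inner ℝ (g x) v * φ x

lemma Adm.NN {ρ : E3 → ℝ} {g : E3 → E3} (h : Adm ρ g) : NN ρ :=
  ⟨h.int, h.int53.congr (ae_of_all _ fun x => by simp only; rw [abs_of_nonneg (h.nonneg x)])⟩

lemma memLp_sqrt {ρ : E3 → ℝ} (h0 : ∀ x, 0 ≤ ρ x) (h : Integrable ρ) :
    MemLp (fun x => √(ρ x)) 2 volume := by
  have hm : AEStronglyMeasurable (fun x => √(ρ x)) volume :=
    Real.continuous_sqrt.comp_aestronglyMeasurable h.aestronglyMeasurable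
  rw [memLp_two_iff_integrable_sq hm]
  refine h.congr (ae_of_all _ fun x => ?_)
  simp only
  rw [Real.sq_sqrt (h0 x)]

lemma Adm.WG {ρ : E3 → ℝ} {g : E3 → E3} (h : Adm ρ g) : WG (fun x => √(ρ x)) g :=
  ⟨memLp_sqrt h.nonneg h.int, h.g2, h.weak⟩

/-- the energy -/
noncomputable def EN (z : Fin k → ℝ) (R : Fin k → E3) (ρ : E3 → ℝ) (g : E3 → E3) : ℝ :=
  (∫ x, ‖g x‖ ^ 2) + (3/5 : ℝ) * (∫ x, ρ x ^ (5/3 : ℝ)) - (∫ x, V z R x * ρ x)
    + (1/2 : ℝ) * ∫ x, ρ x * pot ρ x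

lemma EN_frozen (z : Fin k → ℝ) (R : Fin k → E3) (ρ : E3 → ℝ) (g : E3 → E3) :
    (∫ x, ‖g x‖ ^ 2) + (3/5 : ℝ) * (∫ x, ρ x ^ (5/3 : ℝ))
          - (∫ x, (∑ i, z i / ‖x - R i‖) * ρ x)
          + (1/2 : ℝ) * (∫ x, ∫ y, ρ x * ρ y / ‖x - y‖) = EN z R ρ g := by
  rw [dbl]
  rfl

/-- lower bound of the energy -/
lemma EN_low {z : Fin k → ℝ} (hz : ∀ i, 0 < z i) (R : Fin k → E3) (N0 : ℝ) :
    ∃ C : ℝ, ∀ (ρ : E3 → ℝ) (g : E3 → E3), Adm ρ g → ∫ x, ρ x ≤ N0 →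
      (∫ x, ‖g x‖ ^ 2) + (3/10 : ℝ) * (∫ x, ρ x ^ (5/3 : ℝ)) + (1/2 : ℝ) * (∫ x, ρ x * pot ρ x)
        ≤ EN z R ρ g + C := by
  obtain ⟨K, hK, hK0, hKa⟩ := V_young hz R (τ := 3/10) (η := 1) (by norm_num) (by norm_num)
  refine ⟨(∫ x, K x) + N0, fun ρ g h hN => ?_⟩
  have h1 : ∫ x, V z R x * ρ x ≤ ∫ x, ((3/10 : ℝ) * ρ x ^ (5/3 : ℝ) + K x + 1 * ρ x) :=
    integral_mono (V_int z R h.NN).1 (((h.int53.const_mul _).add hK).add (h.int.const_mul 1))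
      (fun x => hKa _ (h.nonneg x) x)
  have i1 : Integrable (fun x => (3/10 : ℝ) * ρ x ^ (5/3 : ℝ)) := h.int53.const_mul _
  have i12 : Integrable (fun x => (3/10 : ℝ) * ρ x ^ (5/3 : ℝ) + K x) := i1.add hK
  rw [integral_add i12 (h.int.const_mul 1), integral_add i1 hK, integral_const_mul,
    integral_const_mul, one_mul] at h1
  unfold EN
  linarith

end Pool.Agent.N288.TFW
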