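import Pool.Agent.N288.TFW.WG

/-!
# Chain rule for weak gradients
-/

set_option autoImplicit false

open MeasureTheory Filter Topology Set
open scoped ENNReal NNReal Convolution ContDiff

namespace Pool.Agent.N288.TFW

/-- pairs of real numbers: the norm is the maximum norm -/
lemma memLp_of_sq_le {f a b : E3 → ℝ} {c : ℝ} (hf : AEStronglyMeasurable f volume)
    (ha : Integrable a) (hb : Integrable b)
    (h : ∀ x, f x ^ 2 ≤ c * (a x + b x)) :
    MemLp f 2 volume ∧ ∫ x, f x ^ 2 ≤ c * ((∫ x, a x) + ∫ x, b x) := by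
  have hi : Integrable (fun x => c * (a x + b x)) := (ha.add hb).const_mul c
  have hsq : Integrable (fun x => f x ^ 2) := by
    refine hi.mono' (hf.pow 2) (ae_of_all _ fun x => ?_)
    rw [Real.norm_of_nonneg (sq_nonneg _)]
    exact h x
  refine ⟨(memLp_two_iff_integrable_sq hf).2 hsq, ?_⟩
  rw [← integral_add ha hb, ← integral_const_mul]
  exact integral_mono hsq hi h

/-- chain rule with a `C¹` function of two variables with bounded derivatives -/
theorem WG.comp2 {u1 u2 : E3 → ℝ} {g1 g2 : E3 → E3} (h1 : WG u1 g1) (h2 : WG u2 g2)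
    (F A B : ℝ × ℝ → ℝ)
    (hd : ∀ p, HasFDerivAt F (A p • ContinuousLinearMap.fst ℝ ℝ ℝ
      + B p • ContinuousLinearMap.snd ℝ ℝ ℝ) p)
    (hA : Continuous A) (hB : Continuous B) {L : ℝ} (hAL : ∀ p, |A p| ≤ L) (hBL : ∀ p, |B p| ≤ L)
    (φ : E3 → ℝ) (hφ : ContDiff ℝ ∞ φ) (hφc : HasCompactSupport φ) (v : E3) :
    ∫ x, F (u1 x, u2 x) * fderiv ℝ φ x v
      = -∫ x, inner ℝ (A (u1 x, u2 x) • g1 x + B (u1 x, u2 x) • g2 x) v * φ x := by
  have hL0 : 0 ≤ L := (abs_nonneg _).trans (hAL 0)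
  have hFc : Continuous F := continuous_iff_continuousAt.2 fun p => (hd p).continuousAt
  obtain ⟨w1, G1, hw1, hG1, hwG1, hae1, haeg1, hm1, hmG1, hb1, hbG1⟩ := h1.approx
  obtain ⟨w2, G2, hw2, hG2, hwG2, hae2, haeg2, hm2, hmG2, hb2, hbG2⟩ := h2.approx
  have hLip : ∀ p : ℝ × ℝ, (F p - F 0) ^ 2 ≤ (2 * L) ^ 2 * (p.1 ^ 2 + p.2 ^ 2) := by
    intro p
    have hn : ∀ q : ℝ × ℝ, ‖A q • ContinuousLinearMap.fst ℝ ℝ ℝ
      + B q • ContinuousLinearMap.snd ℝ ℝ ℝ‖ ≤ 2 * L := by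
      intro q
      refine (norm_add_le _ _).trans ?_
      rw [norm_smul, norm_smul, Real.norm_eq_abs, Real.norm_eq_abs]
      have e1 : ‖ContinuousLinearMap.fst ℝ ℝ ℝ‖ ≤ 1 := ContinuousLinearMap.norm_fst_le _ _ _
      have e2 : ‖ContinuousLinearMap.snd ℝ ℝ ℝ‖ ≤ 1 := ContinuousLinearMap.norm_snd_le _ _ _
      have := mul_le_mul (hAL q) e1 (norm_nonneg _) hL0
      have := mul_le_mul (hBL q) e2 (norm_nonneg _) hL0
      linarith
    have h3 := Convex.norm_image_sub_le_of_norm_hasFDerivWithin_le (f := F) (s := univ) (x := 0)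
      (y := p) (fun q _ => (hd q).hasFDerivWithinAt) (fun q _ => hn q) convex_univ (mem_univ _)
      (mem_univ _)
    rw [sub_zero, Real.norm_eq_abs] at h3
    have h4 : ‖p‖ ^ 2 ≤ p.1 ^ 2 + p.2 ^ 2 := by
      rw [Prod.norm_def]
      rcases max_choice ‖p.1‖ ‖p.2‖ with h | h <;> rw [h, Real.norm_eq_abs, sq_abs] <;>
        nlinarith [sq_nonneg p.1, sq_nonneg p.2]
    have h5 : (F p - F 0) ^ 2 ≤ (2 * L * ‖p‖) ^ 2 := by
      rw [← sq_abs]
      exact pow_le_pow_left₀ (abs_nonneg _) h3 2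
    calc (F p - F 0) ^ 2 ≤ (2 * L * ‖p‖) ^ 2 := h5
      _ = (2 * L) ^ 2 * ‖p‖ ^ 2 := by ring
      _ ≤ _ := mul_le_mul_of_nonneg_left h4 (by positivity)
  have hinner : ∀ (p : ℝ × ℝ) (a b : E3), (inner ℝ (A p • a + B p • b) v) ^ 2
      ≤ (2 * L ^ 2 * ‖v‖ ^ 2) * (‖a‖ ^ 2 + ‖b‖ ^ 2) := by
    intro p a b
    have h3 := abs_real_inner_le_norm (A p • a + B p • b) v
    have h4 : ‖A p • a + B p • b‖ ≤ L * (‖a‖ + ‖b‖) := by
      refine (norm_add_le _ _).trans ?_
      rw [norm_smul, norm_smul, Real.norm_eq_abs, Real.norm_eq_abs]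
      have := mul_le_mul_of_nonneg_right (hAL p) (norm_nonneg a)
      have := mul_le_mul_of_nonneg_right (hBL p) (norm_nonneg b)
      linarith
    have h5 : |inner ℝ (A p • a + B p • b) v| ≤ L * (‖a‖ + ‖b‖) * ‖v‖ :=
      h3.trans (mul_le_mul_of_nonneg_right h4 (norm_nonneg v))
    have h6 := pow_le_pow_left₀ (abs_nonneg _) h5 2
    rw [sq_abs] at h6
    refine h6.trans ?_
    have h7 : (‖a‖ + ‖b‖) ^ 2 ≤ 2 * (‖a‖ ^ 2 + ‖b‖ ^ 2) := by nlinarith [sq_nonneg (‖a‖ - ‖b‖)]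
    calc (L * (‖a‖ + ‖b‖) * ‖v‖) ^ 2 = (L ^ 2 * ‖v‖ ^ 2) * (‖a‖ + ‖b‖) ^ 2 := by ring
      _ ≤ (L ^ 2 * ‖v‖ ^ 2) * (2 * (‖a‖ ^ 2 + ‖b‖ ^ 2)) :=
        mul_le_mul_of_nonneg_left h7 (by positivity)
      _ = _ := by ring
  -- test functions
  have hφm : MemLp φ 2 volume := hφ.continuous.memLp_of_hasCompactSupport hφc
  have hφdc : Continuous (fun x => fderiv ℝ φ x v) :=
    (hφ.continuous_fderiv (by simp)).clm_apply continuous_const
  have hφds : HasCompactSupport (fun x => fderiv ℝ φ x v) := hφc.fderiv_apply (𝕜 := ℝ) v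
  have hφdm : MemLp (fun x => fderiv ℝ φ x v) 2 volume := hφdc.memLp_of_hasCompactSupport hφds
  -- the identity for the approximations
  have hfd : ∀ n x, HasFDerivAt (fun x => F (w1 n x, w2 n x))
      (A (w1 n x, w2 n x) • fderiv ℝ (w1 n) x + B (w1 n x, w2 n x) • fderiv ℝ (w2 n) x) x := by
    intro n x
    have k1 := ((hw1 n).differentiable (by simp) x).hasFDerivAt
    have k2 := ((hw2 n).differentiable (by simp) x).hasFDerivAt
    have k3 := (hd (w1 n x, w2 n x)).comp x (k1.prodMk k2)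
    refine k3.congr_fderiv ?_
    ext z
    simp
  have hfv : ∀ n x, fderiv ℝ (fun x => F (w1 n x, w2 n x)) x v
      = inner ℝ (A (w1 n x, w2 n x) • G1 n x + B (w1 n x, w2 n x) • G2 n x) v := by
    intro n x
    rw [(hfd n x).fderiv, inner_add_left, real_inner_smul_left, real_inner_smul_left, ← hwG1, ← hwG2]
    simp
  have hc1 : ∀ n, Continuous (fun x => F (w1 n x, w2 n x)) := fun n =>
    hFc.comp ((hw1 n).continuous.prodMk (hw2 n).continuous)
  have hc2 : ∀ n, Continuous (fun x => inner ℝ (A (w1 n x, w2 n x) • G1 n x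
      + B (w1 n x, w2 n x) • G2 n x) v) := by
    intro n
    have a1 : Continuous (fun x => A (w1 n x, w2 n x)) :=
      hA.comp ((hw1 n).continuous.prodMk (hw2 n).continuous)
    have a2 : Continuous (fun x => B (w1 n x, w2 n x)) :=
      hB.comp ((hw1 n).continuous.prodMk (hw2 n).continuous)
    exact ((a1.smul (hG1 n)).add (a2.smul (hG2 n))).inner continuous_const
  have hid : ∀ n, ∫ x, F (w1 n x, w2 n x) * fderiv ℝ φ x v
      = -∫ x, inner ℝ (A (w1 n x, w2 n x) • G1 n x + B (w1 n x, w2 n x) • G2 n x) v * φ x := by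
    intro n
    have := integral_mul_fderiv_eq_neg_fderiv_mul_of_integrable (μ := (volume : Measure E3))
      (f := fun x => F (w1 n x, w2 n x)) (g := φ) (v := v) ?_ ?_ ?_
      (fun x _ => (hfd n x).differentiableAt) (fun x _ => hφ.differentiable (by simp) x)
    · rw [this]
      congr 1
      refine integral_congr_ae (ae_of_all _ fun x => ?_)
      show fderiv ℝ (fun x => F (w1 n x, w2 n x)) x v * φ x = _
      rw [hfv]
    · simp only [hfv]
      exact ((hc2 n).mul hφ.continuous).integrable_of_hasCompactSupport (hφc.mul_left)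
    · exact ((hc1 n).mul hφdc).integrable_of_hasCompactSupport (hφds.mul_left)
    · exact ((hc1 n).mul hφ.continuous).integrable_of_hasCompactSupport (hφc.mul_left)
  -- limits
  have hC1 : ∀ n, ∫ x, w1 n x ^ 2 ≤ ∫ x, u1 x ^ 2 := by
    intro n; simpa using hb1 n
  have hC2 : ∀ n, ∫ x, w2 n x ^ 2 ≤ ∫ x, u2 x ^ 2 := by
    intro n; simpa using hb2 n
  have hp1 : ∀ n, MemLp (fun x => F (w1 n x, w2 n x) - F 0) 2 volume ∧
      ∫ x, (F (w1 n x, w2 n x) - F 0) ^ 2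
        ≤ (2 * L) ^ 2 * ((∫ x, w1 n x ^ 2) + ∫ x, w2 n x ^ 2) := fun n =>
    memLp_of_sq_le ((hc1 n).sub continuous_const).aestronglyMeasurable (isq' (hm1 n))
      (isq' (hm2 n)) (fun x => hLip _)
  have hum : AEStronglyMeasurable (fun x => F (u1 x, u2 x)) volume :=
    hFc.comp_aestronglyMeasurable (h1.u2.1.prodMk h2.u2.1)
  have hp0 : MemLp (fun x => F (u1 x, u2 x) - F 0) 2 volume :=
    (memLp_of_sq_le (hum.sub aestronglyMeasurable_const) (isq' h1.u2)
      (isq' h2.u2) (fun x => hLip _)).1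
  have hl1 := weak_of_ae (C := (2 * L) ^ 2 * ((∫ x, u1 x ^ 2) + ∫ x, u2 x ^ 2))
    (fun n => (hp1 n).1) hp0 hφdm (by
      filter_upwards [hae1, hae2] with x hx1 hx2
      exact ((hFc.tendsto _).comp (hx1.prodMk_nhds hx2)).sub_const _) (fun n => by
      refine (hp1 n).2.trans (mul_le_mul_of_nonneg_left (add_le_add (hC1 n) (hC2 n)) (by positivity)))
  have hAm : AEStronglyMeasurable (fun x => A (u1 x, u2 x)) volume :=
    hA.comp_aestronglyMeasurable (h1.u2.1.prodMk h2.u2.1)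
  have hBm : AEStronglyMeasurable (fun x => B (u1 x, u2 x)) volume :=
    hB.comp_aestronglyMeasurable (h1.u2.1.prodMk h2.u2.1)
  have hq1 : ∀ n, MemLp (fun x => inner ℝ (A (w1 n x, w2 n x) • G1 n x
      + B (w1 n x, w2 n x) • G2 n x) v) 2 volume ∧
      ∫ x, (inner ℝ (A (w1 n x, w2 n x) • G1 n x + B (w1 n x, w2 n x) • G2 n x) v) ^ 2
        ≤ (2 * L ^ 2 * ‖v‖ ^ 2) * ((∫ x, ‖G1 n x‖ ^ 2) + ∫ x, ‖G2 n x‖ ^ 2) := fun n =>
    memLp_of_sq_le (hc2 n).aestronglyMeasurable (isq (hmG1 n)) (isq (hmG2 n))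
      (fun x => hinner _ _ _)
  have hq0 : MemLp (fun x => inner ℝ (A (u1 x, u2 x) • g1 x + B (u1 x, u2 x) • g2 x) v) 2 volume :=
    (memLp_of_sq_le (((hAm.smul h1.g2.1).add (hBm.smul h2.g2.1)).inner aestronglyMeasurable_const)
      (isq h1.g2) (isq h2.g2) (fun x => hinner _ _ _)).1
  have hl2 := weak_of_ae (C := (2 * L ^ 2 * ‖v‖ ^ 2) * ((∫ x, ‖g1 x‖ ^ 2) + ∫ x, ‖g2 x‖ ^ 2))
    (fun n => (hq1 n).1) hq0 hφm (by
      filter_upwards [hae1, hae2, haeg1, haeg2] with x hx1 hx2 hx3 hx4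
      have a1 := (hA.tendsto _).comp (hx1.prodMk_nhds hx2)
      have a2 := (hB.tendsto _).comp (hx1.prodMk_nhds hx2)
      exact ((a1.smul hx3).add (a2.smul hx4)).inner tendsto_const_nhds) (fun n => by
      refine (hq1 n).2.trans (mul_le_mul_of_nonneg_left (add_le_add (hbG1 n) (hbG2 n)) (by positivity)))
  -- conclude
  have hφi : Integrable (fun x => fderiv ℝ φ x v) := hφdc.integrable_of_hasCompactSupport hφds
  have e1 : ∀ (f : E3 → ℝ), MemLp (fun x => f x - F 0) 2 volume →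
      ∫ x, f x * fderiv ℝ φ x v = (∫ x, (f x - F 0) * fderiv ℝ φ x v) + F 0 * ∫ x, fderiv ℝ φ x v := by
    intro f hf
    have i1 : Integrable (fun x => (f x - F 0) * fderiv ℝ φ x v) := hf.integrable_mul hφdm
    have i2 : Integrable (fun x => F 0 * fderiv ℝ φ x v) := hφi.const_mul _
    rw [← integral_const_mul, ← integral_add i1 i2]
    refine integral_congr_ae (ae_of_all _ fun x => ?_)
    show _ = (f x - F 0) * fderiv ℝ φ x v + F 0 * fderiv ℝ φ x v
    ring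
  have hl3 : Tendsto (fun n => ∫ x, F (w1 n x, w2 n x) * fderiv ℝ φ x v) atTop
      (𝓝 (∫ x, F (u1 x, u2 x) * fderiv ℝ φ x v)) := by
    rw [e1 _ hp0]
    refine (hl1.add_const _).congr fun n => ?_
    rw [e1 _ (hp1 n).1]
  have hl4 := hl2.neg
  refine tendsto_nhds_unique hl3 (hl4.congr fun n => ?_)
  rw [hid n]

end Pool.Agent.N288.TFW
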