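import Pool.Agent.N288.TFW.Weak
import Pool.Agent.R999.Newton

/-!
# Coulomb energies of densities in `L¹ ∩ L^{5/3}`
-/

set_option autoImplicit false

open MeasureTheory Filter Topology Set
open scoped ENNReal NNReal Convolution ContDiff

namespace Pool.Agent.N288.TFW

open Pool.Agent.TH791.Cl (Nice pot nice_bound coulomb_pd pd_nice pd_int pd_inner pd_swap pd_meas2)

/-- integrable and in `L^{5/3}` -/
structure NN (f : E3 → ℝ) : Prop where
  int : Integrable f
  int53 : Integrable (fun x => |f x| ^ (5/3 : ℝ))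

variable {a b f : E3 → ℝ}

lemma NN.rep (h : NN f) : ∃ f', Nice f' ∧ f =ᵐ[volume] f' := by
  obtain ⟨g, hgm, hge⟩ : ∃ g : E3 → ℝ, Measurable g ∧ f =ᵐ[volume] g :=
    ⟨h.int.aestronglyMeasurable.mk f, h.int.aestronglyMeasurable.stronglyMeasurable_mk.measurable,
      h.int.aestronglyMeasurable.ae_eq_mk⟩
  refine ⟨g, ⟨hgm, h.int.congr hge, h.int53.congr ?_⟩, hge⟩
  filter_upwards [hge] with x hx
  rw [← hx]

lemma NN.congr (h : NN a) (hab : a =ᵐ[volume] b) : NN b := by
  refine ⟨h.int.congr hab, h.int53.congr ?_⟩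
  filter_upwards [hab] with x hx
  rw [← hx]

lemma pot_congr (h : a =ᵐ[volume] b) (x : E3) : pot a x = pot b x := by
  unfold pot
  refine integral_congr_ae ?_
  filter_upwards [h] with y hy
  rw [hy]

lemma NN.bdd (h : NN f) : ∃ B : ℝ, 0 ≤ B ∧ ∀ x : E3, Integrable (fun y => f y / ‖x - y‖) ∧
    ∫ y, |f y| / ‖x - y‖ ≤ B := by
  obtain ⟨g, hg, hge⟩ := h.rep
  obtain ⟨B, hB⟩ := nice_bound g hg
  refine ⟨B, (integral_nonneg fun y => by positivity).trans (hB 0).2, fun x => ⟨(hB x).1.congr ?_, ?_⟩⟩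
  · filter_upwards [hge] with y hy
    rw [hy]
  · refine le_trans (le_of_eq ?_) (hB x).2
    refine integral_congr_ae ?_
    filter_upwards [hge] with y hy
    rw [hy]

lemma NN.add (ha : NN a) (hb : NN b) : NN (fun x => a x + b x) := by
  obtain ⟨a', ha', hae⟩ := ha.rep
  obtain ⟨b', hb', hbe⟩ := hb.rep
  have hn : Nice (fun x => -b' x) := ⟨hb'.1.neg, hb'.2.1.neg, by simpa using hb'.2.2⟩
  have h := pd_nice a' (fun x => -b' x) ha' hn
  refine NN.congr (a := fun x => a' x - -b' x) ⟨h.2.1, h.2.2⟩ ?_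
  filter_upwards [hae, hbe] with x hx hy
  rw [hx, hy]; ring

lemma NN.smul (ha : NN a) (c : ℝ) : NN (fun x => c * a x) := by
  refine ⟨ha.int.const_mul c, ?_⟩
  have : (fun x => |c * a x| ^ (5/3 : ℝ)) = fun x => |c| ^ (5/3 : ℝ) * |a x| ^ (5/3 : ℝ) := by
    funext x; rw [abs_mul, Real.mul_rpow (abs_nonneg _) (abs_nonneg _)]
  rw [this]
  exact ha.int53.const_mul _

lemma NN.sub (ha : NN a) (hb : NN b) : NN (fun x => a x - b x) := by
  have := ha.add (hb.smul (-1))
  refine this.congr (ae_of_all _ fun x => ?_)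
  ring

lemma NN.pot_int (ha : NN a) (hb : NN b) : Integrable (fun x => a x * pot b x) := by
  obtain ⟨a', ha', hae⟩ := ha.rep
  obtain ⟨b', hb', hbe⟩ := hb.rep
  refine (pd_int a' b' ha' hb').congr ?_
  filter_upwards [hae] with x hx
  rw [hx, pot_congr hbe]

lemma Q_congr {a' b' : E3 → ℝ} (ha : a =ᵐ[volume] a') (hb : b =ᵐ[volume] b') :
    ∫ x, a x * pot b x = ∫ x, a' x * pot b' x := by
  refine integral_congr_ae ?_
  filter_upwards [ha] with x hx
  rw [hx, pot_congr hb]

lemma NN.swap (ha : NN a) (hb : NN b) : ∫ x, a x * pot b x = ∫ x, b x * pot a x := by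
  obtain ⟨a', ha', hae⟩ := ha.rep
  obtain ⟨b', hb', hbe⟩ := hb.rep
  rw [Q_congr hae hbe, Q_congr hbe hae, pd_swap a' b' ha' hb']

lemma dbl (a b : E3 → ℝ) : ∫ x, ∫ y, a x * b y / ‖x - y‖ = ∫ x, a x * pot b x :=
  integral_congr_ae (ae_of_all _ fun x => pd_inner a b x)

lemma NN.pd (ha : NN a) : 0 ≤ ∫ x, a x * pot a x := by
  obtain ⟨a', ha', hae⟩ := ha.rep
  rw [Q_congr hae hae, ← dbl]
  exact coulomb_pd a' ha'

lemma pot_add (ha : NN a) (hb : NN b) (x : E3) :
    pot (fun y => a y + b y) x = pot a x + pot b x := by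
  obtain ⟨_, _, h1⟩ := ha.bdd
  obtain ⟨_, _, h2⟩ := hb.bdd
  unfold pot
  rw [← integral_add (h1 x).1 (h2 x).1]
  congr 1; funext y; ring

lemma pot_smul (c : ℝ) (g : E3 → ℝ) (x : E3) : pot (fun y => c * g y) x = c * pot g x := by
  unfold pot
  rw [← integral_const_mul]
  congr 1; funext y; ring

/-- expansion of the quadratic form -/
lemma NN.expand (ha : NN a) (hb : NN b) (t : ℝ) :
    ∫ x, (a x + t * b x) * pot (fun y => a y + t * b y) x
      = (∫ x, a x * pot a x) + 2 * t * (∫ x, b x * pot a x) + t ^ 2 * ∫ x, b x * pot b x := by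
  have e : (fun x => (a x + t * b x) * pot (fun y => a y + t * b y) x)
      = fun x => (a x * pot a x + t * (a x * pot b x)) + (t * (b x * pot a x) + t ^ 2 * (b x * pot b x)) := by
    funext x
    rw [pot_add ha (hb.smul t), pot_smul]; ring
  rw [e]
  have i1 := ha.pot_int ha
  have i2 := ha.pot_int hb
  have i3 := hb.pot_int ha
  have i4 := hb.pot_int hb
  have j1 : Integrable (fun x => a x * pot a x + t * (a x * pot b x)) := i1.add (i2.const_mul t)
  have j2 : Integrable (fun x => t * (b x * pot a x) + t ^ 2 * (b x * pot b x)) :=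
    (i3.const_mul t).add (i4.const_mul (t^2))
  rw [integral_add j1 j2, integral_add i1 (i2.const_mul t), integral_add (i3.const_mul t) (i4.const_mul (t^2)),
    integral_const_mul, integral_const_mul, integral_const_mul, ha.swap hb]
  ring

/-- midpoint convexity of the Coulomb energy -/
lemma NN.mid (ha : NN a) (hb : NN b) :
    ∫ x, ((a x + b x) / 2) * pot (fun y => (a y + b y) / 2) x
      ≤ 1/2 * (∫ x, a x * pot a x) + 1/2 * ∫ x, b x * pot b x := by
  have hd := hb.sub ha
  have q1 := ha.expand hd (1/2)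
  have q2 := ha.expand hd 1
  have e1 : (fun x => a x + 1/2 * (b x - a x)) = fun x => (a x + b x) / 2 := by funext x; ring
  have e2 : (fun x => a x + 1 * (b x - a x)) = b := by funext x; ring
  have e1' : (fun x => (a x + 1/2 * (b x - a x)) * pot (fun y => a y + 1/2 * (b y - a y)) x)
      = fun x => ((a x + b x) / 2) * pot (fun y => (a y + b y) / 2) x := by
    rw [e1]; funext x; ring
  have e2' : (fun x => (a x + 1 * (b x - a x)) * pot (fun y => a y + 1 * (b y - a y)) x)
      = fun x => b x * pot b x := by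
    rw [e2]; funext x; ring
  rw [e1'] at q1
  rw [e2'] at q2
  have hpos := hd.pd
  rw [q1, q2]
  linarith

/-- integrability on the product space -/
lemma NN.prod_int (ha : NN a) (hb : NN b) :
    Integrable (fun p : E3 × E3 => a p.1 * b p.2 / ‖p.1 - p.2‖)
      ((volume : Measure E3).prod volume) := by
  obtain ⟨a', ha', hae⟩ := ha.rep
  obtain ⟨b', hb', hbe⟩ := hb.rep
  have key : Integrable (fun p : E3 × E3 => a' p.1 * b' p.2 / ‖p.1 - p.2‖)
      ((volume : Measure E3).prod volume) := by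
    obtain ⟨B, hB⟩ := nice_bound b' hb'
    have hm := pd_meas2 a' b' ha'.1 hb'.1
    rw [integrable_prod_iff hm.aestronglyMeasurable]
    constructor
    · refine ae_of_all _ (fun x => ?_)
      have h1 := (hB x).1.const_mul (a' x)
      refine h1.congr (ae_of_all _ (fun y => ?_))
      show a' x * (b' y / ‖x - y‖) = a' x * b' y / ‖x - y‖
      rw [mul_div_assoc]
    · refine (ha'.2.1.abs.mul_const B).mono' ?_ ?_
      · have : StronglyMeasurable (fun x : E3 => ∫ y : E3, ‖a' x * b' y / ‖x - y‖‖) :=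
          StronglyMeasurable.integral_prod_right (f := fun x y => ‖a' x * b' y / ‖x - y‖‖) hm.norm.stronglyMeasurable
        exact this.aestronglyMeasurable
      · refine ae_of_all _ (fun x => ?_)
        have e1 : (∫ y : E3, ‖a' x * b' y / ‖x - y‖‖) = |a' x| * ∫ y, |b' y| / ‖x - y‖ := by
          rw [← integral_const_mul]
          apply integral_congr_ae
          refine ae_of_all _ (fun y => ?_)
          show ‖a' x * b' y / ‖x - y‖‖ = |a' x| * (|b' y| / ‖x - y‖)
          rw [norm_div, norm_mul, norm_norm, Real.norm_eq_abs, Real.norm_eq_abs, mul_div_assoc]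
        show ‖∫ y : E3, ‖a' x * b' y / ‖x - y‖‖‖ ≤ |a' x| * B
        rw [e1, Real.norm_eq_abs, abs_of_nonneg]
        · exact mul_le_mul_of_nonneg_left (hB x).2 (abs_nonneg _)
        · apply mul_nonneg (abs_nonneg _)
          exact integral_nonneg (fun y => by positivity)
  refine key.congr ?_
  have h1 := (Measure.quasiMeasurePreserving_fst (μ := (volume : Measure E3)) (ν := (volume : Measure E3))).ae hae
  have h2 := (Measure.quasiMeasurePreserving_snd (μ := (volume : Measure E3)) (ν := (volume : Measure E3))).ae hbe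
  filter_upwards [h1, h2] with p hp1 hp2
  rw [hp1, hp2]

/-- the Coulomb energy as an integral over the product space -/
lemma NN.dbl_prod (ha : NN a) (hb : NN b) :
    ∫ p, a p.1 * b p.2 / ‖p.1 - p.2‖ ∂((volume : Measure E3).prod volume) = ∫ x, a x * pot b x := by
  rw [integral_prod _ (ha.prod_int hb), dbl]

/-- Fatou for the Coulomb energy -/
lemma coulomb_fatou {ρ : ℕ → E3 → ℝ} {ρ0 : E3 → ℝ} (h : ∀ n, NN (ρ n)) (h0 : NN ρ0)
    (hnn : ∀ n x, 0 ≤ ρ n x) (hae : ∀ᵐ x, Tendsto (fun n => ρ n x) atTop (𝓝 (ρ0 x))) {B : ℝ}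
    (hB : ∀ n, ∫ x, ρ n x * pot (ρ n) x ≤ B) : ∫ x, ρ0 x * pot ρ0 x ≤ B := by
  have h1 := (Measure.quasiMeasurePreserving_fst (μ := (volume : Measure E3)) (ν := (volume : Measure E3))).ae hae
  have h2 := (Measure.quasiMeasurePreserving_snd (μ := (volume : Measure E3)) (ν := (volume : Measure E3))).ae hae
  have hF := Helper149.Fatou.fatou_real (μ := (volume : Measure E3).prod volume)
    (fun n (p : E3 × E3) => ρ n p.1 * ρ n p.2 / ‖p.1 - p.2‖)
    (fun p : E3 × E3 => ρ0 p.1 * ρ0 p.2 / ‖p.1 - p.2‖) B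
    (fun n p => div_nonneg (mul_nonneg (hnn n _) (hnn n _)) (norm_nonneg _))
    (fun n => (h n).prod_int (h n)) (fun n => by rw [(h n).dbl_prod (h n)]; exact hB n) (by
      filter_upwards [h1, h2] with p hp1 hp2
      exact (hp1.mul hp2).div_const _)
  rw [← h0.dbl_prod h0]
  exact hF.2

end Pool.Agent.N288.TFW
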