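import Pool.Agent.N288.TFW.Mid

/-!
# Existence of a minimiser of the relaxed problem
-/

set_option autoImplicit false

open MeasureTheory Filter Topology Set Metric
open scoped ENNReal NNReal Convolution ContDiff

namespace Pool.Agent.N288.TFW

open Pool.Agent.TH791.Cl (Nice pot)

variable {k : ℕ}

lemma adm_zero : Adm (fun _ => 0) (fun _ => 0) := by
  refine ⟨fun _ => le_rfl, integrable_zero _ _ _, ?_, MemLp.zero, fun φ _ _ v => ?_⟩
  · have : (fun _ : E3 => (0:ℝ) ^ (5/3 : ℝ)) = fun _ => 0 := by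
      funext x; rw [Real.zero_rpow (by norm_num)]
    rw [this]; exact integrable_zero _ _ _
  · simp

lemma memLp_56 {ρ : E3 → ℝ} {g : E3 → E3} (h : Adm ρ g) :
    MemLp (fun x => ρ x ^ (5/6 : ℝ)) 2 volume := by
  have hm : AEStronglyMeasurable (fun x => ρ x ^ (5/6 : ℝ)) volume :=
    (h.int.aestronglyMeasurable.aemeasurable.pow_const _).aestronglyMeasurable
  rw [memLp_two_iff_integrable_sq hm]
  refine h.int53.congr (ae_of_all _ fun x => ?_)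
  simp only
  rw [← Real.rpow_natCast, ← Real.rpow_mul (h.nonneg x)]
  norm_num

lemma Q_nonneg {ρ : E3 → ℝ} (h : ∀ x, 0 ≤ ρ x) : 0 ≤ ∫ x, ρ x * pot ρ x :=
  integral_nonneg fun x => mul_nonneg (h x) (integral_nonneg fun y => div_nonneg (h y) (norm_nonneg _))

theorem exists_relaxed {z : Fin k → ℝ} (hz : ∀ i, 0 < z i) (R : Fin k → E3) {N0 : ℝ}
    (hN0 : 0 ≤ N0) : ∃ (ρ : E3 → ℝ) (g : E3 → E3), Adm ρ g ∧ ∫ x, ρ x ≤ N0 ∧
      ∀ (σ : E3 → ℝ) (h : E3 → E3), Adm σ h → ∫ x, σ x ≤ N0 → EN z R ρ g ≤ EN z R σ h := by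
  obtain ⟨C0, hC0⟩ := EN_low hz R N0
  set S : Set ℝ := {e | ∃ (ρ : E3 → ℝ) (g : E3 → E3), Adm ρ g ∧ ∫ x, ρ x ≤ N0 ∧ EN z R ρ g = e} with hS
  have hSne : S.Nonempty := ⟨_, fun _ => 0, fun _ => 0, adm_zero, by simpa using hN0, rfl⟩
  have hpos : ∀ (ρ : E3 → ℝ) (g : E3 → E3), Adm ρ g → 0 ≤ (∫ x, ‖g x‖ ^ 2) ∧
      0 ≤ (∫ x, ρ x ^ (5/3 : ℝ)) ∧ 0 ≤ ∫ x, ρ x * pot ρ x := fun ρ g h =>
    ⟨integral_nonneg fun x => by positivity, integral_nonneg fun x => Real.rpow_nonneg (h.nonneg x) _,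
      Q_nonneg h.nonneg⟩
  have hSb : BddBelow S := ⟨-C0, by
    rintro e ⟨ρ, g, h, hN, rfl⟩
    have h1 := hC0 ρ g h hN
    obtain ⟨p1, p2, p3⟩ := hpos ρ g h
    linarith⟩
  set m := sInf S with hm
  have hle : ∀ (ρ : E3 → ℝ) (g : E3 → E3), Adm ρ g → ∫ x, ρ x ≤ N0 → m ≤ EN z R ρ g :=
    fun ρ g h hN => csInf_le hSb ⟨ρ, g, h, hN, rfl⟩
  have hseq : ∀ n : ℕ, ∃ (ρ : E3 → ℝ) (g : E3 → E3), Adm ρ g ∧ ∫ x, ρ x ≤ N0 ∧
      EN z R ρ g < m + (1/4:ℝ) ^ n / 48 := by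
    intro n
    have hp : 0 < (1/4:ℝ) ^ n / 48 := by positivity
    obtain ⟨v, ⟨ρ, g, h, hN, rfl⟩, hv⟩ := exists_lt_of_csInf_lt hSne
      (show sInf S < m + (1/4:ℝ) ^ n / 48 by linarith)
    exact ⟨ρ, g, h, hN, hv⟩
  choose ρ g hA hN hE using hseq
  have hgap : ∀ N n k : ℕ, N ≤ n → N ≤ k →
      ∫ x, (ρ n x ^ (5/6 : ℝ) - ρ k x ^ (5/6 : ℝ)) ^ 2 ≤ (1/4:ℝ) ^ N / 4 := by
    intro N n k hn hk
    obtain ⟨gm, hgm, h1⟩ := EN_mid z R (hA n) (hA k)
    have hmass : ∫ x, (ρ n x + ρ k x) / 2 ≤ N0 := by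
      rw [integral_div, integral_add (hA n).int (hA k).int]
      have := hN n
      have := hN k
      linarith
    have h2 := hle _ _ hgm hmass
    have h3 := hE n
    have h4 := hE k
    have h5 : (1/4:ℝ) ^ n ≤ (1/4:ℝ) ^ N := pow_le_pow_of_le_one (by norm_num) (by norm_num) hn
    have h6 : (1/4:ℝ) ^ k ≤ (1/4:ℝ) ^ N := pow_le_pow_of_le_one (by norm_num) (by norm_num) hk
    linarith
  set f : ℕ → E3 → ℝ := fun n x => ρ n x ^ (5/6 : ℝ) with hf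
  have hfL : ∀ n, MemLp (f n) 2 volume := fun n => memLp_56 (hA n)
  have hmem : ∀ n k, MemLp (f n - f k) 2 volume := fun n k => (hfL n).sub (hfL k)
  have hcau : ∀ N n k : ℕ, N ≤ n → N ≤ k → eLpNorm (f n - f k) 2 volume < ENNReal.ofReal ((1/2:ℝ) ^ N) := by
    intro N n k hn hk
    rw [(hmem n k).eLpNorm_eq_integral_rpow_norm (by norm_num) (by norm_num)]
    refine (ENNReal.ofReal_lt_ofReal_iff (by positivity)).2 ?_
    have e1 : ∫ x, ‖(f n - f k) x‖ ^ (2 : ℝ≥0∞).toReal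
        = ∫ x, (ρ n x ^ (5/6 : ℝ) - ρ k x ^ (5/6 : ℝ)) ^ 2 := by
      congr 1
      funext x
      simp [hf]
    rw [e1]
    have h1 := hgap N n k hn hk
    have h0 : 0 ≤ ∫ x, (ρ n x ^ (5/6 : ℝ) - ρ k x ^ (5/6 : ℝ)) ^ 2 :=
      integral_nonneg (fun x => sq_nonneg _)
    have h2 : (1/4:ℝ) ^ N / 4 < ((1/2:ℝ) ^ N) ^ 2 := by
      have : ((1/2:ℝ) ^ N) ^ 2 = (1/4:ℝ) ^ N := by rw [← pow_mul, mul_comm, pow_mul]; norm_num
      rw [this]
      have : 0 < (1/4:ℝ) ^ N := by positivity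
      linarith
    have h3 : (∫ x, (ρ n x ^ (5/6 : ℝ) - ρ k x ^ (5/6 : ℝ)) ^ 2) ^ ((2 : ℝ≥0∞).toReal)⁻¹
        = √(∫ x, (ρ n x ^ (5/6 : ℝ) - ρ k x ^ (5/6 : ℝ)) ^ 2) := by
      rw [Real.sqrt_eq_rpow]; norm_num
    rw [h3, Real.sqrt_lt' (by positivity)]
    exact h1.trans_lt h2
  have hB : ∑' i : ℕ, ENNReal.ofReal ((1/2:ℝ) ^ i) ≠ ⊤ := by
    rw [← ENNReal.ofReal_tsum_of_nonneg (fun i => by positivity) summable_geometric_two]
    exact ENNReal.ofReal_ne_top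
  have hae := Lp.ae_tendsto_of_cauchy_eLpNorm (fun n => (hfL n).1) (by norm_num : (1:ℝ≥0∞) ≤ 2) hB hcau
  obtain ⟨fl, hflm, hfl⟩ := measurable_limit_of_tendsto_metrizable_ae
    (fun n => (hfL n).1.aemeasurable) hae
  set ρ0 : E3 → ℝ := fun x => (max (fl x) 0) ^ (6/5 : ℝ) with hρ0
  have hρ00 : ∀ x, 0 ≤ ρ0 x := fun x => Real.rpow_nonneg (le_max_right _ _) _
  have hlim : ∀ᵐ x, Tendsto (fun n => ρ n x) atTop (𝓝 (ρ0 x)) := by
    filter_upwards [hfl] with x hx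
    have h1 : 0 ≤ fl x := ge_of_tendsto' hx fun n => Real.rpow_nonneg ((hA n).nonneg x) _
    have h2 : ρ0 x = fl x ^ (6/5 : ℝ) := by rw [hρ0]; simp only; rw [max_eq_left h1]
    rw [h2]
    refine (hx.rpow_const (p := 6/5) (Or.inr (by norm_num))).congr fun n => ?_
    show (ρ n x ^ (5/6 : ℝ)) ^ (6/5 : ℝ) = ρ n x
    rw [← Real.rpow_mul ((hA n).nonneg x)]
    norm_num
  -- boundedness of the pieces of the energy
  set B : ℝ := (10/3) * (m + 1 + C0) with hBdef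
  have hq : ∀ n, (1/4:ℝ) ^ n / 48 ≤ 1 := by
    intro n
    have : (1/4:ℝ) ^ n ≤ 1 := pow_le_one₀ (by norm_num) (by norm_num)
    linarith
  have hbd : ∀ n, (∫ x, ‖g n x‖ ^ 2) ≤ B ∧ (∫ x, ρ n x ^ (5/3 : ℝ)) ≤ B ∧
      (∫ x, ρ n x * pot (ρ n) x) ≤ B := by
    intro n
    have h1 := hC0 _ _ (hA n) (hN n)
    have h2 := (hE n).le
    have h3 := hq n
    obtain ⟨p1, p2, p3⟩ := hpos _ _ (hA n)
    refine ⟨?_, ?_, ?_⟩ <;> rw [hBdef] <;> linarith
  obtain ⟨⟨κ, δ⟩, hκδ, φ, hφ, hsub⟩ := ((isCompact_Icc (a := (0:ℝ)) (b := B)).prod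
    (isCompact_Icc (a := (0:ℝ)) (b := B))).tendsto_subseq
    (x := fun n => ((∫ x, ‖g n x‖ ^ 2), (∫ x, ρ n x * pot (ρ n) x)))
    (fun n => ⟨⟨(hpos _ _ (hA n)).1, (hbd n).1⟩, ⟨(hpos _ _ (hA n)).2.2, (hbd n).2.2⟩⟩)
  have hκ : Tendsto (fun n => ∫ x, ‖g (φ n) x‖ ^ 2) atTop (𝓝 κ) := hsub.fst_nhds
  have hδ : Tendsto (fun n => ∫ x, ρ (φ n) x * pot (ρ (φ n)) x) atTop (𝓝 δ) := hsub.snd_nhds
  have hlimφ : ∀ᵐ x, Tendsto (fun n => ρ (φ n) x) atTop (𝓝 (ρ0 x)) := by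
    filter_upwards [hlim] with x hx
    exact hx.comp hφ.tendsto_atTop
  -- the limit density
  obtain ⟨hi0, hM0⟩ := Helper149.Fatou.fatou_real (μ := (volume : Measure E3)) (fun n => ρ n) ρ0 N0
    (fun n x => (hA n).nonneg x) (fun n => (hA n).int) hN hlim
  obtain ⟨hi53, _⟩ := Helper149.Fatou.fatou_real (μ := (volume : Measure E3))
    (fun n x => ρ n x ^ (5/3 : ℝ)) (fun x => ρ0 x ^ (5/3 : ℝ)) B
    (fun n x => Real.rpow_nonneg ((hA n).nonneg x) _) (fun n => (hA n).int53) (fun n => (hbd n).2.1) (by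
      filter_upwards [hlim] with x hx
      exact hx.rpow_const (Or.inr (by norm_num)))
  obtain ⟨g0, hg0, hg0le⟩ := WG.limit (fun n => (hA (φ n)).WG) (memLp_sqrt hρ00 hi0) (by
      filter_upwards [hlimφ] with x hx
      exact (Real.continuous_sqrt.tendsto _).comp hx) (C := N0) (fun n => by
      have e : ∀ x, √(ρ (φ n) x) ^ 2 = ρ (φ n) x := fun x => Real.sq_sqrt ((hA _).nonneg x)
      simp only [e]
      exact hN _) hκ
  have hA0 : Adm ρ0 g0 := ⟨hρ00, hi0, hi53, hg0.g2, hg0.weak⟩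
  refine ⟨ρ0, g0, hA0, hM0, fun σ h hσ hNσ => ?_⟩
  have hfin : EN z R ρ0 g0 ≤ m := by
    have hkey : ∀ ε : ℝ, 0 < ε → EN z R ρ0 g0 ≤ m + ε * (3 + B + N0) := by
      intro ε hε
      -- choose a tail
      have ev1 : ∀ᶠ n in atTop, κ - ε < ∫ x, ‖g (φ n) x‖ ^ 2 := hκ.eventually (lt_mem_nhds (by linarith))
      have ev2 : ∀ᶠ n in atTop, δ - ε < ∫ x, ρ (φ n) x * pot (ρ (φ n)) x :=
        hδ.eventually (lt_mem_nhds (by linarith))
      have ev3 : ∀ᶠ n in atTop, ∫ x, ρ (φ n) x * pot (ρ (φ n)) x < δ + ε :=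
        hδ.eventually (gt_mem_nhds (by linarith))
      have ev4 : ∀ᶠ n in atTop, EN z R (ρ (φ n)) (g (φ n)) < m + ε := by
        have h1 : Tendsto (fun n : ℕ => m + (1/4:ℝ) ^ (φ n) / 48) atTop (𝓝 m) := by
          have h1 := (tendsto_pow_atTop_nhds_zero_of_lt_one (by norm_num : (0:ℝ) ≤ 1/4)
            (by norm_num)).div_const 48
          have h2 := h1.const_add m
          have h3 : Tendsto (fun n : ℕ => m + (1/4:ℝ) ^ n / 48) atTop (𝓝 m) := by simpa using h2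
          exact h3.comp hφ.tendsto_atTop
        filter_upwards [h1.eventually (gt_mem_nhds (show m < m + ε by linarith))] with n hn
        exact (hE (φ n)).trans hn
      obtain ⟨n0, hn0⟩ := eventually_atTop.1 (ev1.and (ev2.and (ev3.and ev4)))
      let ψ : ℕ → ℕ := fun n => φ (n + n0)
      have hψt : Tendsto ψ atTop atTop := hφ.tendsto_atTop.comp (tendsto_add_atTop_nat n0)
      have hlimψ : ∀ᵐ x, Tendsto (fun n => ρ (ψ n) x) atTop (𝓝 (ρ0 x)) := by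
        filter_upwards [hlim] with x hx
        exact hx.comp hψt
      have hD : ∫ x, ρ0 x * pot ρ0 x ≤ δ + ε :=
        coulomb_fatou (fun n => (hA (ψ n)).NN) hA0.NN (fun n x => (hA _).nonneg x) hlimψ
          (fun n => (hn0 (n + n0) (Nat.le_add_left _ _)).2.2.1.le)
      -- the local part
      obtain ⟨K, hK, hK0, hKa⟩ := V_young hz R hε hε
      have key : ∀ {τ : E3 → ℝ} {q : E3 → E3}, Adm τ q →
          Integrable (fun x => (3/5 + ε) * τ x ^ (5/3 : ℝ) + (K x + ε * τ x) - V z R x * τ x) ∧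
          ∫ x, ((3/5 + ε) * τ x ^ (5/3 : ℝ) + (K x + ε * τ x) - V z R x * τ x)
            = (3/5 + ε) * (∫ x, τ x ^ (5/3 : ℝ)) + ((∫ x, K x) + ε * ∫ x, τ x)
              - ∫ x, V z R x * τ x := by
        intro τ q hτ
        have j1 : Integrable (fun x => (3/5 + ε) * τ x ^ (5/3 : ℝ)) := hτ.int53.const_mul _
        have j2 : Integrable (fun x => K x + ε * τ x) := hK.add (hτ.int.const_mul _)
        have j12 : Integrable (fun x => (3/5 + ε) * τ x ^ (5/3 : ℝ) + (K x + ε * τ x)) := j1.add j2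
        have j3 := (V_int z R hτ.NN).1
        refine ⟨j12.sub j3, ?_⟩
        rw [integral_sub j12 j3, integral_add j1 j2, integral_add hK (hτ.int.const_mul _),
          integral_const_mul, integral_const_mul]
      have hF := Helper149.Fatou.fatou_real (μ := (volume : Measure E3))
        (fun n x => (3/5 + ε) * ρ (ψ n) x ^ (5/3 : ℝ) + (K x + ε * ρ (ψ n) x) - V z R x * ρ (ψ n) x)
        (fun x => (3/5 + ε) * ρ0 x ^ (5/3 : ℝ) + (K x + ε * ρ0 x) - V z R x * ρ0 x)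
        ((m - κ - 1/2 * δ + 5/2 * ε) + ε * B + (∫ x, K x) + ε * N0) ?_
        (fun n => (key (hA (ψ n))).1) ?_ ?_
      · have h1 := hF.2
        rw [(key hA0).2] at h1
        obtain ⟨p1, p2, p3⟩ := hpos _ _ hA0
        have p4 : 0 ≤ ∫ x, ρ0 x := integral_nonneg hρ00
        have h2 : 0 ≤ ε * ∫ x, ρ0 x := mul_nonneg hε.le p4
        have h3 : 0 ≤ ε * ∫ x, ρ0 x ^ (5/3 : ℝ) := mul_nonneg hε.le p2
        unfold EN
        linarith
      · intro n x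
        have h1 := hKa _ ((hA (ψ n)).nonneg x) x
        have h2 : 0 ≤ ρ (ψ n) x ^ (5/3 : ℝ) := Real.rpow_nonneg ((hA _).nonneg x) _
        show 0 ≤ (3/5 + ε) * ρ (ψ n) x ^ (5/3 : ℝ) + (K x + ε * ρ (ψ n) x) - V z R x * ρ (ψ n) x
        linarith
      · intro n
        rw [(key (hA (ψ n))).2]
        obtain ⟨q1, q2, q3, q4⟩ := hn0 (n + n0) (Nat.le_add_left _ _)
        have q5 := (hbd (ψ n)).2.1
        have q6 := hN (ψ n)
        have q7 := mul_le_mul_of_nonneg_left q5 hε.le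
        have q8 := mul_le_mul_of_nonneg_left q6 hε.le
        unfold EN at q4
        show (3/5 + ε) * (∫ x, ρ (ψ n) x ^ (5/3 : ℝ)) + ((∫ x, K x) + ε * ∫ x, ρ (ψ n) x)
          - ∫ x, V z R x * ρ (ψ n) x ≤ _
        have e1 : ψ n = φ (n + n0) := rfl
        rw [e1] at q7 q8 ⊢
        linarith
      · filter_upwards [hlimψ] with x hx
        have a1 := hx.rpow_const (p := 5/3) (Or.inr (by norm_num))
        exact ((a1.const_mul _).add ((hx.const_mul ε).const_add (K x))).sub (hx.const_mul _)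
    refine le_of_forall_pos_le_add fun ε hε => ?_
    have hB0 : 0 ≤ B := (hpos _ _ (hA 0)).1.trans (hbd 0).1
    have h1 := hkey (ε / (3 + B + N0)) (by positivity)
    have h2 : ε / (3 + B + N0) * (3 + B + N0) = ε := div_mul_cancel₀ _ (by positivity)
    rw [h2] at h1
    exact h1
  exact hfin.trans (hle σ h hσ hNσ)

end Pool.Agent.N288.TFW
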