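import Pool.Agent.N288.TFW.Sqrt

/-!
# Testing the gradient of `log ψ`
-/

set_option autoImplicit false

open MeasureTheory Filter Topology Set Metric
open scoped ENNReal NNReal Convolution ContDiff

namespace Pool.Agent.N288.TFW

lemma int_fderiv_zero {φ : E3 → ℝ} (hφ : ContDiff ℝ ∞ φ) (hφc : HasCompactSupport φ) (v : E3) :
    ∫ x, fderiv ℝ φ x v = 0 := by
  have hφdc : Continuous (fun x => fderiv ℝ φ x v) :=
    (hφ.continuous_fderiv (by simp)).clm_apply continuous_const
  have hφds : HasCompactSupport (fun x => fderiv ℝ φ x v) := hφc.fderiv_apply (𝕜 := ℝ) v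
  have := integral_mul_fderiv_eq_neg_fderiv_mul_of_integrable (μ := (volume : Measure E3))
    (f := fun _ => (1:ℝ)) (g := φ) (v := v) ?_ ?_ ?_ (fun x _ => differentiableAt_const _)
    (fun x _ => hφ.differentiable (by simp) x)
  · simpa using this
  · simp
  · simpa using hφdc.integrable_of_hasCompactSupport hφds
  · simpa using hφ.continuous.integrable_of_hasCompactSupport hφc

/-- `½ log (u² + ε²)` against derivatives of test functions -/
lemma WG.log_eps_test {u : E3 → ℝ} {g : E3 → E3} (h : WG u g) {ε : ℝ} (hε : 0 < ε)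
    {φ : E3 → ℝ} (hφ : ContDiff ℝ ∞ φ) (hφc : HasCompactSupport φ) (v : E3) :
    ∫ x, (1/2 * Real.log (u x ^ 2 + ε ^ 2)) * fderiv ℝ φ x v
      = -∫ x, inner ℝ ((u x / (u x ^ 2 + ε ^ 2)) • g x) v * φ x := by
  have h1 := (h.log_eps hε).weak φ hφ hφc v
  have hφdc : Continuous (fun x => fderiv ℝ φ x v) :=
    (hφ.continuous_fderiv (by simp)).clm_apply continuous_const
  have hφds : HasCompactSupport (fun x => fderiv ℝ φ x v) := hφc.fderiv_apply (𝕜 := ℝ) v
  have hφdm : MemLp (fun x => fderiv ℝ φ x v) 2 volume := hφdc.memLp_of_hasCompactSupport hφds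
  have hφi : Integrable (fun x => fderiv ℝ φ x v) := hφdc.integrable_of_hasCompactSupport hφds
  have e : ∀ x, (1/2 * Real.log (u x ^ 2 + ε ^ 2)) * fderiv ℝ φ x v
      = (1/2 * Real.log (1 + u x ^ 2 / ε ^ 2)) * fderiv ℝ φ x v
        + (Real.log ε) * fderiv ℝ φ x v := by
    intro x
    have e1 : u x ^ 2 + ε ^ 2 = (1 + u x ^ 2 / ε ^ 2) * ε ^ 2 := by field_simp; ring
    rw [e1, Real.log_mul (by positivity) (by positivity), Real.log_pow]
    push_cast; ring
  simp only [e]
  have i1 : Integrable (fun x => (1/2 * Real.log (1 + u x ^ 2 / ε ^ 2)) * fderiv ℝ φ x v) :=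
    (h.log_eps hε).u2.integrable_mul hφdm
  rw [integral_add i1 (hφi.const_mul _), integral_const_mul, int_fderiv_zero hφ hφc v, h1]
  ring

/-- `log u` against derivatives of test functions supported where `u` is bounded below -/
theorem WG.log_test {u : E3 → ℝ} {g : E3 → E3} (h : WG u g) {c : ℝ} (hc : 0 < c)
    {φ : E3 → ℝ} (hφ : ContDiff ℝ ∞ φ) (hφc : HasCompactSupport φ) (v : E3)
    (hu : ∀ x ∈ tsupport φ, c ≤ u x) :
    ∫ x, Real.log (u x) * fderiv ℝ φ x v = -∫ x, inner ℝ ((u x)⁻¹ • g x) v * φ x := by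
  let ε : ℕ → ℝ := fun n => 1 / ((n:ℝ) + 1)
  have hε : ∀ n, 0 < ε n := fun n => by positivity
  have hεl : Tendsto ε atTop (𝓝 0) := tendsto_one_div_add_atTop_nhds_zero_nat
  have hε1 : ∀ n, ε n ≤ 1 := fun n => by
    show 1 / ((n:ℝ) + 1) ≤ 1
    rw [div_le_one (by positivity)]
    have : (0:ℝ) ≤ n := Nat.cast_nonneg n
    linarith
  have hid : ∀ n, _ := fun n => h.log_eps_test (hε n) hφ hφc v
  have hφm : MemLp φ 2 volume := hφ.continuous.memLp_of_hasCompactSupport hφc
  have hφdc : Continuous (fun x => fderiv ℝ φ x v) :=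
    (hφ.continuous_fderiv (by simp)).clm_apply continuous_const
  have hφds : HasCompactSupport (fun x => fderiv ℝ φ x v) := hφc.fderiv_apply (𝕜 := ℝ) v
  have hφi : Integrable (fun x => fderiv ℝ φ x v) := hφdc.integrable_of_hasCompactSupport hφds
  have hzero : ∀ x, x ∉ tsupport φ → φ x = 0 ∧ fderiv ℝ φ x v = 0 := by
    intro x hx
    refine ⟨image_eq_zero_of_notMem_tsupport hx, ?_⟩
    have : fderiv ℝ φ x = 0 := by
      by_contra hne
      exact hx ((support_fderiv_subset ℝ) (Function.mem_support.mpr hne))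
    rw [this]; rfl
  obtain ⟨Cb, hCb⟩ := hφds.exists_bound_of_continuous hφdc
  have hlim1 : Tendsto (fun n => ∫ x, (1/2 * Real.log (u x ^ 2 + ε n ^ 2)) * fderiv ℝ φ x v) atTop
      (𝓝 (∫ x, Real.log (u x) * fderiv ℝ φ x v)) := by
    refine tendsto_integral_of_dominated_convergence
      (fun x => |Real.log c| * |fderiv ℝ φ x v| + u x ^ 2 * Cb) ?_ ?_ ?_ ?_
    · intro n
      have hF : Continuous (fun a : ℝ => 1/2 * Real.log (a ^ 2 + ε n ^ 2)) := by
        refine continuous_const.mul (Continuous.log (by fun_prop) fun a => ?_)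
        have := hε n
        have : 0 < a ^ 2 + ε n ^ 2 := by positivity
        exact this.ne'
      exact (hF.comp_aestronglyMeasurable h.u2.1).mul hφdc.aestronglyMeasurable
    · exact (hφi.abs.const_mul _).add ((isq' h.u2).mul_const _)
    · intro n
      refine ae_of_all _ fun x => ?_
      by_cases hx : x ∈ tsupport φ
      · have h1 := hu x hx
        have h2 : c ^ 2 ≤ u x ^ 2 + ε n ^ 2 := by nlinarith [hε n]
        have h3 := Real.log_le_log (by positivity) h2
        rw [Real.log_pow] at h3
        have h4 : Real.log (u x ^ 2 + ε n ^ 2) ≤ u x ^ 2 := by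
          have := Real.log_le_sub_one_of_pos (show 0 < u x ^ 2 + ε n ^ 2 by nlinarith [hε n])
          nlinarith [hε n, hε1 n]
        have h5 : |1/2 * Real.log (u x ^ 2 + ε n ^ 2)| ≤ |Real.log c| + u x ^ 2 := by
          push_cast at h3
          rw [abs_le]
          have := neg_abs_le (Real.log c)
          have := abs_nonneg (Real.log c)
          have := sq_nonneg (u x)
          constructor <;> linarith
        rw [norm_mul, Real.norm_eq_abs, Real.norm_eq_abs]
        have h6 := mul_le_mul_of_nonneg_right h5 (abs_nonneg (fderiv ℝ φ x v))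
        have h7 := mul_le_mul_of_nonneg_left (hCb x) (sq_nonneg (u x))
        rw [Real.norm_eq_abs] at h7
        linarith
      · rw [(hzero x hx).2, mul_zero, norm_zero]
        have := mul_nonneg (sq_nonneg (u x)) ((norm_nonneg _).trans (hCb x))
        simpa using this
    · refine ae_of_all _ fun x => ?_
      by_cases hx : x ∈ tsupport φ
      · refine Tendsto.mul_const _ ?_
        have h1 : 0 < u x := lt_of_lt_of_le hc (hu x hx)
        have h2 : Tendsto (fun n => u x ^ 2 + ε n ^ 2) atTop (𝓝 (u x ^ 2)) := by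
          have := (hεl.pow 2).const_add (u x ^ 2)
          simpa using this
        have h3 := (h2.log (by positivity)).const_mul (1/2)
        have h4 : 1/2 * Real.log (u x ^ 2) = Real.log (u x) := by
          rw [Real.log_pow]; push_cast; ring
        rw [h4] at h3
        exact h3
      · simp only [(hzero x hx).2, mul_zero]
        exact tendsto_const_nhds
  have hlim2 : Tendsto (fun n => ∫ x, inner ℝ ((u x / (u x ^ 2 + ε n ^ 2)) • g x) v * φ x) atTop
      (𝓝 (∫ x, inner ℝ ((u x)⁻¹ • g x) v * φ x)) := by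
    have hb1 : Integrable (fun x => c⁻¹ * ‖v‖ * (‖g x‖ * |φ x|)) :=
      (h.g2.norm.integrable_mul hφm.abs).const_mul _
    refine tendsto_integral_of_dominated_convergence
      (fun x => c⁻¹ * ‖v‖ * (‖g x‖ * |φ x|)) ?_ hb1 ?_ ?_
    · intro n
      have hA : Continuous (fun a : ℝ => a / (a ^ 2 + ε n ^ 2)) := by
        refine Continuous.div (by fun_prop) (by fun_prop) fun p => ?_
        have := hε n
        have : 0 < p ^ 2 + ε n ^ 2 := by positivity
        exact this.ne'
      exact (((hA.comp_aestronglyMeasurable h.u2.1).smul h.g2.1).inner aestronglyMeasurable_const).mul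
        hφ.continuous.aestronglyMeasurable
    · intro n
      refine ae_of_all _ fun x => ?_
      by_cases hx : x ∈ tsupport φ
      · have h1 : 0 < u x := lt_of_lt_of_le hc (hu x hx)
        rw [norm_mul, Real.norm_eq_abs, Real.norm_eq_abs]
        have b1 := abs_real_inner_le_norm ((u x / (u x ^ 2 + ε n ^ 2)) • g x) v
        rw [norm_smul, Real.norm_eq_abs] at b1
        have b2 : |u x / (u x ^ 2 + ε n ^ 2)| ≤ c⁻¹ := by
          have h5 := hε n
          rw [abs_of_pos (by positivity), div_le_iff₀ (by positivity), ← div_eq_inv_mul,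
            le_div_iff₀ hc]
          nlinarith [hu x hx]
        have b3 := mul_le_mul_of_nonneg_right (mul_le_mul_of_nonneg_right b2 (norm_nonneg (g x)))
          (norm_nonneg v)
        have b4 := mul_le_mul_of_nonneg_right (b1.trans b3) (abs_nonneg (φ x))
        refine b4.trans (le_of_eq ?_)
        ring
      · rw [(hzero x hx).1]; simp
    · refine ae_of_all _ fun x => ?_
      by_cases hx : x ∈ tsupport φ
      · refine Tendsto.mul_const _ ?_
        refine Tendsto.inner ?_ tendsto_const_nhds
        refine Tendsto.smul_const ?_ _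
        have h1 : 0 < u x := lt_of_lt_of_le hc (hu x hx)
        have h2 : Tendsto (fun n => u x ^ 2 + ε n ^ 2) atTop (𝓝 (u x ^ 2)) := by
          have := (hεl.pow 2).const_add (u x ^ 2)
          simpa using this
        have h3 := (tendsto_const_nhds (x := u x)).div h2 (by positivity)
        have h4 : u x / u x ^ 2 = (u x)⁻¹ := by field_simp
        rw [h4] at h3
        exact h3
      · simp only [(hzero x hx).1, mul_zero]
        exact tendsto_const_nhds
  refine tendsto_nhds_unique hlim1 (hlim2.neg.congr fun n => ?_)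
  rw [hid n]

end Pool.Agent.N288.TFW
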