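import Pool.Agent.N288.TFW.Rad2
import Pool.Agent.N288.TFW.En

/-!
# Radial integrals and Newton's theorem for the trial function
-/

set_option autoImplicit false

open MeasureTheory Filter Topology Set Metric
open scoped ENNReal NNReal Convolution ContDiff

namespace Pool.Agent.N288.TFW

open Pool.Agent.TH791.Cl (pot)
open Pool.Agent.R999.Newton (kx kx_nonneg kx_meas pot_radial int_radial integrable_radial)

lemma P1 {L : ℝ} (hL : 0 ≤ L) : IntegrableOn (fun t => t ^ 2 * (Iic L).indicator (fun _ => (1:ℝ)) t) (Ioi 0) ∧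
    ∫ t in Ioi (0:ℝ), t ^ 2 * (Iic L).indicator (fun _ => (1:ℝ)) t = L ^ 3 / 3 := by
  have e : (fun t : ℝ => t ^ 2 * (Iic L).indicator (fun _ => (1:ℝ)) t) = (Iic L).indicator (fun t => t ^ 2) := by
    funext t
    by_cases h : t ∈ Iic L
    · rw [indicator_of_mem h, indicator_of_mem h, mul_one]
    · rw [indicator_of_notMem h, indicator_of_notMem h, mul_zero]
  have hs : Ioi (0:ℝ) ∩ Iic L = Ioc 0 L := Ioi_inter_Iic
  rw [e]
  constructor
  · rw [integrableOn_indicator_iff measurableSet_Iic, inter_comm, hs]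
    have : Continuous (fun t : ℝ => t ^ 2) := by fun_prop
    exact this.integrableOn_Icc.mono_set Ioc_subset_Icc_self
  · rw [setIntegral_indicator measurableSet_Iic, hs, ← intervalIntegral.integral_of_le hL, integral_pow]
    norm_num

lemma P2 {R : ℝ} (hR : 2 ≤ R) :
    IntegrableOn (fun t => t ^ 2 * (Ioc 3 (3 * R)).indicator (fun t => (t ^ 3)⁻¹) t) (Ioi 0) ∧
    ∫ t in Ioi (0:ℝ), t ^ 2 * (Ioc 3 (3 * R)).indicator (fun t => (t ^ 3)⁻¹) t = Real.log R := by
  have e : (fun t : ℝ => t ^ 2 * (Ioc 3 (3 * R)).indicator (fun t => (t ^ 3)⁻¹) t)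
      = (Ioc 3 (3 * R)).indicator (fun t => t⁻¹) := by
    funext t
    by_cases h : t ∈ Ioc 3 (3 * R)
    · rw [indicator_of_mem h, indicator_of_mem h]
      have : t ≠ 0 := by linarith [h.1]
      field_simp
    · rw [indicator_of_notMem h, indicator_of_notMem h, mul_zero]
  have hs : Ioi (0:ℝ) ∩ Ioc 3 (3 * R) = Ioc 3 (3 * R) :=
    inter_eq_right.2 fun t ht => by
      show 0 < t
      linarith [ht.1]
  rw [e]
  constructor
  · rw [integrableOn_indicator_iff measurableSet_Ioc, inter_comm, hs]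
    have : ContinuousOn (fun t : ℝ => t⁻¹) (Icc 3 (3 * R)) :=
      continuousOn_inv₀.mono fun t ht => by
        have : 0 < t := by linarith [ht.1]
        exact this.ne'
    exact this.integrableOn_Icc.mono_set Ioc_subset_Icc_self
  · rw [setIntegral_indicator measurableSet_Ioc, hs, ← intervalIntegral.integral_of_le (by linarith),
      integral_inv_of_pos (by norm_num) (by linarith)]
    congr 1
    field_simp

theorem fD_int {a b c R : ℝ} (hR : 2 ≤ R) :
    Integrable (fun x : E3 => fD a b c R ‖x‖) ∧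
    ∫ x : E3, fD a b c R ‖x‖ = 4 * Real.pi * (9 * a + b * Real.log R + 9 * c) := by
  obtain ⟨i1, v1⟩ := P1 (L := 3) (by norm_num)
  obtain ⟨i2, v2⟩ := P2 hR
  obtain ⟨i3, v3⟩ := P1 (L := 3 * R) (by linarith)
  have e : (fun t : ℝ => t ^ 2 * fD a b c R t) = fun t =>
      (a * (t ^ 2 * (Iic (3:ℝ)).indicator (fun _ => 1) t)
        + b * (t ^ 2 * (Ioc 3 (3 * R)).indicator (fun t => (t ^ 3)⁻¹) t))
      + c * (R ^ 3)⁻¹ * (t ^ 2 * (Iic (3 * R)).indicator (fun _ => 1) t) := by
    funext t; unfold fD; ring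
  have j1 : IntegrableOn (fun t => a * (t ^ 2 * (Iic (3:ℝ)).indicator (fun _ => (1:ℝ)) t)) (Ioi 0) :=
    i1.const_mul a
  have j2 : IntegrableOn (fun t => b * (t ^ 2 * (Ioc 3 (3 * R)).indicator (fun t => (t ^ 3)⁻¹) t)) (Ioi 0) :=
    i2.const_mul b
  have j3 : IntegrableOn (fun t => c * (R ^ 3)⁻¹ * (t ^ 2 * (Iic (3 * R)).indicator (fun _ => (1:ℝ)) t)) (Ioi 0) :=
    i3.const_mul (c * (R ^ 3)⁻¹)
  have j12 : IntegrableOn (fun t => a * (t ^ 2 * (Iic (3:ℝ)).indicator (fun _ => (1:ℝ)) t)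
        + b * (t ^ 2 * (Ioc 3 (3 * R)).indicator (fun t => (t ^ 3)⁻¹) t)) (Ioi 0) := j1.add j2
  constructor
  · rw [integrable_radial (g := fD a b c R), e]
    exact j12.add j3
  · rw [int_radial (fD a b c R), e, integral_add j12 j3, integral_add j1 j2, integral_const_mul,
      integral_const_mul, integral_const_mul, v1, v2, v3]
    have : R ≠ 0 := by linarith
    field_simp
    ring

/-- square of the profile as a function of the radius -/
noncomputable def gR (R t : ℝ) : ℝ := ((1 + t ^ 2) ^ (-(1/4) : ℝ) * S (2 - t ^ 2 / (4 * R ^ 2))) ^ 2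

lemma gR_eq (R : ℝ) (x : E3) : sR R x ^ 2 = gR R ‖x‖ := rfl

lemma gR_cont (R : ℝ) : Continuous (gR R) := by
  unfold gR
  refine Continuous.pow (Continuous.mul ?_ (S_cd.continuous.comp (by fun_prop))) 2
  exact Continuous.rpow_const (by fun_prop) fun x => Or.inl (by positivity)

lemma gR_nonneg (R t : ℝ) : 0 ≤ gR R t := sq_nonneg _

lemma gR_le_one (R t : ℝ) : gR R t ≤ 1 := by
  unfold gR
  have h1 : (1 + t ^ 2) ^ (-(1/4) : ℝ) ≤ 1 :=
    Real.rpow_le_one_of_one_le_of_nonpos (by nlinarith [sq_nonneg t]) (by norm_num)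
  have h2 : 0 ≤ (1 + t ^ 2) ^ (-(1/4) : ℝ) := by positivity
  have h3 := S_le_one (2 - t ^ 2 / (4 * R ^ 2))
  have h4 := S_nonneg (2 - t ^ 2 / (4 * R ^ 2))
  have h5 : (1 + t ^ 2) ^ (-(1/4) : ℝ) * S (2 - t ^ 2 / (4 * R ^ 2)) ≤ 1 := mul_le_one₀ h1 h4 h3
  exact pow_le_one₀ (mul_nonneg h2 h4) h5

lemma gR_zero {R t : ℝ} (hR : 0 < R) (ht : 3 * R ≤ t) : gR R t = 0 := by
  unfold gR
  rw [S_zero, mul_zero]
  · norm_num
  · rw [sub_nonpos, le_div_iff₀ (by positivity)]
    nlinarith

lemma w_NN {R : ℝ} (hR : 0 < R) : NN (fun x : E3 => sR R x ^ 2) := by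
  have hc : Continuous (fun x : E3 => sR R x ^ 2) := (sR_cd.continuous).pow 2
  have hs : HasCompactSupport (fun x : E3 => sR R x ^ 2) := by
    have := sR_supp hR
    refine this.mono' ?_
    intro x hx
    refine subset_tsupport _ ?_
    intro h0
    apply hx
    simp [h0]
  refine ⟨hc.integrable_of_hasCompactSupport hs, ?_⟩
  have hc2 : Continuous (fun x : E3 => |sR R x ^ 2| ^ (5/3 : ℝ)) :=
    (hc.abs).rpow_const fun x => Or.inr (by norm_num)
  refine hc2.integrable_of_hasCompactSupport ?_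
  refine hs.mono' ?_
  intro x hx
  refine subset_tsupport _ ?_
  intro h0
  apply hx
  have h0' : sR R x ^ 2 = 0 := h0
  show |sR R x ^ 2| ^ (5/3 : ℝ) = 0
  rw [h0', abs_zero, Real.zero_rpow (by norm_num)]

lemma kx_zero {t : ℝ} (ht : 0 < t) : kx 0 t = 4 * Real.pi * t := by
  unfold kx
  rw [max_eq_right ht.le]
  field_simp

lemma kx_le {r t : ℝ} (ht : 0 < t) : kx r t ≤ 4 * Real.pi * t := by
  unfold kx
  have hm : t ≤ max r t := le_max_right _ _
  have hpi := Real.pi_pos
  rw [div_le_iff₀ (lt_of_lt_of_le ht hm)]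
  nlinarith [mul_le_mul_of_nonneg_left hm (by positivity : 0 ≤ 4 * Real.pi * t)]

lemma pot_w {R : ℝ} (x : E3) : pot (fun y : E3 => sR R y ^ 2) x = ∫ t in Ioi (0:ℝ), kx ‖x‖ t * gR R t := by
  have := pot_radial (g := gR R) (gR_cont R).measurable x
  exact this

lemma kx_g_int {R r : ℝ} (hR : 0 < R) (hr : 0 ≤ r) : IntegrableOn (fun t => kx r t * gR R t) (Ioi 0) := by
  have hpi := Real.pi_pos
  have h1 : IntegrableOn (fun t : ℝ => (Iic (3 * R)).indicator (fun t => 4 * Real.pi * t) t) (Ioi 0) := by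
    rw [integrableOn_indicator_iff measurableSet_Iic, inter_comm, Ioi_inter_Iic]
    have : Continuous (fun t : ℝ => 4 * Real.pi * t) := by fun_prop
    exact this.integrableOn_Icc.mono_set Ioc_subset_Icc_self
  refine h1.mono' ((kx_meas r).mul (gR_cont R).measurable).aestronglyMeasurable ?_
  filter_upwards [ae_restrict_mem measurableSet_Ioi] with t ht
  have ht0 : 0 < t := ht
  rw [Real.norm_of_nonneg (mul_nonneg (kx_nonneg hr) (gR_nonneg _ _))]
  by_cases h : t ∈ Iic (3 * R)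
  · rw [indicator_of_mem h]
    have a1 := kx_le (r := r) ht0
    have a2 := gR_le_one R t
    have a3 := gR_nonneg R t
    have a4 : 0 ≤ 4 * Real.pi * t := by positivity
    nlinarith
  · rw [indicator_of_notMem h, gR_zero hR (not_le.1 h).le, mul_zero]

/-- the potential of `w` is maximal at the origin -/
lemma pot_w_le {R : ℝ} (hR : 0 < R) (x : E3) :
    pot (fun y : E3 => sR R y ^ 2) x ≤ pot (fun y : E3 => sR R y ^ 2) 0 := by
  rw [pot_w, pot_w, norm_zero]
  refine setIntegral_mono_on (kx_g_int hR (norm_nonneg x)) (kx_g_int hR le_rfl) measurableSet_Ioi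
    fun t ht => ?_
  rw [kx_zero ht]
  exact mul_le_mul_of_nonneg_right (kx_le ht) (gR_nonneg _ _)

lemma pot_w_ge {R : ℝ} (hR : 0 < R) (x : E3) :
    pot (fun y : E3 => sR R y ^ 2) 0 - 2 * Real.pi * ‖x‖ ^ 2 ≤ pot (fun y : E3 => sR R y ^ 2) x := by
  have hpi := Real.pi_pos
  rw [pot_w, pot_w, norm_zero]
  have hi : IntegrableOn (fun t : ℝ => (Iic ‖x‖).indicator (fun t => 4 * Real.pi * t) t) (Ioi 0) := by
    rw [integrableOn_indicator_iff measurableSet_Iic, inter_comm, Ioi_inter_Iic]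
    have : Continuous (fun t : ℝ => 4 * Real.pi * t) := by fun_prop
    exact this.integrableOn_Icc.mono_set Ioc_subset_Icc_self
  have hv : ∫ t in Ioi (0:ℝ), (Iic ‖x‖).indicator (fun t => 4 * Real.pi * t) t = 2 * Real.pi * ‖x‖ ^ 2 := by
    rw [setIntegral_indicator measurableSet_Iic, Ioi_inter_Iic,
      ← intervalIntegral.integral_of_le (norm_nonneg x), intervalIntegral.integral_const_mul, integral_id]
    ring
  rw [← hv, ← integral_sub (kx_g_int hR le_rfl) hi]
  refine setIntegral_mono_on ((kx_g_int hR le_rfl).sub hi) (kx_g_int hR (norm_nonneg x)) measurableSet_Ioi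
    fun t ht => ?_
  have ht0 : 0 < t := ht
  rw [kx_zero ht]
  by_cases h : t ∈ Iic ‖x‖
  · rw [indicator_of_mem h]
    have a2 := gR_le_one R t
    have a4 : 0 ≤ 4 * Real.pi * t := by positivity
    have a5 := mul_nonneg (kx_nonneg (r := ‖x‖) (t := t) (norm_nonneg x)) (gR_nonneg R t)
    nlinarith
  · rw [indicator_of_notMem h, sub_zero]
    have hlt : ‖x‖ < t := not_le.1 h
    have : kx ‖x‖ t = 4 * Real.pi * t := by
      unfold kx
      rw [max_eq_right hlt.le]
      field_simp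
    rw [this]

lemma pot_w0_ge {R : ℝ} (hR : 2 ≤ R) : R ≤ pot (fun y : E3 => sR R y ^ 2) 0 := by
  have hpi := Real.pi_gt_three
  have hR0 : 0 < R := by linarith
  rw [pot_w, norm_zero]
  have h1 : ∫ t in Ioc 1 (2 * R), kx 0 t * gR R t ≤ ∫ t in Ioi (0:ℝ), kx 0 t * gR R t := by
    refine setIntegral_mono_set (kx_g_int hR0 le_rfl) ?_ ?_
    · exact ae_of_all _ fun t => mul_nonneg (kx_nonneg le_rfl) (gR_nonneg _ _)
    · have hsub : Ioc 1 (2 * R) ⊆ Ioi (0:ℝ) := fun t ht => by
        show 0 < t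
        linarith [ht.1]
      exact hsub.eventuallyLE
  refine le_trans ?_ h1
  have hmono : ∫ t in Ioc 1 (2 * R), (1:ℝ) ≤ ∫ t in Ioc 1 (2 * R), kx 0 t * gR R t := by
    refine setIntegral_mono_on (integrableOn_const (by simp) (by simp)) ((kx_g_int hR0 le_rfl).mono_set fun t ht => ?_)
      measurableSet_Ioc fun t ht => ?_
    · show 0 < t
      linarith [ht.1]
    · have ht1 : 1 < t := ht.1
      have ht2 : t ≤ 2 * R := ht.2
      have ht0 : 0 < t := by linarith
      rw [kx_zero ht0]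
      unfold gR
      have h2 : 1 ≤ 2 - t ^ 2 / (4 * R ^ 2) := by
        have : t ^ 2 / (4 * R ^ 2) ≤ 1 := by
          rw [div_le_one (by positivity)]
          nlinarith
        linarith
      rw [S_one h2, mul_one]
      obtain ⟨y, hy1, hy4, hya, -⟩ := y4 (sq_nonneg t)
      rw [hya]
      have h3 : y ^ 2 ≤ 2 * t := by
        have : (y ^ 2) ^ 2 ≤ (2 * t) ^ 2 := by nlinarith
        exact le_of_sq_le_sq this (by positivity)
      have h4 : 1 ≤ 4 * Real.pi * t * (y⁻¹) ^ 2 := by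
        rw [inv_pow, ← div_eq_mul_inv, le_div_iff₀ (by positivity)]
        nlinarith
      exact h4
  refine le_trans ?_ hmono
  rw [setIntegral_const]
  simp only [smul_eq_mul, mul_one, Real.volume_real_Ioc]
  rw [max_eq_left (by linarith)]
  linarith

end Pool.Agent.N288.TFW
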