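import Pool.Agent.N288.TFW.Poinc

/-!
# An `L¹` Poincaré inequality on balls: weak gradients
-/

set_option autoImplicit false

open MeasureTheory Filter Topology Set Metric
open scoped ENNReal NNReal Convolution ContDiff

namespace Pool.Agent.N288.TFW

/-- the restricted measure -/
noncomputable abbrev mB (L : ℝ) : Measure E3 := (volume : Measure E3).restrict (ball 0 L)

/-- the constant -/
noncomputable def PC (L : ℝ) : ℝ := 2 * L * (volume (ball (0:E3) (2 * L))).toReal

lemma PC_nonneg {L : ℝ} (hL : 0 < L) : 0 ≤ PC L := by unfold PC; positivity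

instance (L : ℝ) : IsFiniteMeasure (mB L) := ⟨by
  rw [Measure.restrict_apply_univ]; exact measure_ball_lt_top⟩

lemma memLp_int_ball {F : Type*} [NormedAddCommGroup F] {f : E3 → F} (hf : MemLp f 2 volume) (L : ℝ) :
    Integrable f (mB L) := (hf.restrict (ball 0 L)).integrable (by norm_num)

lemma poinc_smooth_real {w : E3 → ℝ} {G : E3 → E3} (hw : ContDiff ℝ 1 w) (hG : Continuous G)
    (hwG : ∀ x v, fderiv ℝ w x v = inner ℝ (G x) v) (hGm : MemLp G 2 volume) {L : ℝ} (hL : 0 < L) :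
    ∫ p, |w p.1 - w p.2| ∂((mB L).prod (mB L)) ≤ PC L * ∫ x in ball (0:E3) L, ‖G x‖ := by
  have hc : Continuous (fun p : E3 × E3 => w p.1 - w p.2) := by
    have := hw.continuous
    fun_prop
  have e1 : ∫ p, |w p.1 - w p.2| ∂((mB L).prod (mB L))
      = (∫⁻ p, ‖w p.1 - w p.2‖ₑ ∂((mB L).prod (mB L))).toReal :=
    integral_norm_eq_lintegral_enorm hc.aestronglyMeasurable
  have e2 : ∫ x in ball (0:E3) L, ‖G x‖ = (∫⁻ x in ball (0:E3) L, ‖G x‖ₑ).toReal :=
    integral_norm_eq_lintegral_enorm hG.aestronglyMeasurable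
  have h1 := poinc_smooth hw hG hwG L
  have e3 : ∫⁻ p, ‖w p.1 - w p.2‖ₑ ∂((mB L).prod (mB L))
      = ∫⁻ x in ball (0:E3) L, ∫⁻ y in ball (0:E3) L, ‖w x - w y‖ₑ := by
    rw [lintegral_prod _ hc.measurable.enorm.aemeasurable]
  rw [← e3] at h1
  have hfin : ∫⁻ x in ball (0:E3) L, ‖G x‖ₑ ≠ ⊤ := (memLp_int_ball hGm L).2.ne
  rw [e1, e2]
  have h2 := ENNReal.toReal_mono (ENNReal.mul_ne_top (ENNReal.mul_ne_top ENNReal.ofReal_ne_top
    measure_ball_lt_top.ne) hfin) h1
  refine h2.trans (le_of_eq ?_)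
  rw [ENNReal.toReal_mul, ENNReal.toReal_mul, ENNReal.toReal_ofReal (by positivity)]
  rfl

theorem WG.poinc {H : E3 → ℝ} {G : E3 → E3} (hW : WG H G) {L : ℝ} (hL : 0 < L) :
    Integrable (fun p : E3 × E3 => |H p.1 - H p.2|) ((mB L).prod (mB L)) ∧
    ∫ p, |H p.1 - H p.2| ∂((mB L).prod (mB L)) ≤ PC L * ∫ x in ball (0:E3) L, ‖G x‖ := by
  obtain ⟨w, Gn, hw, hG, hwG, hae, haeg, hm, hmG, hb, hbG⟩ := hW.approx
  have hconv := L2conv hmG hW.g2 haeg hbG
  have hHi : Integrable H (mB L) := memLp_int_ball hW.u2 L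
  have hi : Integrable (fun p : E3 × E3 => |H p.1 - H p.2|) ((mB L).prod (mB L)) :=
    ((hHi.comp_fst (mB L)).sub (hHi.comp_snd (mB L))).abs
  refine ⟨hi, ?_⟩
  set v : ℝ := (volume (ball (0:E3) L)).toReal with hv
  have hv0 : 0 ≤ v := ENNReal.toReal_nonneg
  have hPC := PC_nonneg hL
  have key : ∀ η : ℝ, 0 < η → ∫ p, |H p.1 - H p.2| ∂((mB L).prod (mB L))
      ≤ PC L * ((∫ x in ball (0:E3) L, ‖G x‖) + η * (v + 1)) := by
    intro η hη
    have ev := hconv.eventually (gt_mem_nhds (show (0:ℝ) < η ^ 2 by positivity))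
    obtain ⟨n0, hn0⟩ := eventually_atTop.1 ev
    have haeB : ∀ᵐ x ∂(mB L), Tendsto (fun n => w n x) atTop (𝓝 (H x)) := ae_restrict_of_ae hae
    have h1 := (Measure.quasiMeasurePreserving_fst (μ := mB L) (ν := mB L)).ae haeB
    have h2 := (Measure.quasiMeasurePreserving_snd (μ := mB L) (ν := mB L)).ae haeB
    have hF := Helper149.Fatou.fatou_real (μ := (mB L).prod (mB L))
      (fun n (p : E3 × E3) => |w (n + n0) p.1 - w (n + n0) p.2|)
      (fun p : E3 × E3 => |H p.1 - H p.2|) (PC L * ((∫ x in ball (0:E3) L, ‖G x‖) + η * (v + 1)))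
      (fun n p => abs_nonneg _) (fun n => by
        have hwi : Integrable (w (n + n0)) (mB L) := memLp_int_ball (hm _) L
        exact ((hwi.comp_fst (mB L)).sub (hwi.comp_snd (mB L))).abs) (fun n => by
        refine (poinc_smooth_real ((hw (n + n0)).of_le (by simp)) (hG _) (hwG _) (hmG _) hL).trans ?_
        refine mul_le_mul_of_nonneg_left ?_ hPC
        have i1 : Integrable (fun x => ‖G x‖) (mB L) := (memLp_int_ball hW.g2 L).norm
        have i2 : Integrable (fun x => ‖Gn (n + n0) x - G x‖ ^ 2) (mB L) :=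
          (isq ((hmG (n + n0)).sub hW.g2)).restrict
        have i3 : Integrable (fun _ : E3 => η) (mB L) := integrable_const _
        have i4 : Integrable (fun x => η + η⁻¹ * ‖Gn (n + n0) x - G x‖ ^ 2) (mB L) :=
          i3.add (i2.const_mul _)
        have h3 : ∫ x in ball (0:E3) L, ‖Gn (n + n0) x‖ ≤ ∫ x in ball (0:E3) L,
            (‖G x‖ + (η + η⁻¹ * ‖Gn (n + n0) x - G x‖ ^ 2)) := by
          refine integral_mono (memLp_int_ball (hmG _) L).norm (i1.add i4) fun x => ?_
          show ‖Gn (n + n0) x‖ ≤ ‖G x‖ + (η + η⁻¹ * ‖Gn (n + n0) x - G x‖ ^ 2)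
          have a1 : ‖Gn (n + n0) x‖ ≤ ‖G x‖ + ‖Gn (n + n0) x - G x‖ := by
            have := norm_add_le (G x) (Gn (n + n0) x - G x)
            rwa [add_sub_cancel] at this
          have a2 : ‖Gn (n + n0) x - G x‖ ≤ η + η⁻¹ * ‖Gn (n + n0) x - G x‖ ^ 2 := by
            set a := ‖Gn (n + n0) x - G x‖
            have : 0 ≤ η⁻¹ * (a - η) ^ 2 := by positivity
            have e : η⁻¹ * (a - η) ^ 2 = η⁻¹ * a ^ 2 - 2 * a + η := by field_simp; ring
            have : 0 ≤ a := norm_nonneg _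
            linarith
          linarith
        refine h3.trans ?_
        rw [integral_add i1 i4, integral_add i3 (i2.const_mul _), integral_const_mul]
        have e5 : ∫ _ in ball (0:E3) L, η = v * η := by
          rw [integral_const]
          simp [hv, Measure.real]
        rw [e5]
        have h6 : ∫ x in ball (0:E3) L, ‖Gn (n + n0) x - G x‖ ^ 2 ≤ ∫ x, ‖Gn (n + n0) x - G x‖ ^ 2 :=
          setIntegral_le_integral (isq ((hmG (n + n0)).sub hW.g2)) (ae_of_all _ fun x => by positivity)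
        have h7 := hn0 (n + n0) (Nat.le_add_left _ _)
        have h8 : η⁻¹ * ∫ x in ball (0:E3) L, ‖Gn (n + n0) x - G x‖ ^ 2 ≤ η := by
          rw [inv_mul_le_iff₀ hη]
          have : (∫ x in ball (0:E3) L, ‖Gn (n + n0) x - G x‖ ^ 2) ≤ η ^ 2 := h6.trans h7.le
          nlinarith
        nlinarith) (by
        filter_upwards [h1, h2] with p hp1 hp2
        exact ((hp1.sub hp2).abs).comp (tendsto_add_atTop_nat n0))
    exact hF.2
  refine le_of_forall_pos_le_add fun ε hε => ?_
  have h1 := key (ε / ((PC L + 1) * (v + 1))) (by positivity)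
  refine h1.trans ?_
  rw [mul_add]
  have h2 : PC L * (ε / ((PC L + 1) * (v + 1)) * (v + 1)) ≤ ε := by
    have e : PC L * (ε / ((PC L + 1) * (v + 1)) * (v + 1)) = ε * (PC L / (PC L + 1)) := by
      field_simp
    rw [e]
    have : PC L / (PC L + 1) ≤ 1 := by
      rw [div_le_one (by positivity)]; linarith
    nlinarith
  linarith

/-- comparison of averages -/
theorem WG.avg_cmp {H : E3 → ℝ} {G : E3 → E3} (hW : WG H G) {L : ℝ} (hL : 0 < L) {A : Set E3}
    (hA : MeasurableSet A) (hAL : A ⊆ ball (0:E3) L) {β : E3 → ℝ} (hβ : Measurable β) {Cβ : ℝ}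
    (hβC : ∀ x, |β x| ≤ Cβ) (hβ0 : ∀ x, x ∉ ball (0:E3) L → β x = 0) :
    |(volume A).toReal * (∫ x, β x * H x) - (∫ x, β x) * ∫ x in A, H x|
      ≤ Cβ * (PC L * ∫ x in ball (0:E3) L, ‖G x‖) := by
  obtain ⟨hi, hP⟩ := hW.poinc hL
  have hHi : Integrable H (mB L) := memLp_int_ball hW.u2 L
  have hβi : Integrable β (mB L) := by
    refine (integrable_const Cβ).mono' hβ.aestronglyMeasurable (ae_of_all _ fun x => ?_)
    exact hβC x
  have hβH : Integrable (fun x => β x * H x) (mB L) :=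
    hHi.bdd_mul (c := Cβ) hβ.aestronglyMeasurable (ae_of_all _ fun x => hβC x)
  have h1A : Measurable (A.indicator (fun _ => (1:ℝ))) := measurable_const.indicator hA
  have hAi : Integrable (A.indicator (fun _ => (1:ℝ))) (mB L) := by
    refine (integrable_const (1:ℝ)).mono' h1A.aestronglyMeasurable (ae_of_all _ fun x => ?_)
    by_cases hx : x ∈ A
    · rw [indicator_of_mem hx]; simp
    · rw [indicator_of_notMem hx]; simp
  have hAH : Integrable (fun x => A.indicator (fun _ => (1:ℝ)) x * H x) (mB L) := by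
    refine hHi.bdd_mul (c := 1) h1A.aestronglyMeasurable (ae_of_all _ fun x => ?_)
    by_cases hx : x ∈ A
    · rw [indicator_of_mem hx]; simp
    · rw [indicator_of_notMem hx]; simp
  have e1 : ∫ x, β x ∂(mB L) = ∫ x, β x :=
    setIntegral_eq_integral_of_forall_compl_eq_zero fun x hx => hβ0 x hx
  have e2 : ∫ x, β x * H x ∂(mB L) = ∫ x, β x * H x :=
    setIntegral_eq_integral_of_forall_compl_eq_zero fun x hx => by rw [hβ0 x hx, zero_mul]
  have e3 : ∫ x, A.indicator (fun _ => (1:ℝ)) x ∂(mB L) = (volume A).toReal := by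
    rw [integral_indicator hA, Measure.restrict_restrict hA, inter_eq_left.2 hAL]
    simp [Measure.real]
  have e4 : ∫ x, A.indicator (fun _ => (1:ℝ)) x * H x ∂(mB L) = ∫ x in A, H x := by
    have : (fun x => A.indicator (fun _ => (1:ℝ)) x * H x) = A.indicator H := by
      funext x
      by_cases hx : x ∈ A
      · rw [indicator_of_mem hx, indicator_of_mem hx, one_mul]
      · rw [indicator_of_notMem hx, indicator_of_notMem hx, zero_mul]
    rw [this, integral_indicator hA, Measure.restrict_restrict hA, inter_eq_left.2 hAL]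
  have j1 : Integrable (fun p : E3 × E3 => (β p.1 * H p.1) * A.indicator (fun _ => (1:ℝ)) p.2)
      ((mB L).prod (mB L)) := hβH.mul_prod hAi
  have j2 : Integrable (fun p : E3 × E3 => β p.1 * (A.indicator (fun _ => (1:ℝ)) p.2 * H p.2))
      ((mB L).prod (mB L)) := hβi.mul_prod hAH
  have e5 : (volume A).toReal * (∫ x, β x * H x) - (∫ x, β x) * ∫ x in A, H x
      = ∫ p, β p.1 * A.indicator (fun _ => (1:ℝ)) p.2 * (H p.1 - H p.2) ∂((mB L).prod (mB L)) := by
    rw [← e1, ← e2, ← e3, ← e4, mul_comm (∫ x, A.indicator (fun _ => (1:ℝ)) x ∂(mB L)),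
      ← integral_prod_mul, ← integral_prod_mul, ← integral_sub j1 j2]
    refine integral_congr_ae (ae_of_all _ fun p => ?_)
    simp only
    ring
  rw [e5]
  refine (abs_integral_le_integral_abs).trans ?_
  have hC0 : 0 ≤ Cβ := (abs_nonneg _).trans (hβC 0)
  calc ∫ p, |β p.1 * A.indicator (fun _ => (1:ℝ)) p.2 * (H p.1 - H p.2)| ∂((mB L).prod (mB L))
      ≤ ∫ p, Cβ * |H p.1 - H p.2| ∂((mB L).prod (mB L)) := by
        refine integral_mono_of_nonneg (ae_of_all _ fun p => abs_nonneg _) (hi.const_mul _)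
          (ae_of_all _ fun p => ?_)
        show |β p.1 * A.indicator (fun _ => (1:ℝ)) p.2 * (H p.1 - H p.2)| ≤ Cβ * |H p.1 - H p.2|
        rw [abs_mul, abs_mul]
        have a1 : |A.indicator (fun _ => (1:ℝ)) p.2| ≤ 1 := by
          by_cases hx : p.2 ∈ A
          · rw [indicator_of_mem hx]; simp
          · rw [indicator_of_notMem hx]; simp
        have a2 := mul_le_mul (hβC p.1) a1 (abs_nonneg _) hC0
        rw [mul_one] at a2
        exact mul_le_mul_of_nonneg_right a2 (abs_nonneg _)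
    _ = Cβ * ∫ p, |H p.1 - H p.2| ∂((mB L).prod (mB L)) := integral_const_mul _ _
    _ ≤ _ := mul_le_mul_of_nonneg_left hP hC0

end Pool.Agent.N288.TFW
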