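import Pool.Agent.N288.TFW.Rad4
import Pool.Agent.N288.TFW.Poinc2

/-!
# Bounds for the logarithmic averages
-/

set_option autoImplicit false

open MeasureTheory Filter Topology Set Metric
open scoped ENNReal NNReal Convolution ContDiff

namespace Pool.Agent.N288.TFW

open Pool.Agent.R999.Newton (int_radial integrable_radial)

lemma b1_meas : Measurable b1 := by
  unfold b1
  have h1 : Measurable (fun x : E3 => S' (‖x‖ ^ 2 - 1)) := S'_cont.measurable.comp (by fun_prop)
  exact (h1.const_mul 2).mul (measurable_norm.inv)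

lemma bR_meas (R : ℝ) : Measurable (bR R) := by
  unfold bR
  have h1 : Measurable (fun x : E3 => S' (2 - ‖x‖ ^ 2 / R ^ 2)) := S'_cont.measurable.comp (by fun_prop)
  exact (h1.const_mul _).mul (measurable_norm.inv)

lemma b1_nonneg (x : E3) : 0 ≤ b1 x := by
  unfold b1
  have := S'_nonneg (‖x‖ ^ 2 - 1)
  positivity

lemma bR_nonneg (R : ℝ) (x : E3) : 0 ≤ bR R x := by
  unfold bR
  have := S'_nonneg (2 - ‖x‖ ^ 2 / R ^ 2)
  positivity

lemma b1_out {x : E3} (h : 2 ≤ ‖x‖ ^ 2) : b1 x = 0 := by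
  unfold b1; rw [S'_one (by linarith)]; ring

lemma b1_out' {x : E3} (h : x ∉ ball (0:E3) 2) : b1 x = 0 := by
  rw [mem_ball_zero_iff, not_lt] at h
  exact b1_out (by nlinarith)

lemma bR_in {R : ℝ} (hR : 0 < R) {x : E3} (h : ‖x‖ ^ 2 ≤ R ^ 2) : bR R x = 0 := by
  unfold bR
  rw [S'_one]
  · ring
  · have : ‖x‖ ^ 2 / R ^ 2 ≤ 1 := by rw [div_le_one (by positivity)]; exact h
    linarith

lemma b1_le {C1 : ℝ} (hC1 : ∀ x, S' x ≤ C1) (hC0 : 0 ≤ C1) (x : E3) : |b1 x| ≤ 2 * C1 := by
  rw [abs_of_nonneg (b1_nonneg x)]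
  rcases le_or_gt (‖x‖ ^ 2) 1 with h | h
  · unfold b1
    rw [S'_zero (by linarith)]
    simpa using hC0
  · unfold b1
    have h1 : 1 ≤ ‖x‖ := by nlinarith [norm_nonneg x]
    have h2 : ‖x‖⁻¹ ≤ 1 := inv_le_one_of_one_le₀ h1
    have h3 := hC1 (‖x‖ ^ 2 - 1)
    have h4 := S'_nonneg (‖x‖ ^ 2 - 1)
    have h5 : 0 ≤ ‖x‖⁻¹ := by positivity
    nlinarith

lemma bR_le {C1 : ℝ} (hC1 : ∀ x, S' x ≤ C1) (hC0 : 0 ≤ C1) {R : ℝ} (hR : 0 < R) (x : E3) :
    bR R x ≤ 2 * C1 * (R ^ 3)⁻¹ := by
  rcases le_or_gt (‖x‖ ^ 2) (R ^ 2) with h | h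
  · rw [bR_in hR h]; positivity
  · have h1 : R ≤ ‖x‖ := (lt_of_pow_lt_pow_left₀ 2 (norm_nonneg x) h).le
    unfold bR
    have h2 : ‖x‖⁻¹ ≤ R⁻¹ := inv_anti₀ hR h1
    have h3 := hC1 (2 - ‖x‖ ^ 2 / R ^ 2)
    have h4 := S'_nonneg (2 - ‖x‖ ^ 2 / R ^ 2)
    have h5 : 0 ≤ ‖x‖⁻¹ := by positivity
    calc 2 / R ^ 2 * S' (2 - ‖x‖ ^ 2 / R ^ 2) * ‖x‖⁻¹ ≤ 2 / R ^ 2 * C1 * R⁻¹ := by gcongr
      _ = 2 * C1 * (R ^ 3)⁻¹ := by field_simp

lemma bR_int {R : ℝ} (hR : 0 < R) : Integrable (bR R) ∧ ∫ x, bR R x = 4 * Real.pi := by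
  set g : ℝ → ℝ := fun t => 2 / R ^ 2 * S' (2 - t ^ 2 / R ^ 2) * t⁻¹ with hg
  have hbR : bR R = fun x : E3 => g ‖x‖ := rfl
  set F : ℝ → ℝ := fun t => -S (2 - t ^ 2 / R ^ 2) with hF
  have hFd : ∀ t : ℝ, HasDerivAt F (S' (2 - t ^ 2 / R ^ 2) * (2 * t / R ^ 2)) t := by
    intro t
    have h3 : HasDerivAt (fun t : ℝ => 2 - t ^ 2 / R ^ 2) (-(2 * t / R ^ 2)) t := by
      have := (((hasDerivAt_id t).pow 2).div_const (R ^ 2)).const_sub 2
      refine this.congr_deriv ?_
      simp
    have h4 := ((S_hd (2 - t ^ 2 / R ^ 2)).comp t h3).neg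
    refine h4.congr_deriv ?_
    ring
  have hFc : ContinuousWithinAt F (Ici 0) 0 := (hFd 0).continuousAt.continuousWithinAt
  have hpos : ∀ t ∈ Ioi (0:ℝ), 0 ≤ S' (2 - t ^ 2 / R ^ 2) * (2 * t / R ^ 2) := by
    intro t ht
    have ht0 : 0 < t := ht
    have := S'_nonneg (2 - t ^ 2 / R ^ 2)
    positivity
  have hlim : Tendsto F atTop (𝓝 0) := by
    refine tendsto_const_nhds.congr' ?_
    filter_upwards [eventually_ge_atTop (2 * R)] with t ht
    rw [hF]
    simp only
    rw [S_zero, neg_zero]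
    rw [sub_nonpos, le_div_iff₀ (by positivity)]
    nlinarith
  have e : ∀ t ∈ Ioi (0:ℝ), t ^ 2 * g t = S' (2 - t ^ 2 / R ^ 2) * (2 * t / R ^ 2) := by
    intro t ht
    have ht0 : t ≠ 0 := (show 0 < t from ht).ne'
    rw [hg]
    field_simp
  have h1 := integrableOn_Ioi_deriv_of_nonneg hFc (fun t _ => hFd t) hpos hlim
  have h2 := integral_Ioi_of_hasDerivAt_of_nonneg hFc (fun t _ => hFd t) hpos hlim
  constructor
  · rw [hbR, integrable_radial (g := g)]
    exact h1.congr_fun (fun t ht => (e t ht).symm) measurableSet_Ioi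
  · rw [hbR, int_radial g, setIntegral_congr_fun measurableSet_Ioi e, h2]
    rw [hF]
    simp only
    rw [S_one (by norm_num)]
    ring

lemma b1_int : Integrable b1 := by
  obtain ⟨C1, hC0, hC1⟩ := S'_bdd
  have h1 : Integrable (fun x : E3 => (ball (0:E3) 2).indicator (fun _ => 2 * C1) x) := by
    rw [integrable_indicator_iff measurableSet_ball]
    exact integrableOn_const measure_ball_lt_top.ne
  refine h1.mono' b1_meas.aestronglyMeasurable (ae_of_all _ fun x => ?_)
  by_cases hx : x ∈ ball (0:E3) 2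
  · rw [indicator_of_mem hx]; exact b1_le hC1 hC0 x
  · rw [indicator_of_notMem hx, b1_out' hx, norm_zero]

/-- splitting the divergence -/
lemma split_int {R : ℝ} (hR : 2 ≤ R) {f : E3 → ℝ} (h : Integrable (fun x => f x * (b1 x - bR R x))) :
    Integrable (fun x => f x * b1 x) ∧ Integrable (fun x => f x * bR R x) ∧
    ∫ x, f x * (b1 x - bR R x) = (∫ x, f x * b1 x) - ∫ x, f x * bR R x := by
  have hR0 : 0 < R := by linarith
  have h1 : Integrable (fun x => f x * b1 x) := by
    have := h.indicator (measurableSet_ball (x := (0:E3)) (ε := 2))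
    refine this.congr (ae_of_all _ fun x => ?_)
    simp only
    by_cases hx : x ∈ ball (0:E3) 2
    · rw [indicator_of_mem hx, bR_in hR0, sub_zero]
      rw [mem_ball_zero_iff] at hx
      nlinarith [norm_nonneg x]
    · rw [indicator_of_notMem hx, b1_out' hx, mul_zero]
  have h2 : Integrable (fun x => f x * bR R x) := by
    refine (h1.sub h).congr (ae_of_all _ fun x => ?_)
    simp only [Pi.sub_apply]; ring
  refine ⟨h1, h2, ?_⟩
  rw [← integral_sub h1 h2]
  refine integral_congr_ae (ae_of_all _ fun x => ?_)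
  simp only; ring

/-- upper bound of the outer logarithmic average -/
lemma log_upper {C1 : ℝ} (hC1 : ∀ x, S' x ≤ C1) (hC0 : 0 ≤ C1) {R : ℝ} (hR : 2 ≤ R) {τ : E3 → ℝ}
    (h0 : ∀ x, 0 ≤ τ x) (hpos : ∀ x : E3, ‖x‖ ^ 2 ≤ 2 * R ^ 2 → 0 < τ x) (hi : Integrable τ)
    (hint : Integrable (fun x => Real.log (√(τ x)) * bR R x)) :
    ∫ x, Real.log (√(τ x)) * bR R x ≤ C1 * (∫ x, τ x) - 2 * Real.pi - 6 * Real.pi * Real.log R := by
  have hR0 : 0 < R := by linarith
  obtain ⟨hb, hbv⟩ := bR_int hR0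
  have j1 : Integrable (fun x => C1 * τ x) := hi.const_mul _
  have j2 : Integrable (fun x => (1 + 3 * Real.log R) / 2 * bR R x) := hb.const_mul _
  have h1 : ∫ x, Real.log (√(τ x)) * bR R x ≤ ∫ x, (C1 * τ x - (1 + 3 * Real.log R) / 2 * bR R x) := by
    refine integral_mono hint (j1.sub j2) fun x => ?_
    show Real.log (√(τ x)) * bR R x ≤ C1 * τ x - (1 + 3 * Real.log R) / 2 * bR R x
    rcases le_or_gt (2 * R ^ 2) (‖x‖ ^ 2) with hx | hx
    · have : bR R x = 0 := by
        unfold bR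
        rw [S'_zero]
        · ring
        · rw [sub_nonpos, le_div_iff₀ (by positivity)]; exact hx
      rw [this]
      have := mul_nonneg hC0 (h0 x)
      linarith
    · have hτ := hpos x hx.le
      have e1 : Real.log (√(τ x)) = 1/2 * Real.log (τ x) := by
        rw [Real.log_sqrt hτ.le]; ring
      have h2 := Real.log_le_sub_one_of_pos (show 0 < τ x * R ^ 3 by positivity)
      rw [Real.log_mul hτ.ne' (by positivity), Real.log_pow] at h2
      push_cast at h2
      have h3 : Real.log (√(τ x)) ≤ 1/2 * (τ x * R ^ 3 - 1 - 3 * Real.log R) := by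
        rw [e1]; linarith
      have h4 := mul_le_mul_of_nonneg_right h3 (bR_nonneg R x)
      have h5 := bR_le hC1 hC0 hR0 x
      have h6 : τ x * R ^ 3 * bR R x ≤ 2 * C1 * τ x := by
        have h7 := mul_le_mul_of_nonneg_left h5 (show 0 ≤ τ x * R ^ 3 by positivity)
        refine h7.trans (le_of_eq ?_)
        field_simp
      nlinarith
  refine h1.trans (le_of_eq ?_)
  rw [integral_sub j1 j2, integral_const_mul, integral_const_mul, hbv]
  ring

/-- lower bound of the inner logarithmic average -/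
theorem log_lower {C1 : ℝ} (hC1 : ∀ x, S' x ≤ C1) (hC0 : 0 ≤ C1) {u : E3 → ℝ} {g : E3 → E3} (h : WG u g)
    {L : ℝ} (hL : 2 ≤ L) {A : Set E3} (hA : MeasurableSet A) (hAL : A ⊆ ball (0:E3) L) {δ : ℝ}
    (hδ : 0 < δ) (hAδ : ∀ᵐ x ∂(volume.restrict A), δ ≤ u x ^ 2) {c : ℝ} (hc : 0 < c)
    (huc : ∀ x ∈ ball (0:E3) 2, c ≤ u x) {Θ : ℝ} (hΘi : IntegrableOn (fun x => ‖(u x)⁻¹ • g x‖) (ball (0:E3) L))
    (hΘ : ∫ x in ball (0:E3) L, ‖(u x)⁻¹ • g x‖ ≤ Θ) :
    (∫ x, b1 x) * ((volume A).toReal * (1/2 * Real.log δ)) - 2 * C1 * (PC L * Θ)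
      ≤ (volume A).toReal * ∫ x, Real.log (u x) * b1 x := by
  have hL0 : 0 < L := by linarith
  have hPC := PC_nonneg hL0
  let ε : ℕ → ℝ := fun n => 1 / ((n:ℝ) + 1)
  have hε : ∀ n, 0 < ε n := fun n => by positivity
  have hεl : Tendsto ε atTop (𝓝 0) := tendsto_one_div_add_atTop_nhds_zero_nat
  have hε1 : ∀ n, ε n ≤ 1 := fun n => by
    show 1 / ((n:ℝ) + 1) ≤ 1
    rw [div_le_one (by positivity)]
    have : (0:ℝ) ≤ n := Nat.cast_nonneg n
    linarith
  have hAfin : volume A ≠ ⊤ := ((measure_mono hAL).trans_lt measure_ball_lt_top).ne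
  have hb1i := b1_int
  have hb10 : 0 ≤ ∫ x, b1 x := integral_nonneg b1_nonneg
  have hstep : ∀ n, (∫ x, b1 x) * ((volume A).toReal * (1/2 * Real.log δ)) - 2 * C1 * (PC L * Θ)
      ≤ (volume A).toReal * ∫ x, (1/2 * Real.log (u x ^ 2 + ε n ^ 2)) * b1 x := by
    intro n
    have hW := h.log_eps (hε n)
    have h1 := hW.avg_cmp hL0 hA hAL b1_meas (b1_le hC1 hC0) (fun x hx => b1_out' fun hx2 => hx
      (ball_subset_ball hL hx2))
    have h2 : ∫ x in ball (0:E3) L, ‖(u x / (u x ^ 2 + ε n ^ 2)) • g x‖ ≤ Θ := by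
      refine le_trans ?_ hΘ
      refine integral_mono (memLp_int_ball hW.g2 L).norm hΘi fun x => ?_
      show ‖(u x / (u x ^ 2 + ε n ^ 2)) • g x‖ ≤ ‖(u x)⁻¹ • g x‖
      rw [norm_smul, norm_smul]
      refine mul_le_mul_of_nonneg_right ?_ (norm_nonneg _)
      rw [Real.norm_eq_abs, Real.norm_eq_abs, abs_div, abs_inv]
      rcases eq_or_ne (u x) 0 with h0 | h0
      · rw [h0]; simp
      · have h3 : 0 < |u x| := abs_pos.2 h0
        have h4 := hε n
        rw [abs_of_pos (show 0 < u x ^ 2 + ε n ^ 2 by positivity), div_le_iff₀ (by positivity),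
          ← sq_abs (u x), inv_mul_eq_div, le_div_iff₀ h3]
        nlinarith
    -- integrability of the pieces
    have hH : Integrable (fun x => b1 x * (1/2 * Real.log (1 + u x ^ 2 / ε n ^ 2))) := by
      have h3 : Integrable (fun x => 1/2 * Real.log (1 + u x ^ 2 / ε n ^ 2)) (mB 2) := memLp_int_ball hW.u2 2
      have h4 : Integrable (fun x => b1 x * (1/2 * Real.log (1 + u x ^ 2 / ε n ^ 2))) (mB 2) :=
        h3.bdd_mul (c := 2 * C1) b1_meas.aestronglyMeasurable (ae_of_all _ fun x => b1_le hC1 hC0 x)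
      have h5 := (integrable_indicator_iff (measurableSet_ball (x := (0:E3)) (ε := 2))).2 h4
      refine h5.congr (ae_of_all _ fun x => ?_)
      by_cases hx : x ∈ ball (0:E3) 2
      · simp only; rw [indicator_of_mem hx]
      · simp only; rw [indicator_of_notMem hx, b1_out' hx, zero_mul]
    have hHA : IntegrableOn (fun x => 1/2 * Real.log (1 + u x ^ 2 / ε n ^ 2)) A :=
      (memLp_int_ball hW.u2 L).mono_measure (Measure.restrict_mono hAL le_rfl)
    have elog : ∀ x, 1/2 * Real.log (1 + u x ^ 2 / ε n ^ 2)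
        = 1/2 * Real.log (u x ^ 2 + ε n ^ 2) - Real.log (ε n) := by
      intro x
      have h4 := hε n
      have e1 : u x ^ 2 + ε n ^ 2 = (1 + u x ^ 2 / ε n ^ 2) * ε n ^ 2 := by field_simp; ring
      rw [e1, Real.log_mul (by positivity) (by positivity), Real.log_pow]
      push_cast; ring
    have e1 : ∫ x, b1 x * (1/2 * Real.log (1 + u x ^ 2 / ε n ^ 2))
        = (∫ x, (1/2 * Real.log (u x ^ 2 + ε n ^ 2)) * b1 x) - Real.log (ε n) * ∫ x, b1 x := by
      have h3 : Integrable (fun x => (1/2 * Real.log (u x ^ 2 + ε n ^ 2)) * b1 x) := by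
        refine (hH.add (hb1i.const_mul (Real.log (ε n)))).congr (ae_of_all _ fun x => ?_)
        simp only [Pi.add_apply]
        rw [elog x]; ring
      rw [← integral_const_mul, ← integral_sub h3 (hb1i.const_mul _)]
      refine integral_congr_ae (ae_of_all _ fun x => ?_)
      simp only
      rw [elog x]; ring
    have e2 : (volume A).toReal * (1/2 * Real.log δ) - Real.log (ε n) * (volume A).toReal
        ≤ ∫ x in A, 1/2 * Real.log (1 + u x ^ 2 / ε n ^ 2) := by
      have h3 : ∫ _ in A, (1/2 * Real.log δ - Real.log (ε n))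
          ≤ ∫ x in A, 1/2 * Real.log (1 + u x ^ 2 / ε n ^ 2) := by
        refine integral_mono_ae (integrableOn_const hAfin) hHA ?_
        filter_upwards [hAδ] with x hx
        rw [elog x]
        have h5 : Real.log δ ≤ Real.log (u x ^ 2 + ε n ^ 2) :=
          Real.log_le_log hδ (by nlinarith [sq_nonneg (ε n)])
        linarith
      rw [setIntegral_const, smul_eq_mul] at h3
      refine le_trans (le_of_eq ?_) h3
      rw [Measure.real]; ring
    rw [e1] at h1
    have h5 := (abs_le.1 h1).1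
    have h6 := mul_le_mul_of_nonneg_left e2 hb10
    have h7 : 2 * C1 * (PC L * ∫ x in ball (0:E3) L, ‖(u x / (u x ^ 2 + ε n ^ 2)) • g x‖)
        ≤ 2 * C1 * (PC L * Θ) := by
      have := mul_le_mul_of_nonneg_left h2 hPC
      have := mul_le_mul_of_nonneg_left this (show 0 ≤ 2 * C1 by positivity)
      exact this
    nlinarith
  have hlim : Tendsto (fun n => ∫ x, (1/2 * Real.log (u x ^ 2 + ε n ^ 2)) * b1 x) atTop
      (𝓝 (∫ x, Real.log (u x) * b1 x)) := by
    refine tendsto_integral_of_dominated_convergence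
      (fun x => |Real.log c| * b1 x + u x ^ 2 * (2 * C1)) ?_ ?_ ?_ ?_
    · intro n
      have hF : Continuous (fun a : ℝ => 1/2 * Real.log (a ^ 2 + ε n ^ 2)) := by
        refine continuous_const.mul (Continuous.log (by fun_prop) fun a => ?_)
        have := hε n
        have : 0 < a ^ 2 + ε n ^ 2 := by positivity
        exact this.ne'
      exact (hF.comp_aestronglyMeasurable h.u2.1).mul b1_meas.aestronglyMeasurable
    · exact (hb1i.const_mul _).add ((isq' h.u2).mul_const _)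
    · intro n
      refine ae_of_all _ fun x => ?_
      by_cases hx : x ∈ ball (0:E3) 2
      · have h1 := huc x hx
        have h2 : c ^ 2 ≤ u x ^ 2 + ε n ^ 2 := by nlinarith [hε n]
        have h3 := Real.log_le_log (by positivity) h2
        rw [Real.log_pow] at h3
        have h4 : Real.log (u x ^ 2 + ε n ^ 2) ≤ u x ^ 2 := by
          have := Real.log_le_sub_one_of_pos (show 0 < u x ^ 2 + ε n ^ 2 by nlinarith [hε n])
          nlinarith [hε n, hε1 n]
        have h5 : |1/2 * Real.log (u x ^ 2 + ε n ^ 2)| ≤ |Real.log c| + u x ^ 2 := by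
          push_cast at h3
          rw [abs_le]
          have := neg_abs_le (Real.log c)
          have := abs_nonneg (Real.log c)
          have := sq_nonneg (u x)
          constructor <;> linarith
        rw [norm_mul, Real.norm_eq_abs, Real.norm_of_nonneg (b1_nonneg x)]
        have h6 := mul_le_mul_of_nonneg_right h5 (b1_nonneg x)
        have h7 := mul_le_mul_of_nonneg_left ((le_abs_self _).trans (b1_le hC1 hC0 x)) (sq_nonneg (u x))
        linarith
      · rw [b1_out' hx, mul_zero, norm_zero]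
        have : 0 ≤ u x ^ 2 * (2 * C1) := by positivity
        simpa using this
    · refine ae_of_all _ fun x => ?_
      by_cases hx : x ∈ ball (0:E3) 2
      · refine Tendsto.mul_const _ ?_
        have h1 : 0 < u x := lt_of_lt_of_le hc (huc x hx)
        have h2 : Tendsto (fun n => u x ^ 2 + ε n ^ 2) atTop (𝓝 (u x ^ 2)) := by
          have := (hεl.pow 2).const_add (u x ^ 2)
          simpa using this
        have h3 := (h2.log (by positivity)).const_mul (1/2)
        have h4 : 1/2 * Real.log (u x ^ 2) = Real.log (u x) := by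
          rw [Real.log_pow]; push_cast; ring
        rw [h4] at h3
        exact h3
      · simp only [b1_out' hx, mul_zero]
        exact tendsto_const_nhds
  exact ge_of_tendsto' (hlim.const_mul _) hstep

end Pool.Agent.N288.TFW
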