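import Pool.Agent.N288.TFW.Var
import Pool.Agent.N288.TFW.Rad3
import Pool.Agent.N288.TFW.Rad5

/-!
# The main estimates
-/

set_option autoImplicit false

open MeasureTheory Filter Topology Set Metric
open scoped ENNReal NNReal Convolution ContDiff

namespace Pool.Agent.N288.TFW

open Pool.Agent.TH791.Cl (pot)

variable {k : ℕ}

lemma young23 {a b : ℝ} (ha : 0 ≤ a) (hb : 0 ≤ b) :
    a ^ (2/3 : ℝ) * b ≤ 2/3 * a + 1/3 * b ^ 3 := by
  have hpq : (3/2 : ℝ).HolderConjugate 3 := by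
    rw [Real.holderConjugate_iff]; norm_num
  have h := Real.young_inequality_of_nonneg (Real.rpow_nonneg ha (2/3)) hb hpq
  rw [← Real.rpow_mul ha] at h
  norm_num at h
  have e : b ^ (3:ℝ) = b ^ 3 := by
    rw [← Real.rpow_natCast]; norm_num
  linarith

lemma s6_int {R : ℝ} (hR : 0 < R) : Integrable (fun x : E3 => sR R x ^ 6) := by
  have hc : Continuous (fun x : E3 => sR R x ^ 6) := (sR_cd.continuous).pow 6
  refine hc.integrable_of_hasCompactSupport ?_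
  refine (sR_supp hR).mono' ?_
  intro x hx
  refine subset_tsupport _ ?_
  intro h0
  apply hx
  simp [h0]

/-- the mass of the trial function -/
noncomputable def Ws (r : ℝ) : ℝ := ∫ x : E3, sR r x ^ 2

/-- the potential of the trial function at the origin -/
noncomputable def Ps (r : ℝ) : ℝ := pot (fun y : E3 => sR r y ^ 2) 0

lemma Ws_nonneg (r : ℝ) : 0 ≤ Ws r := integral_nonneg fun x => sq_nonneg _

/-- small parameters -/
def Good (r t : ℝ) : Prop := 0 < t ∧ t * Ws r ≤ 1 ∧ t * Ws r * Ps r ≤ 1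

lemma exists_good {r : ℝ} (hr : 2 ≤ r) : ∃ t0 : ℝ, 0 < t0 ∧ ∀ t, 0 < t → t ≤ t0 → Good r t := by
  have hW := Ws_nonneg r
  have hP : 0 ≤ Ps r := le_trans (by linarith) (pot_w0_ge hr)
  refine ⟨1 / (1 + Ws r + Ws r * Ps r), by positivity, fun t ht0 ht => ⟨ht0, ?_, ?_⟩⟩
  · have h1 : t * (1 + Ws r + Ws r * Ps r) ≤ 1 := by
      rwa [le_div_iff₀ (by positivity)] at ht
    have h2 : 0 ≤ t * (1 + Ws r * Ps r) := by positivity
    linarith
  · have h1 : t * (1 + Ws r + Ws r * Ps r) ≤ 1 := by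
      rwa [le_div_iff₀ (by positivity)] at ht
    have h2 : 0 ≤ t * (1 + Ws r) := by positivity
    linarith

/-- the constant in the variational inequality -/
noncomputable def CA (z : Fin k → ℝ) (Rn : Fin k → E3) (N0 : ℝ) : ℝ :=
  2/3 * N0 + 2 * Real.pi * (∑ i, z i * ‖Rn i‖ ^ 2) + 1

section
variable {z : Fin k → ℝ} {Rn : Fin k → E3} {N0 : ℝ} {ρ : E3 → ℝ} {g : E3 → E3}

theorem lemA (hz : ∀ i, 0 < z i) (hA : Adm ρ g)
    (hmin : ∀ (σ : E3 → ℝ) (f : E3 → E3), Adm σ f → ∫ x, σ x ≤ N0 → EN z Rn ρ g ≤ EN z Rn σ f)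
    (hM : (∫ x, ρ x) + 1 ≤ N0) {r t : ℝ} (hr : 2 ≤ r) (ht : Good r t) :
    0 ≤ (∫ x, FF ρ g (sR r) (hR r) t x) + 1/3 * (∫ x : E3, sR r x ^ 6) + CA z Rn N0
      - ((∑ i, z i) - ∫ x, ρ x) * Ps r := by
  obtain ⟨ht0, ht1, ht2⟩ := ht
  have hr0 : 0 < r := by linarith
  have hW := sR_WG hr0
  have hw := w_NN hr0
  have h1 := var_ineq (s := sR r) (h := hR r) hA hmin hW hw ht0 (by
    have : t * ∫ x : E3, sR r x ^ 2 ≤ 1 := ht1
    linarith)
  have hAt := rt_adm (s := sR r) (h := hR r) hA hW hw ht0.le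
  have hmass : ∫ x, rt ρ (sR r) t x = (∫ x, ρ x) + t * Ws r := by
    unfold rt Ws
    rw [integral_add hA.int (hw.int.const_mul t), integral_const_mul]
  -- (a)
  have ha : ∫ x, rt ρ (sR r) t x ^ (2/3 : ℝ) * sR r x ^ 2 ≤ 2/3 * N0 + 1/3 * ∫ x : E3, sR r x ^ 6 := by
    have j1 : Integrable (fun x => 2/3 * rt ρ (sR r) t x) := hAt.int.const_mul _
    have j2 : Integrable (fun x : E3 => 1/3 * sR r x ^ 6) := (s6_int hr0).const_mul _
    have h2 : ∫ x, rt ρ (sR r) t x ^ (2/3 : ℝ) * sR r x ^ 2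
        ≤ ∫ x, (2/3 * rt ρ (sR r) t x + 1/3 * sR r x ^ 6) := by
      refine integral_mono (p_int hA hW hw ht0) (j1.add j2) fun x => ?_
      have := young23 (hAt.nonneg x) (sq_nonneg (sR r x))
      show _ ≤ 2/3 * rt ρ (sR r) t x + 1/3 * sR r x ^ 6
      have e : (sR r x ^ 2) ^ 3 = sR r x ^ 6 := by ring
      rw [e] at this
      exact this
    rw [integral_add j1 j2, integral_const_mul, integral_const_mul, hmass] at h2
    linarith
  -- (b)
  have hb : (∑ i, z i) * Ps r - 2 * Real.pi * (∑ i, z i * ‖Rn i‖ ^ 2) ≤ ∫ x, V z Rn x * sR r x ^ 2 := by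
    rw [(V_int z Rn hw).2, Finset.sum_mul, Finset.mul_sum, ← Finset.sum_sub_distrib]
    refine Finset.sum_le_sum fun i _ => ?_
    have h2 := pot_w_ge hr0 (Rn i)
    have h3 := mul_le_mul_of_nonneg_left h2 (hz i).le
    unfold Ps
    linarith
  -- (c)
  have hc : ∫ x, rt ρ (sR r) t x * pot (fun y : E3 => sR r y ^ 2) x ≤ (∫ x, ρ x) * Ps r + 1 := by
    have h2 : ∫ x, rt ρ (sR r) t x * pot (fun y : E3 => sR r y ^ 2) x ≤ ∫ x, rt ρ (sR r) t x * Ps r :=
      integral_mono (hAt.NN.pot_int hw) (hAt.int.mul_const _) fun x =>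
        mul_le_mul_of_nonneg_left (pot_w_le hr0 x) (hAt.nonneg x)
    rw [integral_mul_const, hmass, add_mul] at h2
    linarith
  unfold CA
  nlinarith

/-- crude bound of the kinetic part -/
lemma crude {c : ℝ} (hc0 : 0 ≤ c) (hc : ∀ R : ℝ, 2 ≤ R → ∀ x : E3,
    (∀ q : E3, 2 * sR R x * inner ℝ (hR R x) q - sR R x ^ 2 * ‖q‖ ^ 2 - inner ℝ q (XR R x)
      + 1/3 * sR R x ^ 6 ≤ fD 37 (7/5) c R ‖x‖) ∧
    ‖hR R x‖ ^ 2 + 1/3 * sR R x ^ 6 ≤ fD 37 (7/5) c R ‖x‖)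
    (hA : Adm ρ g) {r t : ℝ} (hr : 2 ≤ r) (ht : 0 < t) :
    (∫ x, FF ρ g (sR r) (hR r) t x) + 1/3 * (∫ x : E3, sR r x ^ 6)
      ≤ 4 * Real.pi * (9 * 37 + 7/5 * Real.log r + 9 * c) := by
  have hr0 : 0 < r := by linarith
  have hW := sR_WG hr0
  have hw := w_NN hr0
  obtain ⟨i1, v1⟩ := fD_int (a := 37) (b := 7/5) (c := c) hr
  have j1 := FF_int hA hW hw ht
  have j2 : Integrable (fun x : E3 => 1/3 * sR r x ^ 6) := (s6_int hr0).const_mul _
  rw [← v1, ← integral_const_mul, ← integral_add j1 j2]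
  refine integral_mono (j1.add j2) i1 fun x => ?_
  have h1 := (hc r hr x).2
  have h2 := free_quad (sR r x) (hR r x) (qt ρ g (sR r) (hR r) t x)
  show FF ρ g (sR r) (hR r) t x + 1/3 * sR r x ^ 6 ≤ _
  unfold FF
  linarith

/-- the mass is at least the total charge -/
theorem mass_ge (hz : ∀ i, 0 < z i) (hA : Adm ρ g)
    (hmin : ∀ (σ : E3 → ℝ) (f : E3 → E3), Adm σ f → ∫ x, σ x ≤ N0 → EN z Rn ρ g ≤ EN z Rn σ f)
    (hM : (∫ x, ρ x) + 1 ≤ N0) (hlt : ∫ x, ρ x < ∑ i, z i) : False := by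
  obtain ⟨c, hc0, hc⟩ := cost_pt
  set d : ℝ := (∑ i, z i) - ∫ x, ρ x with hd
  have hd0 : 0 < d := by rw [hd]; linarith
  have hpi := Real.pi_pos
  have key : ∀ r : ℝ, 2 ≤ r → d * r ≤ 4 * Real.pi * (9 * 37 + 7/5 * Real.log r + 9 * c) + CA z Rn N0 := by
    intro r hr
    obtain ⟨t0, ht0, hg⟩ := exists_good hr
    have h1 := lemA hz hA hmin hM hr (hg t0 ht0 le_rfl)
    have h2 := crude hc0 hc hA hr ht0
    have h3 := mul_le_mul_of_nonneg_left (pot_w0_ge hr) hd0.le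
    have h4 : d * r ≤ d * Ps r := h3
    rw [← hd] at h1
    linarith
  -- contradiction for large `r`
  set B : ℝ := 4 * Real.pi * (7/5) with hB
  have hB0 : 0 < B := by positivity
  set K : ℝ := 2 * B / d with hK
  have hK0 : 0 < K := by positivity
  have hlog : ∀ r : ℝ, 0 < r → B * Real.log r ≤ d / 2 * r + B * Real.log K := by
    intro r hr
    have h1 := Real.log_le_sub_one_of_pos (show 0 < r / K by positivity)
    rw [Real.log_div hr.ne' hK0.ne'] at h1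
    have h2 : Real.log r ≤ r / K + Real.log K := by linarith
    have h3 := mul_le_mul_of_nonneg_left h2 hB0.le
    have h4 : B * (r / K) = d / 2 * r := by
      rw [hK]; field_simp
    rw [mul_add, h4] at h3
    exact h3
  set E : ℝ := 4 * Real.pi * (9 * 37 + 9 * c) + CA z Rn N0 + B * Real.log K with hE
  have key2 : ∀ r : ℝ, 2 ≤ r → d / 2 * r ≤ E := by
    intro r hr
    have h1 := key r hr
    have h2 := hlog r (by linarith)
    have e : 4 * Real.pi * (9 * 37 + 7/5 * Real.log r + 9 * c) = 4 * Real.pi * (9 * 37 + 9 * c) + B * Real.log r := by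
      rw [hB]; ring
    rw [e] at h1
    rw [hE]; linarith
  have h1 := key2 (max 2 (2 * (E + 1) / d)) (le_max_left _ _)
  have h2 : 2 * (E + 1) / d ≤ max 2 (2 * (E + 1) / d) := le_max_right _ _
  have h3 := mul_le_mul_of_nonneg_left h2 (show 0 ≤ d / 2 by positivity)
  have h4 : d / 2 * (2 * (E + 1) / d) = E + 1 := by field_simp
  linarith

lemma half_quad (s : ℝ) (h q : E3) :
    2 * s * inner ℝ h q - s ^ 2 * ‖q‖ ^ 2 ≤ 2 * ‖h‖ ^ 2 - 1/2 * (s ^ 2 * ‖q‖ ^ 2) := by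
  have h1 : 0 ≤ ‖(2:ℝ) • h - s • q‖ ^ 2 := by positivity
  rw [norm_sub_sq_real, real_inner_smul_right, real_inner_smul_left, norm_smul, norm_smul, mul_pow,
    mul_pow, Real.norm_eq_abs, Real.norm_eq_abs, sq_abs, sq_abs] at h1
  linarith

/-- lower bound of the trial function -/
lemma sR_low {r m : ℝ} (hr : 0 < r) {x : E3} (hx : ‖x‖ ^ 2 ≤ 4 * r ^ 2) (hm : ‖x‖ ^ 2 ≤ m) :
    1 / (1 + m) ≤ sR r x ∧ 1 / (1 + m) ≤ sR r x ^ 2 := by
  obtain ⟨y, hy1, hy4, hya, -⟩ := y4 (sq_nonneg ‖x‖)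
  have h1 := (sR_inner hr hx).1
  rw [hya] at h1
  have hy0 : 0 < y := by linarith
  have h2 : 1 / (1 + m) ≤ (y ^ 4)⁻¹ := by
    rw [one_div]
    exact inv_anti₀ (by positivity) (by linarith)
  have h3 : (y ^ 4)⁻¹ ≤ y⁻¹ := inv_anti₀ hy0 (by
    have := pow_le_pow_right₀ hy1 (show 1 ≤ 4 by norm_num)
    simpa using this)
  have h4 : (y ^ 4)⁻¹ ≤ (y⁻¹) ^ 2 := by
    rw [inv_pow]
    exact inv_anti₀ (by positivity) (pow_le_pow_right₀ hy1 (by norm_num))
  rw [h1]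
  exact ⟨h2.trans h3, h2.trans h4⟩

lemma inv_smul_gt (hA : Adm ρ g) {s : E3 → ℝ} {h : E3 → E3} {t : ℝ} (ht : 0 ≤ t) (x : E3) :
    (√(rt ρ s t x))⁻¹ • gt ρ g s h t x = qt ρ g s h t x := by
  have hW := rt_nonneg (s := s) hA.nonneg ht x
  unfold gt
  rcases eq_or_lt_of_le hW with h0 | h0
  · have : qt ρ g s h t x = 0 := by
      unfold qt
      rw [← h0]; simp
    rw [this]; simp
  · rw [smul_smul, inv_mul_cancel₀ (Real.sqrt_pos.2 h0).ne', one_smul]

/-- uniform lower bound of the inner logarithmic average -/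
theorem inner_lower (hz : ∀ i, 0 < z i) (hA : Adm ρ g)
    (hmin : ∀ (σ : E3 → ℝ) (f : E3 → E3), Adm σ f → ∫ x, σ x ≤ N0 → EN z Rn ρ g ≤ EN z Rn σ f)
    (hM : (∫ x, ρ x) + 1 ≤ N0) (hMZ : ∫ x, ρ x ≤ ∑ i, z i) {L : ℝ} (hL : 2 ≤ L) {A : Set E3}
    (hAm : MeasurableSet A) (hAL : A ⊆ ball (0:E3) L) (hA0 : 0 < (volume A).toReal) {δ : ℝ}
    (hδ : 0 < δ) (hAδ : ∀ᵐ x ∂(volume.restrict A), δ ≤ ρ x) :
    ∃ B : ℝ, ∀ t, Good L t → B ≤ ∫ x, Real.log (√(rt ρ (sR L) t x)) * b1 x := by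
  obtain ⟨C1, hC0, hC1⟩ := S'_bdd
  have hL0 : 0 < L := by linarith
  have hW := sR_WG hL0
  have hw := w_NN hL0
  set CL : ℝ := 1/3 * (∫ x : E3, sR L x ^ 6) + CA z Rn N0 with hCL
  set D : ℝ := 2 * (2 * (∫ x : E3, ‖hR L x‖ ^ 2) + CL) with hD
  set Θ : ℝ := (volume (ball (0:E3) L)).toReal + (1 + L ^ 2) * D with hΘ
  refine ⟨((∫ x, b1 x) * ((volume A).toReal * (1/2 * Real.log δ)) - 2 * C1 * (PC L * Θ))
    / (volume A).toReal, fun t ht => ?_⟩
  have ht0 := ht.1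
  -- the gradient bound
  have hlem := lemA hz hA hmin hM hL ht
  have hP : 0 ≤ Ps L := le_trans (by linarith) (pot_w0_ge hL)
  have hFF := FF_int hA hW hw ht0
  have hsq := sq_q_int hA hW hw ht0
  have hh2 := isq hW.g2
  have hD1 : ∫ x, sR L x ^ 2 * ‖qt ρ g (sR L) (hR L) t x‖ ^ 2 ≤ D := by
    have j1 : Integrable (fun x : E3 => 2 * ‖hR L x‖ ^ 2) := hh2.const_mul _
    have j2 : Integrable (fun x => 1/2 * (sR L x ^ 2 * ‖qt ρ g (sR L) (hR L) t x‖ ^ 2)) := hsq.const_mul _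
    have h1 : ∫ x, FF ρ g (sR L) (hR L) t x
        ≤ ∫ x, (2 * ‖hR L x‖ ^ 2 - 1/2 * (sR L x ^ 2 * ‖qt ρ g (sR L) (hR L) t x‖ ^ 2)) :=
      integral_mono hFF (j1.sub j2) fun x => half_quad _ _ _
    rw [integral_sub j1 j2, integral_const_mul, integral_const_mul] at h1
    have h2 : 0 ≤ ((∑ i, z i) - ∫ x, ρ x) * Ps L := mul_nonneg (by linarith) hP
    rw [hD, hCL]
    linarith
  have hD0 : 0 ≤ D := (integral_nonneg fun x => by positivity).trans hD1
  have hpt : ∀ x ∈ ball (0:E3) L, ‖qt ρ g (sR L) (hR L) t x‖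
      ≤ 1 + (1 + L ^ 2) * (sR L x ^ 2 * ‖qt ρ g (sR L) (hR L) t x‖ ^ 2) := by
    intro x hx
    rw [mem_ball_zero_iff] at hx
    have hx2 : ‖x‖ ^ 2 ≤ L ^ 2 := by nlinarith [norm_nonneg x]
    have h1 := (sR_low hL0 (x := x) (m := L ^ 2) (by nlinarith) hx2).2
    rw [div_le_iff₀ (by positivity)] at h1
    set n := ‖qt ρ g (sR L) (hR L) t x‖ with hn
    have hn0 : 0 ≤ n := norm_nonneg _
    have h2 := mul_le_mul_of_nonneg_right h1 (sq_nonneg n)
    nlinarith [sq_nonneg (n - 1)]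
  have hqm : AEStronglyMeasurable (qt ρ g (sR L) (hR L) t) volume := qt_meas hA hW
  have hci : IntegrableOn (fun _ : E3 => (1:ℝ)) (ball (0:E3) L) := integrableOn_const measure_ball_lt_top.ne
  have hbi : IntegrableOn (fun x => 1 + (1 + L ^ 2) * (sR L x ^ 2 * ‖qt ρ g (sR L) (hR L) t x‖ ^ 2))
      (ball (0:E3) L) := hci.add (hsq.const_mul _).integrableOn
  have hqi : IntegrableOn (fun x => ‖qt ρ g (sR L) (hR L) t x‖) (ball (0:E3) L) := by
    refine hbi.mono' hqm.norm.restrict ?_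
    filter_upwards [ae_restrict_mem measurableSet_ball] with x hx
    rw [norm_norm]
    exact hpt x hx
  have hqΘ : ∫ x in ball (0:E3) L, ‖qt ρ g (sR L) (hR L) t x‖ ≤ Θ := by
    have h1 : ∫ x in ball (0:E3) L, ‖qt ρ g (sR L) (hR L) t x‖ ≤ ∫ x in ball (0:E3) L,
        (1 + (1 + L ^ 2) * (sR L x ^ 2 * ‖qt ρ g (sR L) (hR L) t x‖ ^ 2)) :=
      setIntegral_mono_on hqi hbi measurableSet_ball hpt
    have h2 : ∫ x in ball (0:E3) L, (sR L x ^ 2 * ‖qt ρ g (sR L) (hR L) t x‖ ^ 2)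
        ≤ ∫ x, sR L x ^ 2 * ‖qt ρ g (sR L) (hR L) t x‖ ^ 2 :=
      setIntegral_le_integral hsq (ae_of_all _ fun x => by positivity)
    rw [integral_add hci (hsq.const_mul _).integrableOn, integral_const_mul, setIntegral_const,
      smul_eq_mul, mul_one] at h1
    refine h1.trans ?_
    rw [hΘ]
    have h3 := mul_le_mul_of_nonneg_left (h2.trans hD1) (show 0 ≤ 1 + L ^ 2 by positivity)
    have e : (volume : Measure E3).real (ball (0:E3) L) = (volume (ball (0:E3) L)).toReal := rfl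
    rw [e]
    linarith
  -- apply the logarithmic bound
  have hAt := rt_adm (s := sR L) (h := hR L) hA hW hw ht0.le
  have hfun : ∀ x, ‖(√(rt ρ (sR L) t x))⁻¹ • gt ρ g (sR L) (hR L) t x‖
      = ‖qt ρ g (sR L) (hR L) t x‖ := fun x => by rw [inv_smul_gt hA ht0.le]
  have hfinal := log_lower hC1 hC0 hAt.WG hL hAm hAL hδ (c := √t * (1/5)) (Θ := Θ) (by
      filter_upwards [hAδ] with x hx
      rw [Real.sq_sqrt (hAt.nonneg x)]
      unfold rt
      have := mul_nonneg ht0.le (sq_nonneg (sR L x))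
      linarith) (by positivity) (by
      intro x hx
      rw [mem_ball_zero_iff] at hx
      have hx2 : ‖x‖ ^ 2 ≤ 4 := by nlinarith [norm_nonneg x]
      have h1 := (sR_low hL0 (x := x) (m := 4) (by nlinarith) hx2).1
      have h2 : √t * (1/5) ≤ √t * sR L x := mul_le_mul_of_nonneg_left (by norm_num at h1 ⊢; linarith) (Real.sqrt_nonneg _)
      refine h2.trans (Real.le_sqrt_of_sq_le ?_)
      unfold rt
      rw [mul_pow, Real.sq_sqrt ht0.le]
      have := hA.nonneg x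
      linarith) (by simpa only [hfun] using hqi) (by simpa only [hfun] using hqΘ)
  rw [div_le_iff₀ hA0, mul_comm (∫ x, Real.log (√(rt ρ (sR L) t x)) * b1 x)]
  exact hfinal

end

end Pool.Agent.N288.TFW
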