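import Pool.Agent.N288.TFW.Main1

/-!
# Negative ions for Thomas-Fermi-von Weizsäcker molecules
-/

set_option autoImplicit false

open MeasureTheory Filter Topology Set Metric
open scoped ENNReal NNReal Convolution ContDiff

namespace Pool.Agent.N288.TFW

open Pool.Agent.TH791.Cl (pot)

variable {k : ℕ}

/-- a nonzero density is bounded below on a set of positive measure -/
lemma pos_set {ρ : E3 → ℝ} (h0 : ∀ x, 0 ≤ ρ x) (hi : Integrable ρ) (hpos : 0 < ∫ x, ρ x) :
    ∃ (L δ : ℝ) (A : Set E3), 2 ≤ L ∧ 0 < δ ∧ MeasurableSet A ∧ A ⊆ ball (0:E3) L ∧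
      0 < (volume A).toReal ∧ ∀ᵐ x ∂(volume.restrict A), δ ≤ ρ x := by
  obtain ⟨ρ', hm, he⟩ : ∃ f : E3 → ℝ, Measurable f ∧ ρ =ᵐ[volume] f :=
    ⟨hi.aestronglyMeasurable.mk ρ, hi.aestronglyMeasurable.stronglyMeasurable_mk.measurable,
      hi.aestronglyMeasurable.ae_eq_mk⟩
  by_contra hcon
  push Not at hcon
  have hz : ∀ n : ℕ, volume {x : E3 | 1 / ((n:ℝ) + 1) ≤ ρ' x ∧ x ∈ ball (0:E3) (n + 2)} = 0 := by
    intro n
    set A : Set E3 := {x : E3 | 1 / ((n:ℝ) + 1) ≤ ρ' x ∧ x ∈ ball (0:E3) (n + 2)} with hA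
    have hAm : MeasurableSet A := (measurableSet_le measurable_const hm).inter measurableSet_ball
    have hAL : A ⊆ ball (0:E3) (n + 2) := fun x hx => hx.2
    by_contra hne
    have hfin : volume A ≠ ⊤ := ((measure_mono hAL).trans_lt measure_ball_lt_top).ne
    have hp : 0 < (volume A).toReal := ENNReal.toReal_pos hne hfin
    have hn : (0:ℝ) ≤ n := Nat.cast_nonneg n
    apply hcon (n + 2) (1 / ((n:ℝ) + 1)) A (by linarith) (by positivity) hAm hAL hp
    have h1 : ∀ᵐ x ∂(volume.restrict A), ρ x = ρ' x := ae_restrict_of_ae he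
    filter_upwards [h1, ae_restrict_mem hAm] with x hx hxA
    rw [hx]; exact not_lt.2 hxA.1
  have hz2 : ∀ᵐ x : E3, ρ x = 0 := by
    have h1 : ∀ᵐ x : E3, ∀ n : ℕ, ¬ (1 / ((n:ℝ) + 1) ≤ ρ' x ∧ x ∈ ball (0:E3) (n + 2)) := by
      rw [ae_all_iff]
      intro n
      exact measure_eq_zero_iff_ae_notMem.1 (hz n)
    filter_upwards [h1, he] with x hx hxe
    by_contra hne
    have hpos' : 0 < ρ' x := by
      rw [← hxe]
      exact lt_of_le_of_ne (h0 x) (Ne.symm hne)
    obtain ⟨n1, hn1⟩ := exists_nat_one_div_lt hpos'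
    obtain ⟨n2, hn2⟩ := exists_nat_gt ‖x‖
    apply hx (max n1 n2)
    constructor
    · refine le_trans ?_ hn1.le
      apply one_div_le_one_div_of_le (by positivity)
      have : (n1:ℝ) ≤ ((max n1 n2 : ℕ) : ℝ) := by exact_mod_cast le_max_left _ _
      linarith
    · rw [mem_ball_zero_iff]
      have : (n2:ℝ) ≤ ((max n1 n2 : ℕ) : ℝ) := by exact_mod_cast le_max_right _ _
      linarith
  have : ∫ x, ρ x = 0 := by
    rw [integral_congr_ae hz2]; simp
  linarith

section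
variable {z : Fin k → ℝ} {Rn : Fin k → E3} {N0 : ℝ} {ρ : E3 → ℝ} {g : E3 → E3}

/-- the fine estimate: the mass exceeds the total charge -/
theorem mass_gt (hz : ∀ i, 0 < z i) (hZ : 0 < ∑ i, z i) (hA : Adm ρ g)
    (hmin : ∀ (σ : E3 → ℝ) (f : E3 → E3), Adm σ f → ∫ x, σ x ≤ N0 → EN z Rn ρ g ≤ EN z Rn σ f)
    (hM : (∫ x, ρ x) + 1 ≤ N0) : ∑ i, z i < ∫ x, ρ x := by
  by_contra hcon
  push Not at hcon
  have hge : ¬ (∫ x, ρ x < ∑ i, z i) := fun h => mass_ge hz hA hmin hM h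
  push Not at hge
  have hpos : 0 < ∫ x, ρ x := lt_of_lt_of_le hZ hge
  obtain ⟨L, δ, A, hL, hδ, hAm, hAL, hA0, hAδ⟩ := pos_set hA.nonneg hA.int hpos
  obtain ⟨B, hB⟩ := inner_lower hz hA hmin hM hcon hL hAm hAL hA0 hδ hAδ
  obtain ⟨c, hc0, hc⟩ := cost_pt
  obtain ⟨C1, hC0, hC1⟩ := S'_bdd
  have hpi := Real.pi_pos
  have hL0 : 0 < L := by linarith
  have key : ∀ r : ℝ, L ≤ r → 2/5 * Real.pi * Real.log r
      ≤ -B + C1 * N0 + 4 * Real.pi * (9 * 37 + 9 * c) + CA z Rn N0 := by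
    intro r hLr
    have hr : 2 ≤ r := hL.trans hLr
    have hr0 : 0 < r := by linarith
    obtain ⟨t1, ht1, hg1⟩ := exists_good hr
    obtain ⟨t2, ht2, hg2⟩ := exists_good hL
    set t : ℝ := min t1 t2 with ht
    have ht0 : 0 < t := lt_min ht1 ht2
    have hGr : Good r t := hg1 t ht0 (min_le_left _ _)
    have hGL : Good L t := hg2 t ht0 (min_le_right _ _)
    have hW := sR_WG hr0
    have hw := w_NN hr0
    have hAt := rt_adm (s := sR r) (h := hR r) hA hW hw ht0.le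
    have hlem := lemA hz hA hmin hM hr hGr
    have hP : 0 ≤ Ps r := le_trans (by linarith) (pot_w0_ge hr)
    have hdrop : 0 ≤ ((∑ i, z i) - ∫ x, ρ x) * Ps r := mul_nonneg (by linarith) hP
    -- positivity of the varied density
    have hlow : ∀ x : E3, ‖x‖ ^ 2 ≤ 2 * r ^ 2 → √t * (1 / (1 + 2 * r ^ 2)) ≤ √(rt ρ (sR r) t x) := by
      intro x hx
      have h1 := (sR_low hr0 (x := x) (m := 2 * r ^ 2) (by nlinarith) hx).1
      have h2 := mul_le_mul_of_nonneg_left h1 (Real.sqrt_nonneg t)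
      refine h2.trans (Real.le_sqrt_of_sq_le ?_)
      unfold rt
      rw [mul_pow, Real.sq_sqrt ht0.le]
      have := hA.nonneg x
      linarith
    obtain ⟨f1, f2, f3⟩ := flux hAt.WG (c := √t * (1 / (1 + 2 * r ^ 2))) (by positivity) hr hlow
    obtain ⟨g1, g2, g3⟩ := split_int hr f2
    have hfun : ∀ x, inner ℝ ((√(rt ρ (sR r) t x))⁻¹ • gt ρ g (sR r) (hR r) t x) (XR r x)
        = inner ℝ (qt ρ g (sR r) (hR r) t x) (XR r x) := fun x => by rw [inv_smul_gt hA ht0.le]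
    simp only [hfun] at f1 f3
    -- the pointwise bound
    obtain ⟨i1, v1⟩ := fD_int (a := 37) (b := 7/5) (c := c) hr
    have j1 := FF_int hA hW hw ht0
    have j2 : Integrable (fun x : E3 => 1/3 * sR r x ^ 6) := (s6_int hr0).const_mul _
    have hI : (∫ x, FF ρ g (sR r) (hR r) t x) + 1/3 * (∫ x : E3, sR r x ^ 6)
        ≤ (∫ x, inner ℝ (qt ρ g (sR r) (hR r) t x) (XR r x))
          + 4 * Real.pi * (9 * 37 + 7/5 * Real.log r + 9 * c) := by
      rw [← v1, ← integral_const_mul, ← integral_add j1 j2, ← integral_add f1 i1]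
      refine integral_mono (j1.add j2) (f1.add i1) fun x => ?_
      have h1 := (hc r hr x).1 (qt ρ g (sR r) (hR r) t x)
      show FF ρ g (sR r) (hR r) t x + 1/3 * sR r x ^ 6
        ≤ inner ℝ (qt ρ g (sR r) (hR r) t x) (XR r x) + fD 37 (7/5) c r ‖x‖
      unfold FF
      linarith
    -- the inner average
    have hin : B ≤ ∫ x, Real.log (√(rt ρ (sR r) t x)) * b1 x := by
      refine (hB t hGL).trans (le_of_eq ?_)
      refine integral_congr_ae (ae_of_all _ fun x => ?_)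
      show Real.log (√(rt ρ (sR L) t x)) * b1 x = Real.log (√(rt ρ (sR r) t x)) * b1 x
      by_cases hx : x ∈ ball (0:E3) 2
      · rw [mem_ball_zero_iff] at hx
        have hx2 : ‖x‖ ^ 2 ≤ 4 := by nlinarith [norm_nonneg x]
        have e1 := (sR_inner hL0 (x := x) (by nlinarith)).1
        have e2 := (sR_inner hr0 (x := x) (by nlinarith)).1
        unfold rt
        rw [e1, e2]
      · rw [b1_out' hx, mul_zero, mul_zero]
    -- the outer average
    have hpos' : ∀ x : E3, ‖x‖ ^ 2 ≤ 2 * r ^ 2 → 0 < rt ρ (sR r) t x := by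
      intro x hx
      have h1 := hlow x hx
      have h2 : 0 < √t * (1 / (1 + 2 * r ^ 2)) := by positivity
      exact Real.sqrt_pos.1 (lt_of_lt_of_le h2 h1)
    have hout := log_upper hC1 hC0 hr hAt.nonneg hpos' hAt.int g2
    have hmass : ∫ x, rt ρ (sR r) t x ≤ N0 := by
      have e : ∫ x, rt ρ (sR r) t x = (∫ x, ρ x) + t * Ws r := by
        unfold rt Ws
        rw [integral_add hA.int (hw.int.const_mul t), integral_const_mul]
      rw [e]
      have := hGr.2.1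
      linarith
    have hm2 := mul_le_mul_of_nonneg_left hmass hC0
    rw [f3, g3] at hI
    have e4 : 4 * Real.pi * (9 * 37 + 7/5 * Real.log r + 9 * c)
        = 4 * Real.pi * (9 * 37 + 9 * c) + 28/5 * Real.pi * Real.log r := by ring
    rw [e4] at hI
    linarith
  -- contradiction
  set E : ℝ := -B + C1 * N0 + 4 * Real.pi * (9 * 37 + 9 * c) + CA z Rn N0 with hE
  have h1 := key (max L (Real.exp ((E + 1) / (2/5 * Real.pi)))) (le_max_left _ _)
  have h2 : Real.exp ((E + 1) / (2/5 * Real.pi)) ≤ max L (Real.exp ((E + 1) / (2/5 * Real.pi))) :=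
    le_max_right _ _
  have h3 := Real.log_le_log (Real.exp_pos _) h2
  rw [Real.log_exp] at h3
  have h4 := mul_le_mul_of_nonneg_left h3 (show 0 ≤ 2/5 * Real.pi by positivity)
  have h5 : 2/5 * Real.pi * ((E + 1) / (2/5 * Real.pi)) = E + 1 := by field_simp
  linarith

end

/-- every TFW molecule binds more electrons than its total charge -/
theorem main (hk : 0 < k) (z : Fin k → ℝ) (hz : ∀ i, 0 < z i) (Rn : Fin k → E3) :
    ∃ N : ℝ, (∑ i, z i) < N ∧ ∃ (ρ : E3 → ℝ) (g : E3 → E3), Adm ρ g ∧ ∫ x, ρ x = N ∧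
      ∀ (σ : E3 → ℝ) (h : E3 → E3), Adm σ h → ∫ x, σ x = N → EN z Rn ρ g ≤ EN z Rn σ h := by
  have hZ : 0 < ∑ i, z i := Finset.sum_pos (fun i _ => hz i) ⟨⟨0, hk⟩, Finset.mem_univ _⟩
  obtain ⟨ρ, g, hA, hN, hmin⟩ := exists_relaxed hz Rn (N0 := (∑ i, z i) + 1) (by linarith)
  refine ⟨∫ x, ρ x, ?_, ρ, g, hA, rfl, fun σ h hσ hNσ => hmin σ h hσ (by rw [hNσ]; exact hN)⟩
  by_contra hcon
  push Not at hcon
  have h1 := mass_gt hz hZ hA hmin (by linarith)
  linarith

end Pool.Agent.N288.TFW
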