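import Pool.Agent.N288.TFW.Att

/-!
# Midpoint convexity of the energy
-/

set_option autoImplicit false

open MeasureTheory Filter Topology Set Metric
open scoped ENNReal NNReal Convolution ContDiff

namespace Pool.Agent.N288.TFW

open Pool.Agent.TH791.Cl (Nice pot)

lemma third_cube {s : ℝ} (hs : 0 ≤ s) : (s ^ (1/3 : ℝ)) ^ 3 = s ∧ (s ^ (1/3 : ℝ)) ^ 2 = s ^ (2/3 : ℝ) := by
  constructor
  · rw [← Real.rpow_natCast, ← Real.rpow_mul hs]; norm_num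
  · rw [← Real.rpow_natCast, ← Real.rpow_mul hs]; norm_num

lemma sc_mono {s t : ℝ} (hs : 0 ≤ s) (hst : s ≤ t) (ht : t ≤ 1) : 2/3 * (t - s) ≤ t ^ (2/3 : ℝ) - s ^ (2/3 : ℝ) := by
  have ht0 := hs.trans hst
  obtain ⟨a1, a2⟩ := third_cube hs
  obtain ⟨b1, b2⟩ := third_cube ht0
  have h1 : s ^ (1/3 : ℝ) ≤ t ^ (1/3 : ℝ) := Real.rpow_le_rpow hs hst (by norm_num)
  have h2 : t ^ (1/3 : ℝ) ≤ 1 := Real.rpow_le_one ht0 ht (by norm_num)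
  have h0 : 0 ≤ s ^ (1/3 : ℝ) := Real.rpow_nonneg hs _
  rw [← a2, ← b2]
  nth_rewrite 1 [← a1]
  nth_rewrite 1 [← b1]
  set x := s ^ (1/3 : ℝ)
  set y := t ^ (1/3 : ℝ)
  have e : y ^ 2 - x ^ 2 - 2/3 * (y ^ 3 - x ^ 3) = (y - x) * ((y + x) - 2/3 * (y ^ 2 + x * y + x ^ 2)) := by ring
  have h3 : 0 ≤ (y + x) - 2/3 * (y ^ 2 + x * y + x ^ 2) := by nlinarith [mul_nonneg h0 (sub_nonneg.2 h2), mul_nonneg (h0.trans h1) (sub_nonneg.2 h2), mul_nonneg h0 (sub_nonneg.2 (h1.trans h2))]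
  nlinarith [mul_nonneg (sub_nonneg.2 h1) h3]

lemma sc_convex : ConvexOn ℝ (Icc (0:ℝ) 1) (fun s : ℝ => 3/5 * s ^ (5/3 : ℝ) - 1/3 * s ^ 2) := by
  have hd : ∀ s : ℝ, HasDerivAt (fun s : ℝ => 3/5 * s ^ (5/3 : ℝ) - 1/3 * s ^ 2) (s ^ (2/3 : ℝ) - 2/3 * s) s := by
    intro s
    have h1 := (Real.hasDerivAt_rpow_const (x := s) (p := (5/3 : ℝ)) (Or.inr (by norm_num))).const_mul (3/5 : ℝ)
    have h2 := (hasDerivAt_pow 2 s).const_mul (1/3 : ℝ)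
    have h3 := h1.sub h2
    have e : 3/5 * (5/3 * s ^ (5/3 - 1 : ℝ)) - 1/3 * ((2:ℕ) * s ^ (2 - 1)) = s ^ (2/3 : ℝ) - 2/3 * s := by
      have : (5/3 - 1 : ℝ) = 2/3 := by norm_num
      rw [this]; push_cast; ring
    rw [e] at h3
    exact h3
  refine MonotoneOn.convexOn_of_deriv (convex_Icc 0 1) ?_ ?_ ?_
  · exact fun s _ => (hd s).continuousAt.continuousWithinAt
  · exact fun s _ => (hd s).differentiableAt.differentiableWithinAt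
  · rw [interior_Icc]
    intro s hs t ht hst
    rw [(hd s).deriv, (hd t).deriv]
    have := sc_mono hs.1.le hst ht.2.le
    linarith

lemma sc1 {a b r : ℝ} (ha : 0 ≤ a) (hb : 0 ≤ b) (har : a ≤ r) (hbr : b ≤ r) :
    3/5 * ((a + b) / 2) ^ (5/3 : ℝ) ≤ 1/2 * (3/5 * a ^ (5/3 : ℝ)) + 1/2 * (3/5 * b ^ (5/3 : ℝ))
      - 1/12 * ((a - b) ^ 2 / r ^ (1/3 : ℝ)) := by
  rcases eq_or_lt_of_le (ha.trans har) with hr | hr
  · have h1 : a = 0 := le_antisymm (har.trans hr.symm.le) ha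
    have h2 : b = 0 := le_antisymm (hbr.trans hr.symm.le) hb
    rw [h1, h2]
    norm_num
  · set s := a / r with hs
    set t := b / r with ht
    have ea : a = r * s := by rw [hs]; field_simp
    have eb : b = r * t := by rw [ht]; field_simp
    have hs0 : 0 ≤ s := div_nonneg ha hr.le
    have ht0 : 0 ≤ t := div_nonneg hb hr.le
    have hs1 : s ≤ 1 := by rw [hs, div_le_one hr]; exact har
    have ht1 : t ≤ 1 := by rw [ht, div_le_one hr]; exact hbr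
    have key := sc_convex.2 ⟨hs0, hs1⟩ ⟨ht0, ht1⟩ (by norm_num : (0:ℝ) ≤ 1/2) (by norm_num : (0:ℝ) ≤ 1/2) (by norm_num)
    simp only [smul_eq_mul] at key
    have e1 : (1/2 * s + 1/2 * t) = (s + t) / 2 := by ring
    rw [e1] at key
    have key2 : 3/5 * ((s + t) / 2) ^ (5/3 : ℝ) ≤ 1/2 * (3/5 * s ^ (5/3 : ℝ)) + 1/2 * (3/5 * t ^ (5/3 : ℝ))
      - 1/12 * (s - t) ^ 2 := by nlinarith
    have hm : ((a + b) / 2) = r * ((s + t) / 2) := by rw [ea, eb]; ring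
    rw [hm, ea, eb, Real.mul_rpow hr.le (by positivity), Real.mul_rpow hr.le hs0, Real.mul_rpow hr.le ht0]
    have e2 : (r * s - r * t) ^ 2 / r ^ (1/3 : ℝ) = r ^ (5/3 : ℝ) * (s - t) ^ 2 := by
      have h3 : r ^ 2 = r ^ (5/3 : ℝ) * r ^ (1/3 : ℝ) := by
        rw [← Real.rpow_add hr, ← Real.rpow_natCast]; norm_num
      have h4 : r ^ (1/3 : ℝ) ≠ 0 := (Real.rpow_pos_of_pos hr _).ne'
      have h5 : (r * s - r * t) ^ 2 = r ^ 2 * (s - t) ^ 2 := by ring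
      rw [h5, h3]
      field_simp
    rw [e2]
    have h6 : 0 ≤ r ^ (5/3 : ℝ) := Real.rpow_nonneg hr.le _
    nlinarith [mul_le_mul_of_nonneg_left key2 h6]

/-- comparison of the two gaps -/
lemma gap_cmp {a b : ℝ} (hb : 0 ≤ b) (hba : b ≤ a) :
    (a ^ (5/6 : ℝ) - b ^ (5/6 : ℝ)) ^ 2 ≤ (a - b) ^ 2 / a ^ (1/3 : ℝ) := by
  rcases eq_or_lt_of_le (hb.trans hba) with h | h
  · have : b = 0 := le_antisymm (hba.trans h.symm.le) hb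
    rw [← h, this]; norm_num
  · have ha := h.le
    have x1 : a = (a ^ (1/6 : ℝ)) ^ 6 := by rw [← Real.rpow_natCast, ← Real.rpow_mul ha]; norm_num
    have x2 : b = (b ^ (1/6 : ℝ)) ^ 6 := by rw [← Real.rpow_natCast, ← Real.rpow_mul hb]; norm_num
    have x3 : a ^ (5/6 : ℝ) = (a ^ (1/6 : ℝ)) ^ 5 := by rw [← Real.rpow_natCast, ← Real.rpow_mul ha]; norm_num
    have x4 : b ^ (5/6 : ℝ) = (b ^ (1/6 : ℝ)) ^ 5 := by rw [← Real.rpow_natCast, ← Real.rpow_mul hb]; norm_num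
    have x5 : a ^ (1/3 : ℝ) = (a ^ (1/6 : ℝ)) ^ 2 := by rw [← Real.rpow_natCast, ← Real.rpow_mul ha]; norm_num
    have h0 : 0 ≤ b ^ (1/6 : ℝ) := Real.rpow_nonneg hb _
    have h1 : b ^ (1/6 : ℝ) ≤ a ^ (1/6 : ℝ) := Real.rpow_le_rpow hb hba (by norm_num)
    have h2 : 0 < a ^ (1/6 : ℝ) := Real.rpow_pos_of_pos h _
    have e0 : (a - b) ^ 2 = ((a ^ (1/6 : ℝ)) ^ 6 - (b ^ (1/6 : ℝ)) ^ 6) ^ 2 := by rw [← x1, ← x2]
    rw [le_div_iff₀ (Real.rpow_pos_of_pos h _), x3, x4, x5, e0]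
    set x := a ^ (1/6 : ℝ)
    set y := b ^ (1/6 : ℝ)
    have h3 : 0 ≤ x * (x ^ 5 - y ^ 5) := by
      have : y ^ 5 ≤ x ^ 5 := pow_le_pow_left₀ h0 h1 5
      exact mul_nonneg h2.le (by linarith)
    have h4 : x * (x ^ 5 - y ^ 5) ≤ x ^ 6 - y ^ 6 := by
      have : y ^ 6 ≤ x * y ^ 5 := by
        have := mul_le_mul_of_nonneg_right h1 (pow_nonneg h0 5)
        calc y ^ 6 = y * y ^ 5 := by ring
          _ ≤ _ := this
      nlinarith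
    have h5 := pow_le_pow_left₀ h3 h4 2
    calc (x ^ 5 - y ^ 5) ^ 2 * x ^ 2 = (x * (x ^ 5 - y ^ 5)) ^ 2 := by ring
      _ ≤ _ := h5

lemma gap_pt {a b : ℝ} (ha : 0 ≤ a) (hb : 0 ≤ b) :
    3/5 * ((a + b) / 2) ^ (5/3 : ℝ) ≤ 1/2 * (3/5 * a ^ (5/3 : ℝ)) + 1/2 * (3/5 * b ^ (5/3 : ℝ))
      - 1/12 * (a ^ (5/6 : ℝ) - b ^ (5/6 : ℝ)) ^ 2 := by
  rcases le_total b a with h | h
  · have := sc1 ha hb le_rfl h
    have := gap_cmp hb h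
    linarith
  · have h1 := sc1 ha hb h le_rfl
    have h2 := gap_cmp ha h
    have e1 : (a ^ (5/6 : ℝ) - b ^ (5/6 : ℝ)) ^ 2 = (b ^ (5/6 : ℝ) - a ^ (5/6 : ℝ)) ^ 2 := by ring
    have e2 : (a - b) ^ 2 = (b - a) ^ 2 := by ring
    rw [e2] at h1
    rw [e1]
    linarith

lemma WG.smul {u : E3 → ℝ} {g : E3 → E3} (h : WG u g) (c : ℝ) :
    WG (fun x => c * u x) (fun x => c • g x) := by
  refine ⟨h.u2.const_mul c, h.g2.const_smul c, fun φ hφ hφc v => ?_⟩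
  have h1 := h.weak φ hφ hφc v
  have e1 : ∫ x, c * u x * fderiv ℝ φ x v = c * ∫ x, u x * fderiv ℝ φ x v := by
    rw [← integral_const_mul]
    refine integral_congr_ae (ae_of_all _ fun x => ?_)
    show c * u x * fderiv ℝ φ x v = c * (u x * fderiv ℝ φ x v)
    ring
  have e2 : ∫ x, inner ℝ (c • g x) v * φ x = c * ∫ x, inner ℝ (g x) v * φ x := by
    rw [← integral_const_mul]
    refine integral_congr_ae (ae_of_all _ fun x => ?_)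
    show inner ℝ (c • g x) v * φ x = c * (inner ℝ (g x) v * φ x)
    rw [real_inner_smul_left]; ring
  rw [e1, e2, h1]; ring

lemma adm_of_sum {u1 u2 : E3 → ℝ} {g1 g2 : E3 → E3} (h1 : WG u1 g1) (h2 : WG u2 g2)
    {ρ : E3 → ℝ} (hρ : ∀ x, ρ x = u1 x ^ 2 + u2 x ^ 2)
    (h53 : Integrable (fun x => ρ x ^ (5/3 : ℝ))) :
    Adm ρ (fun x => sg (u1 x) (u2 x) (g1 x) (g2 x)) := by
  have e : (fun x => √(ρ x)) = fun x => √(u1 x ^ 2 + u2 x ^ 2) := by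
    funext x; rw [hρ]
  have hW := WG.sqrt_sum h1 h2
  refine ⟨fun x => by rw [hρ]; positivity, ?_, h53, hW.g2, fun φ hφ hφc v => ?_⟩
  · have : ρ = fun x => u1 x ^ 2 + u2 x ^ 2 := funext hρ
    rw [this]
    exact (isq' h1.u2).add (isq' h2.u2)
  · have := hW.weak φ hφ hφc v
    simp only [hρ]
    exact this

lemma Adm.mid {ρ1 ρ2 : E3 → ℝ} {g1 g2 : E3 → E3} (h1 : Adm ρ1 g1) (h2 : Adm ρ2 g2) :
    ∃ gm, Adm (fun x => (ρ1 x + ρ2 x) / 2) gm ∧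
      ∫ x, ‖gm x‖ ^ 2 ≤ 1/2 * (∫ x, ‖g1 x‖ ^ 2) + 1/2 * ∫ x, ‖g2 x‖ ^ 2 := by
  set c : ℝ := √(1/2) with hc
  have hc2 : c ^ 2 = 1/2 := Real.sq_sqrt (by norm_num)
  have w1 := h1.WG.smul c
  have w2 := h2.WG.smul c
  have hN : TFW.NN (fun x => (ρ1 x + ρ2 x) / 2) := by
    have := (h1.NN.add h2.NN).smul (1/2)
    refine this.congr (ae_of_all _ fun x => ?_)
    show 1/2 * (ρ1 x + ρ2 x) = (ρ1 x + ρ2 x) / 2
    ring
  have h53 : Integrable (fun x => ((ρ1 x + ρ2 x) / 2) ^ (5/3 : ℝ)) := by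
    refine hN.int53.congr (ae_of_all _ fun x => ?_)
    have a1 := h1.nonneg x
    have a2 := h2.nonneg x
    show |(ρ1 x + ρ2 x) / 2| ^ (5/3 : ℝ) = _
    rw [abs_of_nonneg (by positivity)]
  refine ⟨_, adm_of_sum w1 w2 (fun x => ?_) h53, ?_⟩
  · rw [mul_pow, mul_pow, hc2, Real.sq_sqrt (h1.nonneg x), Real.sq_sqrt (h2.nonneg x)]; ring
  · have i1 : Integrable (fun x => 1/2 * ‖g1 x‖ ^ 2) := (isq h1.g2).const_mul _
    have i2 : Integrable (fun x => 1/2 * ‖g2 x‖ ^ 2) := (isq h2.g2).const_mul _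
    rw [← integral_const_mul, ← integral_const_mul, ← integral_add i1 i2]
    refine integral_mono_of_nonneg (ae_of_all _ fun x => by positivity) (i1.add i2)
      (ae_of_all _ fun x => ?_)
    have := sg_sq_le (c * √(ρ1 x)) (c * √(ρ2 x)) (c • g1 x) (c • g2 x)
    refine this.trans (le_of_eq ?_)
    rw [norm_smul, norm_smul, mul_pow, mul_pow, Real.norm_eq_abs, sq_abs, hc2]

variable {k : ℕ}

/-- midpoint inequality for the energy -/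
lemma EN_mid (z : Fin k → ℝ) (R : Fin k → E3) {ρ1 ρ2 : E3 → ℝ} {g1 g2 : E3 → E3}
    (h1 : Adm ρ1 g1) (h2 : Adm ρ2 g2) :
    ∃ gm, Adm (fun x => (ρ1 x + ρ2 x) / 2) gm ∧
      EN z R (fun x => (ρ1 x + ρ2 x) / 2) gm ≤ 1/2 * EN z R ρ1 g1 + 1/2 * EN z R ρ2 g2
        - 1/12 * ∫ x, (ρ1 x ^ (5/6 : ℝ) - ρ2 x ^ (5/6 : ℝ)) ^ 2 := by
  obtain ⟨gm, hgm, hK⟩ := h1.mid h2
  refine ⟨gm, hgm, ?_⟩
  have hD := h1.NN.mid h2.NN
  have hV : ∫ x, V z R x * ((ρ1 x + ρ2 x) / 2) = 1/2 * (∫ x, V z R x * ρ1 x)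
      + 1/2 * ∫ x, V z R x * ρ2 x := by
    rw [← integral_const_mul, ← integral_const_mul,
      ← integral_add ((V_int z R h1.NN).1.const_mul _) ((V_int z R h2.NN).1.const_mul _)]
    refine integral_congr_ae (ae_of_all _ fun x => ?_)
    show V z R x * ((ρ1 x + ρ2 x) / 2) = 1/2 * (V z R x * ρ1 x) + 1/2 * (V z R x * ρ2 x)
    ring
  have hsq : ∀ {ρ : E3 → ℝ} {g : E3 → E3}, Adm ρ g → MemLp (fun x => ρ x ^ (5/6 : ℝ)) 2 volume := by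
    intro ρ g h
    have hm : AEStronglyMeasurable (fun x => ρ x ^ (5/6 : ℝ)) volume :=
      (h.int.aestronglyMeasurable.aemeasurable.pow_const _).aestronglyMeasurable
    rw [memLp_two_iff_integrable_sq hm]
    refine h.int53.congr (ae_of_all _ fun x => ?_)
    simp only
    rw [← Real.rpow_natCast, ← Real.rpow_mul (h.nonneg x)]
    norm_num
  have i3 : Integrable (fun x => (ρ1 x ^ (5/6 : ℝ) - ρ2 x ^ (5/6 : ℝ)) ^ 2) :=
    isq' ((hsq h1).sub (hsq h2))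
  have hP : 3/5 * (∫ x, ((ρ1 x + ρ2 x) / 2) ^ (5/3 : ℝ)) ≤ 1/2 * (3/5 * ∫ x, ρ1 x ^ (5/3 : ℝ))
      + 1/2 * (3/5 * ∫ x, ρ2 x ^ (5/3 : ℝ))
      - 1/12 * ∫ x, (ρ1 x ^ (5/6 : ℝ) - ρ2 x ^ (5/6 : ℝ)) ^ 2 := by
    have j1 : Integrable (fun x => 1/2 * (3/5 * ρ1 x ^ (5/3 : ℝ))) := (h1.int53.const_mul _).const_mul _
    have j2 : Integrable (fun x => 1/2 * (3/5 * ρ2 x ^ (5/3 : ℝ))) := (h2.int53.const_mul _).const_mul _
    have j3 : Integrable (fun x => 1/12 * (ρ1 x ^ (5/6 : ℝ) - ρ2 x ^ (5/6 : ℝ)) ^ 2) := i3.const_mul _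
    have j12 : Integrable (fun x => 1/2 * (3/5 * ρ1 x ^ (5/3 : ℝ)) + 1/2 * (3/5 * ρ2 x ^ (5/3 : ℝ))) :=
      j1.add j2
    have e : 1/2 * (3/5 * ∫ x, ρ1 x ^ (5/3 : ℝ)) + 1/2 * (3/5 * ∫ x, ρ2 x ^ (5/3 : ℝ))
      - 1/12 * ∫ x, (ρ1 x ^ (5/6 : ℝ) - ρ2 x ^ (5/6 : ℝ)) ^ 2
      = ∫ x, (1/2 * (3/5 * ρ1 x ^ (5/3 : ℝ)) + 1/2 * (3/5 * ρ2 x ^ (5/3 : ℝ))
      - 1/12 * (ρ1 x ^ (5/6 : ℝ) - ρ2 x ^ (5/6 : ℝ)) ^ 2) := by
      rw [integral_sub j12 j3, integral_add j1 j2]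
      simp only [integral_const_mul]
    rw [e, ← integral_const_mul]
    exact integral_mono (hgm.int53.const_mul _) (j12.sub j3) fun x => gap_pt (h1.nonneg x) (h2.nonneg x)
  unfold EN
  rw [hV]
  linarith

end Pool.Agent.N288.TFW
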