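import Pool.Agent.N288.TFW.Sqrt

/-!
# An `L¹` Poincaré inequality on balls
-/

set_option autoImplicit false

open MeasureTheory Filter Topology Set Metric
open scoped ENNReal NNReal Convolution ContDiff

namespace Pool.Agent.N288.TFW

/-- the indicator of the ball -/
noncomputable def ib (L : ℝ) (x : E3) : ℝ≥0∞ := (ball (0:E3) L).indicator (fun _ => 1) x

lemma ib_meas (L : ℝ) : Measurable (ib L) := measurable_const.indicator measurableSet_ball

lemma segm_bound {w : E3 → ℝ} {G : E3 → E3} (hw : ContDiff ℝ 1 w) (hG : Continuous G)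
    (hwG : ∀ x v, fderiv ℝ w x v = inner ℝ (G x) v) (x h : E3) :
    ‖w (x + h) - w x‖ₑ ≤ ‖h‖ₑ * ∫⁻ s in Icc (0:ℝ) 1, ‖G (x + s • h)‖ₑ := by
  have hd : ∀ s : ℝ, HasDerivAt (fun s : ℝ => w (x + s • h)) (inner ℝ (G (x + s • h)) h) s := by
    intro s
    have h1 := ((hw.differentiable (by norm_num)) (x + s • h)).hasFDerivAt
    have h2 : HasDerivAt (fun s : ℝ => x + s • h) h s := by
      have := ((hasDerivAt_id s).smul_const h).const_add x
      simpa using this
    have h3 := h1.comp_hasDerivAt s h2
    rw [hwG] at h3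
    exact h3
  have hc : Continuous (fun s : ℝ => inner ℝ (G (x + s • h)) h) := by fun_prop
  have h1 := intervalIntegral.integral_eq_sub_of_hasDerivAt (a := 0) (b := 1)
    (fun s _ => hd s) (hc.intervalIntegrable 0 1)
  simp only [one_smul, zero_smul, add_zero] at h1
  rw [← h1, intervalIntegral.integral_of_le zero_le_one]
  refine (enorm_integral_le_lintegral_enorm _).trans ?_
  have hm : Measurable (fun s : ℝ => ‖G (x + s • h)‖ₑ) := by
    have : Continuous (fun s : ℝ => G (x + s • h)) := by fun_prop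
    exact this.measurable.enorm
  rw [← lintegral_const_mul _ hm]
  calc ∫⁻ s in Ioc (0:ℝ) 1, ‖inner ℝ (G (x + s • h)) h‖ₑ
      ≤ ∫⁻ s in Icc (0:ℝ) 1, ‖inner ℝ (G (x + s • h)) h‖ₑ := lintegral_mono_set Ioc_subset_Icc_self
    _ ≤ ∫⁻ s in Icc (0:ℝ) 1, ‖h‖ₑ * ‖G (x + s • h)‖ₑ := by
        refine lintegral_mono fun s => ?_
        have := abs_real_inner_le_norm (G (x + s • h)) h
        rw [← ofReal_norm, ← ofReal_norm, ← ofReal_norm, ← ENNReal.ofReal_mul (norm_nonneg _)]
        refine ENNReal.ofReal_le_ofReal ?_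
        rw [Real.norm_eq_abs]
        linarith

lemma poinc_smooth {w : E3 → ℝ} {G : E3 → E3} (hw : ContDiff ℝ 1 w) (hG : Continuous G)
    (hwG : ∀ x v, fderiv ℝ w x v = inner ℝ (G x) v) (L : ℝ) :
    ∫⁻ x in ball (0:E3) L, ∫⁻ y in ball (0:E3) L, ‖w x - w y‖ₑ
      ≤ (ENNReal.ofReal (2 * L) * volume (ball (0:E3) (2 * L))) * ∫⁻ x in ball (0:E3) L, ‖G x‖ₑ := by
  set A : ℝ≥0∞ := ∫⁻ x in ball (0:E3) L, ‖G x‖ₑ with hA
  have hib := ib_meas L
  have hconv : ∀ (x h : E3) (s : ℝ), s ∈ Icc (0:ℝ) 1 → x ∈ ball (0:E3) L → x + h ∈ ball (0:E3) L →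
      x + s • h ∈ ball (0:E3) L := by
    intro x h s hs hx hxh
    have h1 := (convex_ball (0:E3) L) hx hxh (sub_nonneg.2 hs.2) hs.1 (by ring)
    have e : (1 - s) • x + s • (x + h) = x + s • h := by
      rw [sub_smul, one_smul, smul_add]; abel
    rwa [e] at h1
  -- rewrite with indicators
  have e1 : ∫⁻ x in ball (0:E3) L, ∫⁻ y in ball (0:E3) L, ‖w x - w y‖ₑ
      = ∫⁻ x, ∫⁻ h, ib L x * (ib L (x + h) * ‖w (x + h) - w x‖ₑ) := by
    rw [← lintegral_indicator measurableSet_ball]
    refine lintegral_congr fun x => ?_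
    have hm : Measurable (fun h : E3 => ib L (x + h) * ‖w (x + h) - w x‖ₑ) := by
      have h1 : Measurable (fun h : E3 => ib L (x + h)) := hib.comp (measurable_const_add x)
      have h2 : Measurable (fun h : E3 => ‖w (x + h) - w x‖ₑ) := by
        have : Continuous (fun h : E3 => w (x + h) - w x) := by
          have := hw.continuous
          fun_prop
        exact this.measurable.enorm
      exact h1.mul h2
    rw [lintegral_const_mul _ hm]
    have e2 : ∫⁻ h, ib L (x + h) * ‖w (x + h) - w x‖ₑ = ∫⁻ y, ib L y * ‖w y - w x‖ₑ :=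
      lintegral_add_left_eq_self (fun y => ib L y * ‖w y - w x‖ₑ) x
    rw [e2]
    have e3 : ∫⁻ y, ib L y * ‖w y - w x‖ₑ = ∫⁻ y in ball (0:E3) L, ‖w x - w y‖ₑ := by
      rw [← lintegral_indicator measurableSet_ball]
      refine lintegral_congr fun y => ?_
      unfold ib
      by_cases hy : y ∈ ball (0:E3) L
      · rw [indicator_of_mem hy, indicator_of_mem hy, one_mul, enorm_sub_rev]
      · rw [indicator_of_notMem hy, indicator_of_notMem hy, zero_mul]
    rw [e3]
    unfold ib
    by_cases hx : x ∈ ball (0:E3) L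
    · rw [indicator_of_mem hx, indicator_of_mem hx, one_mul]
    · rw [indicator_of_notMem hx, indicator_of_notMem hx, zero_mul]
  rw [e1, lintegral_lintegral_swap]
  swap
  · refine Measurable.aemeasurable ?_
    have h1 : Measurable (fun p : E3 × E3 => ib L p.1) := hib.comp measurable_fst
    have h2 : Measurable (fun p : E3 × E3 => ib L (p.1 + p.2)) :=
      hib.comp (measurable_fst.add measurable_snd)
    have h3 : Measurable (fun p : E3 × E3 => ‖w (p.1 + p.2) - w p.1‖ₑ) := by
      have : Continuous (fun p : E3 × E3 => w (p.1 + p.2) - w p.1) := by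
        have := hw.continuous
        fun_prop
      exact this.measurable.enorm
    exact h1.mul (h2.mul h3)
  have hh : ∀ h : E3, ∫⁻ x, ib L x * (ib L (x + h) * ‖w (x + h) - w x‖ₑ)
      ≤ (ball (0:E3) (2 * L)).indicator (fun _ => ENNReal.ofReal (2 * L) * A) h := by
    intro h
    by_cases hh : h ∈ ball (0:E3) (2 * L)
    · rw [indicator_of_mem hh]
      have hn : ‖h‖ₑ ≤ ENNReal.ofReal (2 * L) := by
        rw [← ofReal_norm]
        refine ENNReal.ofReal_le_ofReal ?_
        rw [mem_ball_zero_iff] at hh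
        exact hh.le
      have h1 : ∀ x, ib L x * (ib L (x + h) * ‖w (x + h) - w x‖ₑ)
          ≤ ‖h‖ₑ * ∫⁻ s in Icc (0:ℝ) 1, ib L (x + s • h) * ‖G (x + s • h)‖ₑ := by
        intro x
        by_cases hx : x ∈ ball (0:E3) L
        · by_cases hxh : x + h ∈ ball (0:E3) L
          · have a1 : ib L x = 1 := indicator_of_mem hx _
            have a2 : ib L (x + h) = 1 := indicator_of_mem hxh _
            rw [a1, a2, one_mul, one_mul]
            refine (segm_bound hw hG hwG x h).trans (le_of_eq ?_)
            congr 1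
            refine setLIntegral_congr_fun measurableSet_Icc fun s hs => ?_
            have a3 : ib L (x + s • h) = 1 := indicator_of_mem (hconv x h s hs hx hxh) _
            show _ = ib L (x + s • h) * ‖G (x + s • h)‖ₑ
            rw [a3, one_mul]
          · have a2 : ib L (x + h) = 0 := indicator_of_notMem hxh _
            rw [a2]; simp
        · have a1 : ib L x = 0 := indicator_of_notMem hx _
          rw [a1]; simp
      have hmm : Measurable (fun p : E3 × ℝ => ib L (p.1 + p.2 • h) * ‖G (p.1 + p.2 • h)‖ₑ) := by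
        have c1 : Continuous (fun p : E3 × ℝ => p.1 + p.2 • h) := by fun_prop
        exact (hib.comp c1.measurable).mul (hG.comp c1).measurable.enorm
      calc ∫⁻ x, ib L x * (ib L (x + h) * ‖w (x + h) - w x‖ₑ)
          ≤ ∫⁻ x, ‖h‖ₑ * ∫⁻ s in Icc (0:ℝ) 1, ib L (x + s • h) * ‖G (x + s • h)‖ₑ := lintegral_mono h1
        _ = ‖h‖ₑ * ∫⁻ x, ∫⁻ s in Icc (0:ℝ) 1, ib L (x + s • h) * ‖G (x + s • h)‖ₑ := by
            rw [lintegral_const_mul]
            exact hmm.lintegral_prod_right'
        _ = ‖h‖ₑ * ∫⁻ s in Icc (0:ℝ) 1, ∫⁻ x, ib L (x + s • h) * ‖G (x + s • h)‖ₑ := by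
            rw [lintegral_lintegral_swap]
            exact hmm.aemeasurable
        _ = ‖h‖ₑ * ∫⁻ s in Icc (0:ℝ) 1, A := by
            congr 1
            refine lintegral_congr fun s => ?_
            have e4 : ∫⁻ x, ib L (x + s • h) * ‖G (x + s • h)‖ₑ = ∫⁻ x, ib L x * ‖G x‖ₑ :=
              lintegral_add_right_eq_self (fun x => ib L x * ‖G x‖ₑ) (s • h)
            rw [e4, hA, ← lintegral_indicator measurableSet_ball]
            refine lintegral_congr fun x => ?_
            unfold ib
            by_cases hx : x ∈ ball (0:E3) L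
            · rw [indicator_of_mem hx, indicator_of_mem hx, one_mul]
            · rw [indicator_of_notMem hx, indicator_of_notMem hx, zero_mul]
        _ = ‖h‖ₑ * A := by
            rw [setLIntegral_const, Real.volume_Icc]
            simp
        _ ≤ ENNReal.ofReal (2 * L) * A := by gcongr
    · rw [indicator_of_notMem hh]
      refine le_of_eq ?_
      have : ∀ x, ib L x * (ib L (x + h) * ‖w (x + h) - w x‖ₑ) = 0 := by
        intro x
        by_cases hx : x ∈ ball (0:E3) L
        · have hxh : x + h ∉ ball (0:E3) L := by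
            intro hxh
            apply hh
            rw [mem_ball_zero_iff] at hx hxh ⊢
            have : ‖h‖ ≤ ‖x + h‖ + ‖x‖ := by
              have := norm_sub_le (x + h) x
              rwa [add_sub_cancel_left] at this
            linarith
          have a2 : ib L (x + h) = 0 := indicator_of_notMem hxh _
          rw [a2]; simp
        · have a1 : ib L x = 0 := indicator_of_notMem hx _
          rw [a1]; simp
      simp only [this, lintegral_zero]
  calc ∫⁻ h, ∫⁻ x, ib L x * (ib L (x + h) * ‖w (x + h) - w x‖ₑ)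
      ≤ ∫⁻ h, (ball (0:E3) (2 * L)).indicator (fun _ => ENNReal.ofReal (2 * L) * A) h := lintegral_mono hh
    _ = (ENNReal.ofReal (2 * L) * volume (ball (0:E3) (2 * L))) * A := by
        rw [lintegral_indicator measurableSet_ball, setLIntegral_const]
        ring

end Pool.Agent.N288.TFW
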