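import Pool.Agent.N288.TFW.LogT

/-!
# The radial trial function
-/

set_option autoImplicit false

open MeasureTheory Filter Topology Set Metric
open scoped ENNReal NNReal Convolution ContDiff

namespace Pool.Agent.N288.TFW

/-- the smooth transition -/
noncomputable abbrev S : ℝ → ℝ := Real.smoothTransition

/-- its derivative -/
noncomputable def S' : ℝ → ℝ := deriv S

lemma S_cd : ContDiff ℝ ∞ S := Real.smoothTransition.contDiff (n := ⊤)

lemma S_hd (x : ℝ) : HasDerivAt S (S' x) x :=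
  (S_cd.differentiable (by simp) x).hasDerivAt

lemma S_nonneg (x : ℝ) : 0 ≤ S x := Real.smoothTransition.nonneg x
lemma S_le_one (x : ℝ) : S x ≤ 1 := Real.smoothTransition.le_one x
lemma S_one {x : ℝ} (h : 1 ≤ x) : S x = 1 := Real.smoothTransition.one_of_one_le h
lemma S_zero {x : ℝ} (h : x ≤ 0) : S x = 0 := Real.smoothTransition.zero_of_nonpos h

lemma S'_nonneg (x : ℝ) : 0 ≤ S' x := Real.smoothTransition.monotone.deriv_nonneg

lemma S'_one {x : ℝ} (h : 1 ≤ x) : S' x = 0 := by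
  have : IsLocalMax S x := by
    refine Filter.Eventually.of_forall fun y => ?_
    rw [S_one h]; exact S_le_one y
  exact this.deriv_eq_zero

lemma S'_zero {x : ℝ} (h : x ≤ 0) : S' x = 0 := by
  have : IsLocalMin S x := by
    refine Filter.Eventually.of_forall fun y => ?_
    rw [S_zero h]; exact S_nonneg y
  exact this.deriv_eq_zero

lemma S'_cont : Continuous S' := S_cd.continuous_deriv (by simp)

lemma S'_bdd : ∃ C : ℝ, 0 ≤ C ∧ ∀ x, S' x ≤ C := by
  obtain ⟨C, hC⟩ := (isCompact_Icc (a := (0:ℝ)) (b := 1)).exists_bound_of_continuousOn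
    S'_cont.continuousOn
  refine ⟨max C 0, le_max_right _ _, fun x => ?_⟩
  by_cases h : x ∈ Icc (0:ℝ) 1
  · exact (le_abs_self _).trans ((hC x h).trans (le_max_left _ _))
  · rw [mem_Icc, not_and_or, not_le, not_le] at h
    rcases h with h | h
    · rw [S'_zero h.le]; exact le_max_right _ _
    · rw [S'_one h.le]; exact le_max_right _ _

/-- smooth compactly supported functions form weak gradient pairs -/
lemma WG_of_smooth {s : E3 → ℝ} {h : E3 → E3} (hs : ContDiff ℝ 1 s) (hc : HasCompactSupport s)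
    (hh : Continuous h) (hsh : ∀ x v, fderiv ℝ s x v = inner ℝ (h x) v) : WG s h := by
  have hhc : HasCompactSupport h := by
    refine hc.mono' ?_
    intro x hx
    by_contra hcon
    have h0 : fderiv ℝ s x = 0 := by
      by_contra hne
      exact hcon ((support_fderiv_subset ℝ) (Function.mem_support.mpr hne))
    have h1 := hsh x (h x)
    rw [h0, real_inner_self_eq_norm_sq] at h1
    have h2 : ‖h x‖ = 0 := by
      have h3 : ‖h x‖ ^ 2 = 0 := h1.symm
      simpa using h3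
    exact hx (norm_eq_zero.1 h2)
  refine ⟨hs.continuous.memLp_of_hasCompactSupport hc, hh.memLp_of_hasCompactSupport hhc,
    fun φ hφ hφc v => ?_⟩
  have hφdc : Continuous (fun x => fderiv ℝ φ x v) :=
    (hφ.continuous_fderiv (by simp)).clm_apply continuous_const
  have hsdc : Continuous (fun x => fderiv ℝ s x v) :=
    (hs.continuous_fderiv (by norm_num)).clm_apply continuous_const
  have := integral_mul_fderiv_eq_neg_fderiv_mul_of_integrable (μ := (volume : Measure E3))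
    (f := s) (g := φ) (v := v) ((hsdc.mul hφ.continuous).integrable_of_hasCompactSupport (hφc.mul_left))
    ((hs.continuous.mul hφdc).integrable_of_hasCompactSupport (hc.mul_right))
    ((hs.continuous.mul hφ.continuous).integrable_of_hasCompactSupport (hφc.mul_left))
    (fun x _ => hs.differentiable (by norm_num) x)
    (fun x _ => hφ.differentiable (by simp) x)
  rw [this]
  simp only [hsh]

/-- the trial function -/
noncomputable def sR (R : ℝ) (x : E3) : ℝ := (1 + ‖x‖ ^ 2) ^ (-(1/4) : ℝ) * S (2 - ‖x‖ ^ 2 / (4 * R ^ 2))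

/-- derivative of the profile -/
noncomputable def pR' (R u : ℝ) : ℝ := -(1/4) * (1 + u) ^ (-(5/4) : ℝ) * S (2 - u / (4 * R ^ 2))
  - (1 + u) ^ (-(1/4) : ℝ) * (S' (2 - u / (4 * R ^ 2)) / (4 * R ^ 2))

/-- gradient of the trial function -/
noncomputable def hR (R : ℝ) (x : E3) : E3 := (2 * pR' R (‖x‖ ^ 2)) • x

lemma sR_cd {R : ℝ} : ContDiff ℝ ∞ (sR R) := by
  have h1 : ContDiff ℝ ∞ (fun x : E3 => ‖x‖ ^ 2) := contDiff_norm_sq ℝ
  have h2 : ContDiff ℝ ∞ (fun x : E3 => (1 + ‖x‖ ^ 2) ^ (-(1/4) : ℝ)) := by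
    refine ContDiff.rpow_const_of_ne (contDiff_const.add h1) fun x => ?_
    positivity
  have h3 : ContDiff ℝ ∞ (fun x : E3 => S (2 - ‖x‖ ^ 2 / (4 * R ^ 2))) :=
    S_cd.comp (contDiff_const.sub (h1.div_const _))
  exact h2.mul h3

lemma prof_hd {R u : ℝ} (hu : 0 ≤ u) :
    HasDerivAt (fun u : ℝ => (1 + u) ^ (-(1/4) : ℝ) * S (2 - u / (4 * R ^ 2))) (pR' R u) u := by
  have h1 : HasDerivAt (fun u : ℝ => 1 + u) 1 u := (hasDerivAt_id u).const_add 1
  have h2 := h1.rpow_const (p := (-(1/4) : ℝ)) (Or.inl (by positivity))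
  have h3 : HasDerivAt (fun u : ℝ => 2 - u / (4 * R ^ 2)) (-(1 / (4 * R ^ 2))) u :=
    ((hasDerivAt_id u).div_const (4 * R ^ 2)).const_sub 2
  have h4 := (S_hd (2 - u / (4 * R ^ 2))).comp u h3
  have h5 := h2.mul h4
  refine h5.congr_deriv ?_
  unfold pR'
  have e : (-(1/4) - 1 : ℝ) = -(5/4) := by norm_num
  simp only [Function.comp_apply, e]
  ring

lemma norm_sq_hfd (x : E3) : HasFDerivAt (fun x : E3 => ‖x‖ ^ 2) (2 • innerSL ℝ x) x :=
  (hasStrictFDerivAt_norm_sq x).hasFDerivAt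

lemma sR_fd {R : ℝ} (x v : E3) : fderiv ℝ (sR R) x v = inner ℝ (hR R x) v := by
  have h1 := (prof_hd (R := R) (u := ‖x‖ ^ 2) (by positivity)).comp_hasFDerivAt x (norm_sq_hfd x)
  have h2 : HasFDerivAt (sR R) (pR' R (‖x‖ ^ 2) • (2 • innerSL ℝ x)) x := h1
  rw [h2.fderiv]
  unfold hR
  rw [real_inner_smul_left]
  simp
  ring

lemma sR_zero {R : ℝ} (hR : 0 < R) {x : E3} (hx : 8 * R ^ 2 ≤ ‖x‖ ^ 2) : sR R x = 0 := by
  unfold sR
  rw [S_zero, mul_zero]
  rw [sub_nonpos, le_div_iff₀ (by positivity)]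
  linarith

lemma hR_zero {R : ℝ} (hR0 : 0 < R) {x : E3} (hx : 8 * R ^ 2 ≤ ‖x‖ ^ 2) : hR R x = 0 := by
  have h1 : 2 - ‖x‖ ^ 2 / (4 * R ^ 2) ≤ 0 := by
    rw [sub_nonpos, le_div_iff₀ (by positivity)]
    linarith
  unfold hR pR'
  rw [S_zero h1, S'_zero h1]
  simp

lemma sR_supp {R : ℝ} (hR : 0 < R) : HasCompactSupport (sR R) := by
  refine HasCompactSupport.intro (isCompact_closedBall (0:E3) (3 * R)) fun x hx => ?_
  rw [mem_closedBall_zero_iff, not_le] at hx
  refine sR_zero hR ?_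
  nlinarith [norm_nonneg x]

lemma hR_cont {R : ℝ} : Continuous (hR R) := by
  unfold hR pR'
  have h1 : Continuous (fun x : E3 => ‖x‖ ^ 2) := by fun_prop
  have h2 : ∀ p : ℝ, Continuous (fun x : E3 => (1 + ‖x‖ ^ 2) ^ p) := fun p =>
    Continuous.rpow_const (by fun_prop) fun x => Or.inl (by positivity)
  have h3 : Continuous (fun x : E3 => S (2 - ‖x‖ ^ 2 / (4 * R ^ 2))) :=
    S_cd.continuous.comp (by fun_prop)
  have h4 : Continuous (fun x : E3 => S' (2 - ‖x‖ ^ 2 / (4 * R ^ 2))) :=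
    S'_cont.comp (by fun_prop)
  exact (continuous_const.mul (((continuous_const.mul (h2 _)).mul h3).sub
    ((h2 _).mul (h4.div_const _)))).smul continuous_id

lemma sR_WG {R : ℝ} (hR0 : 0 < R) : WG (sR R) (hR R) :=
  WG_of_smooth (sR_cd.of_le (by simp)) (sR_supp hR0) hR_cont sR_fd

lemma sR_nonneg (R : ℝ) (x : E3) : 0 ≤ sR R x := by
  unfold sR
  have := S_nonneg (2 - ‖x‖ ^ 2 / (4 * R ^ 2))
  positivity

lemma sR_inner {R : ℝ} (hR0 : 0 < R) {x : E3} (hx : ‖x‖ ^ 2 ≤ 4 * R ^ 2) :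
    sR R x = (1 + ‖x‖ ^ 2) ^ (-(1/4) : ℝ) ∧ hR R x = (-(1/2) * (1 + ‖x‖ ^ 2) ^ (-(5/4) : ℝ)) • x := by
  have h1 : 1 ≤ 2 - ‖x‖ ^ 2 / (4 * R ^ 2) := by
    have : ‖x‖ ^ 2 / (4 * R ^ 2) ≤ 1 := by rw [div_le_one (by positivity)]; exact hx
    linarith
  unfold sR hR pR'
  rw [S_one h1, S'_one h1]
  refine ⟨by ring, ?_⟩
  congr 1
  ring

end Pool.Agent.N288.TFW
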