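import Pool.Agent.N288.TFW.Rad1
import Pool.Agent.R999.Newton

/-!
# Pointwise bounds for the radial trial function and the transport field
-/

set_option autoImplicit false

open MeasureTheory Filter Topology Set Metric
open scoped ENNReal NNReal Convolution ContDiff

namespace Pool.Agent.N288.TFW

/-- cutoffs of the transport field -/
noncomputable def kk (R u : ℝ) : ℝ := S (u - 1) * S (2 - u / R ^ 2)

/-- radial profile of the transport field -/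
noncomputable def KK (R u : ℝ) : ℝ := kk R u * u ^ (-(3/2) : ℝ)

/-- the transport field -/
noncomputable def XR (R : ℝ) (x : E3) : E3 := KK R (‖x‖ ^ 2) • x

lemma kk_bd (R u : ℝ) : 0 ≤ kk R u ∧ kk R u ≤ 1 := by
  unfold kk
  exact ⟨mul_nonneg (S_nonneg _) (S_nonneg _), mul_le_one₀ (S_le_one _) (S_nonneg _) (S_le_one _)⟩

lemma KK_nonneg {R u : ℝ} (hu : 0 ≤ u) : 0 ≤ KK R u :=
  mul_nonneg (kk_bd R u).1 (Real.rpow_nonneg hu _)

lemma KK_small {R u : ℝ} (hu : u ≤ 1) : KK R u = 0 := by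
  unfold KK kk
  rw [S_zero (by linarith)]; ring

lemma KK_big {R u : ℝ} (hR : 0 < R) (hu : 2 * R ^ 2 ≤ u) : KK R u = 0 := by
  unfold KK kk
  rw [S_zero (x := 2 - u / R ^ 2)]
  · ring
  · rw [sub_nonpos, le_div_iff₀ (by positivity)]; exact hu

lemma rpow_32 {r : ℝ} (hr : 0 < r) : (r ^ 2) ^ (-(3/2) : ℝ) = (r ^ 3)⁻¹ := by
  rw [← Real.rpow_natCast, ← Real.rpow_natCast, ← Real.rpow_mul hr.le, ← Real.rpow_neg hr.le]
  norm_num

lemma y4 {u : ℝ} (hu : 0 ≤ u) : ∃ y : ℝ, 1 ≤ y ∧ y ^ 4 = 1 + u ∧ (1 + u) ^ (-(1/4) : ℝ) = y⁻¹ ∧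
    (1 + u) ^ (-(5/4) : ℝ) = (y ^ 5)⁻¹ := by
  refine ⟨(1 + u) ^ (1/4 : ℝ), Real.one_le_rpow (by linarith) (by norm_num), ?_, ?_, ?_⟩
  · rw [← Real.rpow_natCast, ← Real.rpow_mul (by positivity)]; norm_num
  · rw [← Real.rpow_neg (by positivity)]
  · rw [← Real.rpow_natCast, ← Real.rpow_mul (by positivity), ← Real.rpow_neg (by positivity)]; norm_num

lemma KK_le {R r : ℝ} (hr : 0 < r) : KK R (r ^ 2) ≤ (r ^ 3)⁻¹ := by
  unfold KK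
  rw [rpow_32 hr]
  have h1 := kk_bd R (r ^ 2)
  have h2 : 0 ≤ (r ^ 3)⁻¹ := by positivity
  nlinarith

lemma KK_le_one {R r : ℝ} (hr : 0 ≤ r) : KK R (r ^ 2) ≤ 1 := by
  rcases le_or_gt (r ^ 2) 1 with h | h
  · rw [KK_small h]; norm_num
  · have hr0 : 0 < r := by
      rcases eq_or_lt_of_le hr with h0 | h0
      · rw [← h0] at h; norm_num at h
      · exact h0
    have h1 : 1 ≤ r := by nlinarith
    refine (KK_le hr0).trans ?_
    have : 1 ≤ r ^ 3 := one_le_pow₀ h1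
    exact inv_le_one_of_one_le₀ this

/-- dominating radial function -/
noncomputable def fD (a b c R t : ℝ) : ℝ :=
  (a * (Iic (3:ℝ)).indicator (fun _ => 1) t + b * (Ioc 3 (3 * R)).indicator (fun t => (t ^ 3)⁻¹) t)
    + c * (R ^ 3)⁻¹ * (Iic (3 * R)).indicator (fun _ => 1) t

/-- the inner zone, quadratic part -/
lemma zone_alg {y r lam n ip a : ℝ} (hy : 0 < y) (hlam : 0 ≤ lam) (hip : |ip| ≤ r * n)
    (ha : lam ^ 2 * r ^ 2 * y ^ 2 / 4 ≤ a) :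
    -(lam * ip) - (y⁻¹) ^ 2 * n ^ 2 ≤ a := by
  have h1 : -(lam * ip) ≤ lam * (r * n) := by
    have := neg_abs_le ip
    nlinarith
  have h2 : 0 ≤ (y⁻¹ * n - lam * r * y / 2) ^ 2 := sq_nonneg _
  have h3 : (y⁻¹ * n - lam * r * y / 2) ^ 2 = (y⁻¹) ^ 2 * n ^ 2 - lam * (r * n) + lam ^ 2 * r ^ 2 * y ^ 2 / 4 := by
    have : y⁻¹ * y = 1 := inv_mul_cancel₀ hy.ne'
    linear_combination (-(lam * r * n)) * this
  linarith

lemma inner_zone {y r K a lam : ℝ} (hy : 1 ≤ y) (hr : 0 ≤ r) (hyr : y ^ 4 = 1 + r ^ 2) (hK0 : 0 ≤ K)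
    (hK1 : K ≤ 1) (hlam : lam = (y ^ 6)⁻¹ + K) (hr3 : r ≤ 3) (ha : a = 36) :
    lam ^ 2 * r ^ 2 * y ^ 2 / 4 ≤ a := by
  have h1 : (y ^ 6)⁻¹ ≤ 1 := inv_le_one_of_one_le₀ (one_le_pow₀ hy)
  have h1' : 0 ≤ (y ^ 6)⁻¹ := by positivity
  have h2 : lam ≤ 2 := by linarith
  have h3 : 0 ≤ lam := by linarith
  have h4 : lam ^ 2 ≤ 4 := by nlinarith
  have h5 : r ^ 2 ≤ 9 := by nlinarith
  have h6 : y ^ 2 ≤ 4 := by nlinarith [sq_nonneg (y ^ 2 - 4), sq_nonneg y]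
  have h7 : lam ^ 2 * r ^ 2 ≤ 36 := by nlinarith [sq_nonneg lam, sq_nonneg r]
  rw [ha]
  nlinarith [sq_nonneg y, mul_nonneg (sq_nonneg lam) (sq_nonneg r)]

lemma outer_zone {y r K lam : ℝ} (hy : 1 ≤ y) (hyr : y ^ 4 = 1 + r ^ 2) (hK0 : 0 ≤ K)
    (hr3 : 3 < r) (hK1 : K ≤ (r ^ 3)⁻¹) (hlam : lam = (y ^ 6)⁻¹ + K) :
    lam ^ 2 * r ^ 2 * y ^ 2 / 4 ≤ (106/100) * (r ^ 3)⁻¹ ∧ (y ^ 6)⁻¹ ≤ (r ^ 3)⁻¹ := by
  have hr0 : 0 < r := by linarith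
  have h2 : r ≤ y ^ 2 := by
    have : r ^ 2 ≤ (y ^ 2) ^ 2 := by nlinarith
    exact le_of_sq_le_sq this (by positivity)
  have h3 : r ^ 3 ≤ y ^ 6 := by
    have := pow_le_pow_left₀ hr0.le h2 3
    calc r ^ 3 ≤ (y ^ 2) ^ 3 := this
      _ = y ^ 6 := by ring
  have h4 : (y ^ 6)⁻¹ ≤ (r ^ 3)⁻¹ := inv_anti₀ (by positivity) h3
  refine ⟨?_, h4⟩
  have h5 : 0 ≤ lam := by rw [hlam]; positivity
  have h6 : lam ≤ 2 * (r ^ 3)⁻¹ := by linarith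
  have h7 : lam ^ 2 ≤ (2 * (r ^ 3)⁻¹) ^ 2 := pow_le_pow_left₀ h5 h6 2
  have h8 : y ^ 2 ≤ (106/100) * r := by
    have : (y ^ 2) ^ 2 ≤ ((106/100) * r) ^ 2 := by nlinarith
    exact le_of_sq_le_sq this (by positivity)
  have h9 : lam ^ 2 * r ^ 2 * y ^ 2 / 4 ≤ (2 * (r ^ 3)⁻¹) ^ 2 * r ^ 2 * ((106/100) * r) / 4 := by
    gcongr
  refine h9.trans (le_of_eq ?_)
  field_simp
  ring

lemma fD_low {b c R t : ℝ} (hc : 0 ≤ c) (hR : 2 ≤ R) (ht : t ≤ 3) : 37 ≤ fD 37 b c R t := by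
  unfold fD
  rw [indicator_of_mem (show t ∈ Iic (3:ℝ) from ht), indicator_of_notMem (by
    rintro ⟨h1, _⟩; linarith), indicator_of_mem (show t ∈ Iic (3 * R) by
    show t ≤ 3 * R
    linarith)]
  have : 0 ≤ c * (R ^ 3)⁻¹ := by positivity
  linarith

lemma fD_mid {a b c R t : ℝ} (ht : 3 < t) (htR : t ≤ 3 * R) :
    fD a b c R t = b * (t ^ 3)⁻¹ + c * (R ^ 3)⁻¹ := by
  unfold fD
  rw [indicator_of_notMem (show t ∉ Iic (3:ℝ) from not_le.2 ht), indicator_of_mem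
    (show t ∈ Ioc 3 (3 * R) from ⟨ht, htR⟩), indicator_of_mem (show t ∈ Iic (3 * R) from htR)]
  ring

lemma fD_nonneg {a b c R t : ℝ} (ha : 0 ≤ a) (hb : 0 ≤ b) (hc : 0 ≤ c) (hR : 2 ≤ R) :
    0 ≤ fD a b c R t := by
  unfold fD
  have h1 : 0 ≤ (Iic (3:ℝ)).indicator (fun _ => (1:ℝ)) t := indicator_nonneg (fun _ _ => zero_le_one) _
  have h2 : 0 ≤ (Ioc 3 (3 * R)).indicator (fun t => (t ^ 3)⁻¹) t := by
    refine indicator_nonneg (fun t ht => ?_) _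
    have : 0 < t := by linarith [ht.1]
    positivity
  have h3 : 0 ≤ (Iic (3 * R)).indicator (fun _ => (1:ℝ)) t := indicator_nonneg (fun _ _ => zero_le_one) _
  have : 0 ≤ (R ^ 3)⁻¹ := by positivity
  positivity

lemma sR_le {R : ℝ} {x : E3} {y : ℝ} (hy : (1 + ‖x‖ ^ 2) ^ (-(1/4) : ℝ) = y⁻¹) (hy1 : 1 ≤ y) :
    sR R x ≤ y⁻¹ := by
  unfold sR
  rw [hy]
  have h1 := S_le_one (2 - ‖x‖ ^ 2 / (4 * R ^ 2))
  have h2 : 0 ≤ y⁻¹ := by positivity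
  nlinarith

lemma free_quad (s : ℝ) (h q : E3) : 2 * s * inner ℝ h q - s ^ 2 * ‖q‖ ^ 2 ≤ ‖h‖ ^ 2 := by
  have h1 : 0 ≤ ‖h - s • q‖ ^ 2 := by positivity
  rw [norm_sub_sq_real, real_inner_smul_right, norm_smul, mul_pow, Real.norm_eq_abs, sq_abs] at h1
  linarith

/-- the outermost zone -/
lemma far_zone {C1 : ℝ} (hC1 : ∀ x, S' x ≤ C1) (hC0 : 0 ≤ C1) {R : ℝ} (hRR : 2 ≤ R) {x : E3}
    (h4 : 4 * R ^ 2 < ‖x‖ ^ 2) (h3 : ‖x‖ ≤ 3 * R) :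
    ‖hR R x‖ ^ 2 ≤ 3/4 * (1 + C1) ^ 2 * (R ^ 3)⁻¹ ∧ sR R x ^ 6 ≤ (R ^ 3)⁻¹ := by
  obtain ⟨y, hy1, hy4, hya, hyb⟩ := y4 (sq_nonneg ‖x‖)
  set r := ‖x‖ with hr
  have hR0 : 0 < R := by linarith
  have hr2R : 2 * R < r := by
    have : (2 * R) ^ 2 < r ^ 2 := by nlinarith
    exact lt_of_pow_lt_pow_left₀ 2 (norm_nonneg x) this
  have hr0 : 0 < r := by linarith
  have hyr : r ≤ y ^ 2 := by
    have : r ^ 2 ≤ (y ^ 2) ^ 2 := by nlinarith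
    exact le_of_sq_le_sq this (by positivity)
  constructor
  · have e1 : ‖hR R x‖ ^ 2 = (2 * pR' R (r ^ 2)) ^ 2 * r ^ 2 := by
      unfold hR
      rw [norm_smul, mul_pow, Real.norm_eq_abs, sq_abs]
    rw [e1]
    have h5 : |2 * pR' R (r ^ 2)| ≤ y⁻¹ * ((1 + C1) / (2 * R ^ 2)) := by
      unfold pR'
      rw [hya, hyb]
      set s0 := S (2 - r ^ 2 / (4 * R ^ 2)) with hs0
      set s1 := S' (2 - r ^ 2 / (4 * R ^ 2)) with hs1
      have a1 : 0 ≤ s0 := S_nonneg _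
      have a2 : s0 ≤ 1 := S_le_one _
      have a3 : 0 ≤ s1 := S'_nonneg _
      have a4 : s1 ≤ C1 := hC1 _
      have a5 : (y ^ 5)⁻¹ ≤ y⁻¹ * (1 / (4 * R ^ 2)) := by
        have : (y ^ 5)⁻¹ = y⁻¹ * (y ^ 4)⁻¹ := by
          rw [← mul_inv]; congr 1; ring
        rw [this, one_div]
        refine mul_le_mul_of_nonneg_left ?_ (by positivity)
        exact inv_anti₀ (by positivity) (by rw [hy4]; linarith)
      have a6 : (y ^ 5)⁻¹ * s0 ≤ y⁻¹ * (1 / (4 * R ^ 2)) := by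
        have : 0 ≤ (y ^ 5)⁻¹ := by positivity
        nlinarith
      have a7 : y⁻¹ * (s1 / (4 * R ^ 2)) ≤ y⁻¹ * (C1 / (4 * R ^ 2)) := by gcongr
      have a8 : 0 ≤ (y ^ 5)⁻¹ * s0 := by positivity
      have a9 : 0 ≤ y⁻¹ * (s1 / (4 * R ^ 2)) := by positivity
      have a10 : y⁻¹ * ((1 + C1) / (2 * R ^ 2)) = 2 * (y⁻¹ * (1 / (4 * R ^ 2))) + 2 * (y⁻¹ * (C1 / (4 * R ^ 2))) := by
        field_simp; ring
      have a11 : 0 ≤ y⁻¹ * (1 / (4 * R ^ 2)) := by positivity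
      rw [a10, abs_le]
      constructor <;> nlinarith
    have h6 := pow_le_pow_left₀ (abs_nonneg _) h5 2
    rw [sq_abs] at h6
    have h7 : (y⁻¹ * ((1 + C1) / (2 * R ^ 2))) ^ 2 * r ^ 2 ≤ 3/4 * (1 + C1) ^ 2 * (R ^ 3)⁻¹ := by
      have b1 : (y⁻¹) ^ 2 * r ^ 2 ≤ 3 * R := by
        have : (y⁻¹) ^ 2 * r ^ 2 ≤ r := by
          rw [inv_pow, inv_mul_le_iff₀ (by positivity)]
          nlinarith
        linarith
      have b2 : 0 ≤ ((1 + C1) / (2 * R ^ 2)) ^ 2 := by positivity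
      calc (y⁻¹ * ((1 + C1) / (2 * R ^ 2))) ^ 2 * r ^ 2
          = ((y⁻¹) ^ 2 * r ^ 2) * ((1 + C1) / (2 * R ^ 2)) ^ 2 := by ring
        _ ≤ (3 * R) * ((1 + C1) / (2 * R ^ 2)) ^ 2 := mul_le_mul_of_nonneg_right b1 b2
        _ = 3/4 * (1 + C1) ^ 2 * (R ^ 3)⁻¹ := by field_simp; ring
    exact (mul_le_mul_of_nonneg_right h6 (sq_nonneg r)).trans h7
  · have h5 := pow_le_pow_left₀ (sR_nonneg R x) (sR_le hya hy1) 6
    refine h5.trans ?_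
    rw [inv_pow]
    refine inv_anti₀ (by positivity) ?_
    have h6 := pow_le_pow_left₀ hr0.le hyr 3
    have h7 := pow_le_pow_left₀ hR0.le (show R ≤ r by linarith) 3
    calc R ^ 3 ≤ r ^ 3 := h7
      _ ≤ (y ^ 2) ^ 3 := h6
      _ = y ^ 6 := by ring

theorem cost_pt : ∃ c : ℝ, 0 ≤ c ∧ ∀ R : ℝ, 2 ≤ R → ∀ x : E3,
    (∀ q : E3, 2 * sR R x * inner ℝ (hR R x) q - sR R x ^ 2 * ‖q‖ ^ 2 - inner ℝ q (XR R x)
      + 1/3 * sR R x ^ 6 ≤ fD 37 (7/5) c R ‖x‖) ∧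
    ‖hR R x‖ ^ 2 + 1/3 * sR R x ^ 6 ≤ fD 37 (7/5) c R ‖x‖ := by
  obtain ⟨C1, hC0, hC1⟩ := S'_bdd
  refine ⟨3/4 * (1 + C1) ^ 2 + 1, by positivity, fun R hR2 x => ?_⟩
  have hc : 0 ≤ 3/4 * (1 + C1) ^ 2 + 1 := by positivity
  have hR0 : 0 < R := by linarith
  obtain ⟨y, hy1, hy4, hya, hyb⟩ := y4 (sq_nonneg ‖x‖)
  set r := ‖x‖ with hr
  have hr0 : 0 ≤ r := norm_nonneg x
  have hy0 : 0 < y := by linarith
  rcases le_or_gt (r ^ 2) (4 * R ^ 2) with h4 | h4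
  · -- inner zones
    obtain ⟨hs, hh⟩ := sR_inner hR0 h4
    rw [← hr, hya] at hs
    rw [← hr, hyb] at hh
    have hr2R : r ≤ 2 * R := by
      have : r ^ 2 ≤ (2 * R) ^ 2 := by nlinarith
      exact le_of_sq_le_sq this (by positivity)
    have hK0 : 0 ≤ KK R (r ^ 2) := KK_nonneg (sq_nonneg r)
    have hK1 : KK R (r ^ 2) ≤ 1 := KK_le_one hr0
    set K := KK R (r ^ 2) with hK
    set lam := (y ^ 6)⁻¹ + K with hlam
    have hlam0 : 0 ≤ lam := by positivity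
    have eq1 : ∀ q : E3, 2 * sR R x * inner ℝ (hR R x) q - sR R x ^ 2 * ‖q‖ ^ 2 - inner ℝ q (XR R x)
        = -(lam * inner ℝ x q) - (y⁻¹) ^ 2 * ‖q‖ ^ 2 := by
      intro q
      unfold XR
      rw [hs, hh, real_inner_smul_left, real_inner_smul_right, real_inner_comm x q, ← hr, ← hK, hlam]
      have : y⁻¹ * (y ^ 5)⁻¹ = (y ^ 6)⁻¹ := by rw [← mul_inv]; congr 1; ring
      rw [← this]
      ring
    have hip : ∀ q : E3, |inner ℝ x q| ≤ r * ‖q‖ := fun q => abs_real_inner_le_norm x q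
    have eh : ‖hR R x‖ ^ 2 = 1/4 * (y ^ 10)⁻¹ * r ^ 2 := by
      rw [hh, norm_smul, mul_pow, Real.norm_eq_abs, sq_abs]
      have : ((y ^ 5)⁻¹) ^ 2 = (y ^ 10)⁻¹ := by rw [inv_pow]; congr 1; ring
      rw [mul_pow, this, ← hr]; ring
    have es : sR R x ^ 6 = (y ^ 6)⁻¹ := by rw [hs, inv_pow]
    have hy6 : (y ^ 6)⁻¹ ≤ 1 := inv_le_one_of_one_le₀ (one_le_pow₀ hy1)
    have hy10 : (y ^ 10)⁻¹ ≤ 1 := inv_le_one_of_one_le₀ (one_le_pow₀ hy1)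
    rcases le_or_gt r 3 with h3 | h3
    · have hD := fD_low (b := 7/5) hc hR2 h3
      have hz := inner_zone hy1 hr0 hy4 hK0 hK1 hlam h3 rfl
      constructor
      · intro q
        rw [eq1, es]
        have := zone_alg hy0 hlam0 (hip q) hz
        linarith
      · rw [eh, es]
        have : 0 ≤ (y ^ 10)⁻¹ := by positivity
        nlinarith
    · have hD := fD_mid (a := 37) (b := 7/5) (c := 3/4 * (1 + C1) ^ 2 + 1) h3
        (show r ≤ 3 * R by linarith)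
      obtain ⟨hz, hz2⟩ := outer_zone hy1 hy4 hK0 h3 (KK_le (by linarith)) hlam
      have hcR : 0 ≤ (3/4 * (1 + C1) ^ 2 + 1) * (R ^ 3)⁻¹ := by positivity
      have hr3 : 0 ≤ (r ^ 3)⁻¹ := by positivity
      constructor
      · intro q
        rw [eq1, es, hD]
        have := zone_alg hy0 hlam0 (hip q) hz
        linarith
      · rw [eh, es, hD]
        have h5 : (y ^ 10)⁻¹ * r ^ 2 ≤ (y ^ 6)⁻¹ := by
          have e : (y ^ 6)⁻¹ = (y ^ 10)⁻¹ * y ^ 4 := by field_simp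
          rw [e, hy4]
          have : 0 ≤ (y ^ 10)⁻¹ := by positivity
          nlinarith
        linarith
  · -- outer zones
    have hX : XR R x = 0 := by
      unfold XR
      rw [KK_big hR0 (by nlinarith)]; simp
    rcases le_or_gt r (3 * R) with h3 | h3
    · have hr3 : 3 < r := by
        have : (2 * R) ^ 2 < r ^ 2 := by nlinarith
        have := lt_of_pow_lt_pow_left₀ 2 hr0 this
        linarith
      have hD := fD_mid (a := 37) (b := 7/5) (c := 3/4 * (1 + C1) ^ 2 + 1) hr3 h3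
      obtain ⟨f1, f2⟩ := far_zone hC1 hC0 hR2 h4 h3
      have hr3' : 0 ≤ (r ^ 3)⁻¹ := by positivity
      have hR3' : 0 ≤ (R ^ 3)⁻¹ := by positivity
      have hmain : ‖hR R x‖ ^ 2 + 1/3 * sR R x ^ 6 ≤ fD 37 (7/5) (3/4 * (1 + C1) ^ 2 + 1) R r := by
        rw [hD]; linarith
      refine ⟨fun q => ?_, hmain⟩
      rw [hX, inner_zero_right]
      have := free_quad (sR R x) (hR R x) q
      linarith
    · have h8 : 8 * R ^ 2 ≤ r ^ 2 := by nlinarith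
      have z1 := sR_zero hR0 h8
      have z2 := hR_zero hR0 h8
      have hD : 0 ≤ fD 37 (7/5) (3/4 * (1 + C1) ^ 2 + 1) R r := fD_nonneg (by norm_num) (by norm_num) hc hR2
      rw [z1, z2, hX]
      refine ⟨fun q => ?_, ?_⟩
      · simpa using hD
      · simpa using hD

end Pool.Agent.N288.TFW
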