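import Pool.Agent.N288.TFW.Rad2

/-!
# The transport field
-/

set_option autoImplicit false

open MeasureTheory Filter Topology Set Metric
open scoped ENNReal NNReal Convolution ContDiff

namespace Pool.Agent.N288.TFW

open Pool.Agent.R999.Newton (int_radial integrable_radial)

/-- inner part of the divergence -/
noncomputable def b1 (x : E3) : ℝ := 2 * S' (‖x‖ ^ 2 - 1) * ‖x‖⁻¹

/-- outer part of the divergence -/
noncomputable def bR (R : ℝ) (x : E3) : ℝ := 2 / R ^ 2 * S' (2 - ‖x‖ ^ 2 / R ^ 2) * ‖x‖⁻¹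

/-- basis vectors -/
noncomputable def ee (i : Fin 3) : E3 := EuclideanSpace.single i 1

/-- components of the transport field -/
noncomputable def ph (R : ℝ) (i : Fin 3) (x : E3) : ℝ := KK R (‖x‖ ^ 2) * inner ℝ (ee i) x

/-- derivative of `kk` -/
noncomputable def kk' (R u : ℝ) : ℝ := S' (u - 1) * S (2 - u / R ^ 2) - S (u - 1) * (S' (2 - u / R ^ 2) / R ^ 2)

/-- derivative of `KK` -/
noncomputable def KK' (R u : ℝ) : ℝ := kk' R u * u ^ (-(3/2) : ℝ) - 3/2 * (kk R u * u ^ (-(5/2) : ℝ))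

lemma kk_hd (R u : ℝ) : HasDerivAt (kk R) (kk' R u) u := by
  have h1 : HasDerivAt (fun u : ℝ => u - 1) 1 u := (hasDerivAt_id u).sub_const 1
  have h2 := (S_hd (u - 1)).comp u h1
  have h3 : HasDerivAt (fun u : ℝ => 2 - u / R ^ 2) (-(1 / R ^ 2)) u :=
    ((hasDerivAt_id u).div_const (R ^ 2)).const_sub 2
  have h4 := (S_hd (2 - u / R ^ 2)).comp u h3
  have h5 := h2.mul h4
  refine h5.congr_deriv ?_
  unfold kk'
  simp only [Function.comp_apply]
  ring

lemma KK_hd {R u : ℝ} (hu : 0 ≤ u) : HasDerivAt (KK R) (KK' R u) u := by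
  rcases lt_or_ge u 1 with h | h
  · have h1 : KK R =ᶠ[𝓝 u] fun _ => 0 := by
      filter_upwards [Iio_mem_nhds h] with v hv
      exact KK_small (le_of_lt hv)
    have h2 : KK' R u = 0 := by
      unfold KK' kk' kk
      rw [S_zero (x := u - 1) (by linarith), S'_zero (x := u - 1) (by linarith)]
      ring
    rw [h2]
    exact (hasDerivAt_const u (0:ℝ)).congr_of_eventuallyEq h1
  · have hu0 : u ≠ 0 := by linarith
    have h1 := (kk_hd R u).mul (Real.hasDerivAt_rpow_const (x := u) (p := (-(3/2) : ℝ)) (Or.inl hu0))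
    refine h1.congr_deriv ?_
    unfold KK'
    have e : (-(3/2) - 1 : ℝ) = -(5/2) := by norm_num
    rw [e]
    ring

lemma ph_fd {R : ℝ} (i : Fin 3) (x : E3) : HasFDerivAt (ph R i)
    (KK R (‖x‖ ^ 2) • innerSL ℝ (ee i) + (inner ℝ (ee i) x) • (KK' R (‖x‖ ^ 2) • (2 • innerSL ℝ x))) x := by
  have h1 := (KK_hd (R := R) (u := ‖x‖ ^ 2) (by positivity)).comp_hasFDerivAt x
    ((hasStrictFDerivAt_norm_sq x).hasFDerivAt)
  have h2 : HasFDerivAt (fun x : E3 => inner ℝ (ee i) x) (innerSL ℝ (ee i)) x :=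
    (innerSL ℝ (ee i)).hasFDerivAt
  exact h1.mul h2

lemma inner_ee (i : Fin 3) (x : E3) : inner ℝ (ee i) x = x i := by
  unfold ee
  rw [EuclideanSpace.inner_single_left]
  simp

lemma norm_sq3 (x : E3) : ‖x‖ ^ 2 = x 0 ^ 2 + x 1 ^ 2 + x 2 ^ 2 := by
  rw [EuclideanSpace.norm_sq_eq, Fin.sum_univ_three]
  simp only [Real.norm_eq_abs, sq_abs]

lemma inner3 (x y : E3) : inner ℝ x y = x 0 * y 0 + x 1 * y 1 + x 2 * y 2 := by
  rw [PiLp.inner_apply, Fin.sum_univ_three]
  simp
  ring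

lemma sum_ph {R : ℝ} (x : E3) : ∑ i, fderiv ℝ (ph R i) x (ee i)
    = 3 * KK R (‖x‖ ^ 2) + 2 * ‖x‖ ^ 2 * KK' R (‖x‖ ^ 2) := by
  have h : ∀ i, fderiv ℝ (ph R i) x (ee i) = KK R (‖x‖ ^ 2) + 2 * (x i) ^ 2 * KK' R (‖x‖ ^ 2) := by
    intro i
    rw [(ph_fd i x).fderiv]
    have h1 : inner ℝ (ee i) (ee i) = (1:ℝ) := by
      rw [inner_ee]; unfold ee; simp
    have h2 : inner ℝ x (ee i) = x i := by rw [real_inner_comm, inner_ee]
    simp only [add_apply, smul_apply, innerSL_apply_apply,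
      smul_eq_mul, h1, h2, inner_ee, nsmul_eq_mul]
    push_cast
    ring
  simp only [h, Fin.sum_univ_three]
  rw [norm_sq3]
  ring

lemma div_eq {R : ℝ} (hR : 2 ≤ R) (x : E3) : ∑ i, fderiv ℝ (ph R i) x (ee i) = b1 x - bR R x := by
  rw [sum_ph]
  have hR0 : 0 < R := by linarith
  set r := ‖x‖ with hr
  rcases eq_or_lt_of_le (norm_nonneg x) with h0 | h0
  · rw [← hr] at h0
    unfold b1 bR
    rw [← hr, ← h0, KK_small (by norm_num)]
    simp
  · rw [← hr] at h0
    have e1 : S' (r ^ 2 - 1) * S (2 - r ^ 2 / R ^ 2) = S' (r ^ 2 - 1) := by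
      rcases le_or_gt (r ^ 2) 2 with h | h
      · rw [S_one, mul_one]
        have : r ^ 2 / R ^ 2 ≤ 1 := by
          rw [div_le_one (by positivity)]; nlinarith
        linarith
      · rw [S'_one (by linarith), zero_mul]
    have e2 : S (r ^ 2 - 1) * S' (2 - r ^ 2 / R ^ 2) = S' (2 - r ^ 2 / R ^ 2) := by
      rcases le_or_gt (r ^ 2) 2 with h | h
      · rw [S'_one (x := 2 - r ^ 2 / R ^ 2), mul_zero]
        have : r ^ 2 / R ^ 2 ≤ 1 := by
          rw [div_le_one (by positivity)]; nlinarith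
        linarith
      · rw [S_one (by linarith), one_mul]
    unfold KK' KK kk' b1 bR
    have p1 : (r ^ 2) ^ (-(3/2) : ℝ) = (r ^ 3)⁻¹ := rpow_32 h0
    have p2 : (r ^ 2) ^ (-(5/2) : ℝ) = (r ^ 5)⁻¹ := by
      rw [← Real.rpow_natCast, ← Real.rpow_natCast, ← Real.rpow_mul h0.le, ← Real.rpow_neg h0.le]
      norm_num
    rw [← hr, p1, p2]
    have e3 : S (r ^ 2 - 1) * (S' (2 - r ^ 2 / R ^ 2) / R ^ 2) = S' (2 - r ^ 2 / R ^ 2) / R ^ 2 := by
      rw [← mul_div_assoc, e2]
    rw [e1, e3]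
    have hR0' : R ≠ 0 := hR0.ne'
    field_simp
    ring

lemma ph_cd {R : ℝ} (i : Fin 3) : ContDiff ℝ ∞ (ph R i) := by
  rw [contDiff_iff_contDiffAt]
  intro x
  have h1 : ContDiff ℝ ∞ (fun x : E3 => ‖x‖ ^ 2) := contDiff_norm_sq ℝ
  rcases lt_or_ge (‖x‖ ^ 2) 1 with h | h
  · have h2 : ph R i =ᶠ[𝓝 x] fun _ => 0 := by
      have : {y : E3 | ‖y‖ ^ 2 < 1} ∈ 𝓝 x := (isOpen_lt h1.continuous continuous_const).mem_nhds h
      filter_upwards [this] with y hy
      unfold ph
      rw [KK_small (le_of_lt hy), zero_mul]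
    exact contDiffAt_const.congr_of_eventuallyEq h2
  · have hu0 : (‖x‖ ^ 2) ≠ 0 := by linarith
    have h2 : ContDiffAt ℝ ∞ (KK R) (‖x‖ ^ 2) := by
      have a1 : ContDiff ℝ ∞ (kk R) :=
        (S_cd.comp (contDiff_id.sub contDiff_const)).mul (S_cd.comp (contDiff_const.sub (contDiff_id.div_const _)))
      exact a1.contDiffAt.mul (Real.contDiffAt_rpow_const_of_ne hu0)
    have h3 : ContDiffAt ℝ ∞ (fun x : E3 => KK R (‖x‖ ^ 2)) x :=
      ContDiffAt.comp (g := KK R) (f := fun x : E3 => ‖x‖ ^ 2) x h2 h1.contDiffAt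
    have h4 : ContDiff ℝ ∞ (fun x : E3 => inner ℝ (ee i) x) := (innerSL ℝ (ee i)).contDiff
    exact h3.mul h4.contDiffAt

lemma ph_tsupp {R : ℝ} (hR : 0 < R) (i : Fin 3) : tsupport (ph R i) ⊆ {x | ‖x‖ ^ 2 ≤ 2 * R ^ 2} := by
  refine closure_minimal ?_ (isClosed_le (by fun_prop) continuous_const)
  intro x hx
  by_contra hcon
  apply hx
  show ph R i x = 0
  unfold ph
  rw [KK_big hR (not_le.1 hcon).le, zero_mul]

lemma ph_supp {R : ℝ} (hR : 0 < R) (i : Fin 3) : HasCompactSupport (ph R i) := by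
  refine IsCompact.of_isClosed_subset (isCompact_closedBall (0:E3) (2 * R)) (isClosed_tsupport _) ?_
  refine (ph_tsupp hR i).trans fun x hx => ?_
  rw [mem_closedBall_zero_iff]
  have h1 : ‖x‖ ^ 2 ≤ 2 * R ^ 2 := hx
  have : ‖x‖ ^ 2 ≤ (2 * R) ^ 2 := by nlinarith
  exact le_of_sq_le_sq this (by positivity)

lemma sum_inner_ph {R : ℝ} (q x : E3) : ∑ i, inner ℝ q (ee i) * ph R i x = inner ℝ q (XR R x) := by
  unfold XR ph
  rw [real_inner_smul_right, inner3, Fin.sum_univ_three]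
  have h : ∀ i, inner ℝ q (ee i) = q i := fun i => by rw [real_inner_comm, inner_ee]
  simp only [h, inner_ee]
  ring

lemma XR_cont {R : ℝ} : Continuous (XR R) := by
  have h : ∀ i, Continuous (ph R i) := fun i => (ph_cd i).continuous
  have e : XR R = fun x => WithLp.toLp 2 (fun i => ph R i x) := by
    funext x
    ext i
    unfold XR ph
    simp [inner_ee]
  rw [e]
  exact (PiLp.continuous_toLp 2 _).comp (continuous_pi h)

lemma XR_supp {R : ℝ} (hR : 0 < R) : HasCompactSupport (XR R) := by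
  refine HasCompactSupport.intro (isCompact_closedBall (0:E3) (2 * R)) fun x hx => ?_
  rw [mem_closedBall_zero_iff, not_le] at hx
  unfold XR
  rw [KK_big hR (by nlinarith [norm_nonneg x]), zero_smul]

/-- integrability of the terms in `log_test` -/
lemma log_test_int {u : E3 → ℝ} {g : E3 → E3} (h : WG u g) {c : ℝ} (hc : 0 < c)
    {φ : E3 → ℝ} (hφ : ContDiff ℝ ∞ φ) (hφc : HasCompactSupport φ) (v : E3)
    (hu : ∀ x ∈ tsupport φ, c ≤ u x) :
    Integrable (fun x => Real.log (u x) * fderiv ℝ φ x v) ∧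
    Integrable (fun x => inner ℝ ((u x)⁻¹ • g x) v * φ x) := by
  have hφm : MemLp φ 2 volume := hφ.continuous.memLp_of_hasCompactSupport hφc
  have hφdc : Continuous (fun x => fderiv ℝ φ x v) :=
    (hφ.continuous_fderiv (by simp)).clm_apply continuous_const
  have hφds : HasCompactSupport (fun x => fderiv ℝ φ x v) := hφc.fderiv_apply (𝕜 := ℝ) v
  have hφi : Integrable (fun x => fderiv ℝ φ x v) := hφdc.integrable_of_hasCompactSupport hφds
  have hzero : ∀ x, x ∉ tsupport φ → φ x = 0 ∧ fderiv ℝ φ x v = 0 := by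
    intro x hx
    refine ⟨image_eq_zero_of_notMem_tsupport hx, ?_⟩
    have : fderiv ℝ φ x = 0 := by
      by_contra hne
      exact hx ((support_fderiv_subset ℝ) (Function.mem_support.mpr hne))
    rw [this]; rfl
  obtain ⟨Cb, hCb⟩ := hφds.exists_bound_of_continuous hφdc
  constructor
  · have hi : Integrable (fun x => |Real.log c| * |fderiv ℝ φ x v| + u x ^ 2 * Cb) :=
      (hφi.abs.const_mul _).add ((isq' h.u2).mul_const _)
    refine hi.mono' ?_ (ae_of_all _ fun x => ?_)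
    · exact (Real.measurable_log.comp_aemeasurable h.u2.1.aemeasurable).aestronglyMeasurable.mul
        hφdc.aestronglyMeasurable
    by_cases hx : x ∈ tsupport φ
    · have h1 := hu x hx
      have h0 : 0 < u x := lt_of_lt_of_le hc h1
      have h3 := Real.log_le_log hc h1
      have h4 := Real.log_le_sub_one_of_pos h0
      have h5 : |Real.log (u x)| ≤ |Real.log c| + u x ^ 2 := by
        rw [abs_le]
        have := neg_abs_le (Real.log c)
        have := abs_nonneg (Real.log c)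
        have := sq_nonneg (u x)
        constructor
        · linarith
        · nlinarith [sq_nonneg (u x - 1)]
      rw [norm_mul, Real.norm_eq_abs, Real.norm_eq_abs]
      have h6 := mul_le_mul_of_nonneg_right h5 (abs_nonneg (fderiv ℝ φ x v))
      have h7 := mul_le_mul_of_nonneg_left (hCb x) (sq_nonneg (u x))
      rw [Real.norm_eq_abs] at h7
      linarith
    · rw [(hzero x hx).2, mul_zero, norm_zero]
      have := mul_nonneg (sq_nonneg (u x)) ((norm_nonneg _).trans (hCb x))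
      simpa using this
  · have hb1 : Integrable (fun x => c⁻¹ * ‖v‖ * (‖g x‖ * |φ x|)) :=
      (h.g2.norm.integrable_mul hφm.abs).const_mul _
    refine hb1.mono' ?_ (ae_of_all _ fun x => ?_)
    · exact ((h.u2.1.aemeasurable.inv.aestronglyMeasurable.smul h.g2.1).inner
        aestronglyMeasurable_const).mul hφ.continuous.aestronglyMeasurable
    by_cases hx : x ∈ tsupport φ
    · have h1 : 0 < u x := lt_of_lt_of_le hc (hu x hx)
      rw [norm_mul, Real.norm_eq_abs, Real.norm_eq_abs]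
      have b1 := abs_real_inner_le_norm ((u x)⁻¹ • g x) v
      rw [norm_smul, Real.norm_eq_abs] at b1
      have b2 : |(u x)⁻¹| ≤ c⁻¹ := by
        rw [abs_of_pos (by positivity)]
        exact inv_anti₀ hc (hu x hx)
      have b3 := mul_le_mul_of_nonneg_right (mul_le_mul_of_nonneg_right b2 (norm_nonneg (g x)))
        (norm_nonneg v)
      have b4 := mul_le_mul_of_nonneg_right (b1.trans b3) (abs_nonneg (φ x))
      refine b4.trans (le_of_eq ?_)
      ring
    · rw [(hzero x hx).1]; simp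

/-- **the flux identity** -/
theorem flux {u : E3 → ℝ} {g : E3 → E3} (h : WG u g) {c R : ℝ} (hc : 0 < c) (hR : 2 ≤ R)
    (hu : ∀ x : E3, ‖x‖ ^ 2 ≤ 2 * R ^ 2 → c ≤ u x) :
    Integrable (fun x => inner ℝ ((u x)⁻¹ • g x) (XR R x)) ∧
    Integrable (fun x => Real.log (u x) * (b1 x - bR R x)) ∧
    ∫ x, inner ℝ ((u x)⁻¹ • g x) (XR R x) = -∫ x, Real.log (u x) * (b1 x - bR R x) := by
  have hR0 : 0 < R := by linarith
  have hts : ∀ i, ∀ x ∈ tsupport (ph R i), c ≤ u x := fun i x hx => hu x (ph_tsupp hR0 i hx)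
  have hI := fun i => log_test_int h hc (ph_cd i) (ph_supp hR0 i) (ee i) (hts i)
  have hE := fun i => h.log_test hc (ph_cd i) (ph_supp hR0 i) (ee i) (hts i)
  have e1 : ∀ x, Real.log (u x) * (b1 x - bR R x) = ∑ i, Real.log (u x) * fderiv ℝ (ph R i) x (ee i) := by
    intro x
    rw [← div_eq hR x, Finset.mul_sum]
  have e2 : ∀ x, inner ℝ ((u x)⁻¹ • g x) (XR R x) = ∑ i, inner ℝ ((u x)⁻¹ • g x) (ee i) * ph R i x :=
    fun x => (sum_inner_ph _ _).symm
  simp only [e1, e2]
  refine ⟨integrable_finsetSum _ fun i _ => (hI i).2, integrable_finsetSum _ fun i _ => (hI i).1, ?_⟩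
  rw [integral_finsetSum _ fun i _ => (hI i).2, integral_finsetSum _ fun i _ => (hI i).1,
    ← Finset.sum_neg_distrib]
  refine Finset.sum_congr rfl fun i _ => ?_
  rw [hE i, neg_neg]

end Pool.Agent.N288.TFW
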