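import Pool.Agent.N288.TFW.Chain

/-!
# Weak gradient of `√(u₁² + u₂²)` and of logarithms
-/

set_option autoImplicit false

open MeasureTheory Filter Topology Set
open scoped ENNReal NNReal Convolution ContDiff

namespace Pool.Agent.N288.TFW

lemma memLp_vec_of_sq_le {f : E3 → E3} {a b : E3 → ℝ} {c : ℝ} (hf : AEStronglyMeasurable f volume)
    (ha : Integrable a) (hb : Integrable b)
    (h : ∀ x, ‖f x‖ ^ 2 ≤ c * (a x + b x)) :
    MemLp f 2 volume ∧ ∫ x, ‖f x‖ ^ 2 ≤ c * ((∫ x, a x) + ∫ x, b x) := by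
  have hi : Integrable (fun x => c * (a x + b x)) := (ha.add hb).const_mul c
  have hsq : Integrable (fun x => ‖f x‖ ^ 2) := by
    refine hi.mono' (hf.norm.pow 2) (ae_of_all _ fun x => ?_)
    rw [Real.norm_of_nonneg (sq_nonneg _)]
    exact h x
  refine ⟨(memLp_two_iff_integrable_sq_norm hf).2 hsq, ?_⟩
  rw [← integral_add ha hb, ← integral_const_mul]
  exact integral_mono hsq hi h

/-- the gradient of `√(u₁² + u₂²)` -/
noncomputable def sg (a b : ℝ) (g1 g2 : E3) : E3 := (√(a ^ 2 + b ^ 2))⁻¹ • (a • g1 + b • g2)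

lemma sq_comb_le (a b : ℝ) (g1 g2 : E3) :
    ‖a • g1 + b • g2‖ ^ 2 ≤ (a ^ 2 + b ^ 2) * (‖g1‖ ^ 2 + ‖g2‖ ^ 2) := by
  have h1 : ‖a • g1 + b • g2‖ ≤ |a| * ‖g1‖ + |b| * ‖g2‖ := by
    refine (norm_add_le _ _).trans ?_
    rw [norm_smul, norm_smul, Real.norm_eq_abs, Real.norm_eq_abs]
  have h2 := pow_le_pow_left₀ (norm_nonneg _) h1 2
  refine h2.trans ?_
  have h3 := sq_nonneg (|a| * ‖g2‖ - |b| * ‖g1‖)
  have ha := sq_abs a
  have hb := sq_abs b
  rw [← ha, ← hb]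
  nlinarith

lemma sg_sq_le (a b : ℝ) (g1 g2 : E3) : ‖sg a b g1 g2‖ ^ 2 ≤ ‖g1‖ ^ 2 + ‖g2‖ ^ 2 := by
  unfold sg
  rw [norm_smul, mul_pow, Real.norm_eq_abs, sq_abs, inv_pow, Real.sq_sqrt (by positivity)]
  rcases eq_or_lt_of_le (show 0 ≤ a ^ 2 + b ^ 2 by positivity) with h | h
  · rw [← h]; simp; positivity
  · rw [inv_mul_le_iff₀ h]
    exact sq_comb_le a b g1 g2

lemma hasFDerivAt_sqrt_eps {ε : ℝ} (hε : 0 < ε) (p : ℝ × ℝ) :
    HasFDerivAt (fun p : ℝ × ℝ => √(p.1 ^ 2 + p.2 ^ 2 + ε ^ 2))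
      ((p.1 / √(p.1 ^ 2 + p.2 ^ 2 + ε ^ 2)) • ContinuousLinearMap.fst ℝ ℝ ℝ
      + (p.2 / √(p.1 ^ 2 + p.2 ^ 2 + ε ^ 2)) • ContinuousLinearMap.snd ℝ ℝ ℝ) p := by
  have h0 : 0 < p.1 ^ 2 + p.2 ^ 2 + ε ^ 2 := by positivity
  have h1 : HasFDerivAt (fun p : ℝ × ℝ => p.1) (ContinuousLinearMap.fst ℝ ℝ ℝ) p := hasFDerivAt_fst
  have h2 : HasFDerivAt (fun p : ℝ × ℝ => p.2) (ContinuousLinearMap.snd ℝ ℝ ℝ) p := hasFDerivAt_snd
  have h3 := (((h1.pow 2).add (h2.pow 2)).add_const (ε ^ 2)).sqrt h0.ne'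
  refine h3.congr_fderiv ?_
  have h4 : √(p.1 ^ 2 + p.2 ^ 2 + ε ^ 2) ≠ 0 := (Real.sqrt_pos.2 h0).ne'
  ext <;> simp <;> field_simp

lemma div_sqrt_le {a b ε : ℝ} (hε : 0 < ε) : |a / √(a ^ 2 + b ^ 2 + ε ^ 2)| ≤ 1 := by
  have h0 : 0 < a ^ 2 + b ^ 2 + ε ^ 2 := by positivity
  rw [abs_div, abs_of_pos (Real.sqrt_pos.2 h0), div_le_one (Real.sqrt_pos.2 h0)]
  exact Real.abs_le_sqrt (by nlinarith)

theorem WG.sqrt_sum {u1 u2 : E3 → ℝ} {g1 g2 : E3 → E3} (h1 : WG u1 g1) (h2 : WG u2 g2) :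
    WG (fun x => √(u1 x ^ 2 + u2 x ^ 2)) (fun x => sg (u1 x) (u2 x) (g1 x) (g2 x)) := by
  have hm1 : AEStronglyMeasurable (fun x => √(u1 x ^ 2 + u2 x ^ 2)) volume :=
    Real.continuous_sqrt.comp_aestronglyMeasurable ((h1.u2.1.pow 2).add (h2.u2.1.pow 2))
  have hinv : AEStronglyMeasurable (fun x => (√(u1 x ^ 2 + u2 x ^ 2))⁻¹) volume :=
    hm1.aemeasurable.inv.aestronglyMeasurable
  have hm2 : AEStronglyMeasurable (fun x => sg (u1 x) (u2 x) (g1 x) (g2 x)) volume :=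
    hinv.smul ((h1.u2.1.smul h1.g2.1).add (h2.u2.1.smul h2.g2.1))
  refine ⟨(memLp_of_sq_le (c := 1) hm1 (isq' h1.u2) (isq' h2.u2) (fun x => ?_)).1,
    (memLp_vec_of_sq_le (c := 1) hm2 (isq h1.g2) (isq h2.g2) (fun x => ?_)).1, ?_⟩
  · rw [Real.sq_sqrt (by positivity), one_mul]
  · rw [one_mul]; exact sg_sq_le _ _ _ _
  intro φ hφ hφc v
  let ε : ℕ → ℝ := fun n => 1 / ((n:ℝ) + 1)
  have hε : ∀ n, 0 < ε n := fun n => by positivity
  have hεl : Tendsto ε atTop (𝓝 0) := tendsto_one_div_add_atTop_nhds_zero_nat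
  have hε1 : ∀ n, ε n ≤ 1 := fun n => by
    show 1 / ((n:ℝ) + 1) ≤ 1
    rw [div_le_one (by positivity)]
    have : (0:ℝ) ≤ n := Nat.cast_nonneg n
    linarith
  have hid : ∀ n, _ := fun n => WG.comp2 h1 h2 (fun p => √(p.1 ^ 2 + p.2 ^ 2 + ε n ^ 2))
    (fun p => p.1 / √(p.1 ^ 2 + p.2 ^ 2 + ε n ^ 2)) (fun p => p.2 / √(p.1 ^ 2 + p.2 ^ 2 + ε n ^ 2))
    (hasFDerivAt_sqrt_eps (hε n))
    (by
      refine Continuous.div (by fun_prop) (by fun_prop) fun p => ?_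
      have := hε n
      exact (Real.sqrt_pos.2 (by positivity)).ne')
    (by
      refine Continuous.div (by fun_prop) (by fun_prop) fun p => ?_
      have := hε n
      exact (Real.sqrt_pos.2 (by positivity)).ne')
    (L := 1) (fun p => div_sqrt_le (hε n))
    (fun p => by
      have := div_sqrt_le (a := p.2) (b := p.1) (hε n)
      rwa [add_comm (p.2 ^ 2) (p.1 ^ 2)] at this) φ hφ hφc v
  simp only at hid
  have hφm : MemLp φ 2 volume := hφ.continuous.memLp_of_hasCompactSupport hφc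
  have hφdc : Continuous (fun x => fderiv ℝ φ x v) :=
    (hφ.continuous_fderiv (by simp)).clm_apply continuous_const
  have hφds : HasCompactSupport (fun x => fderiv ℝ φ x v) := hφc.fderiv_apply (𝕜 := ℝ) v
  have hφdm : MemLp (fun x => fderiv ℝ φ x v) 2 volume := hφdc.memLp_of_hasCompactSupport hφds
  have hφi : Integrable (fun x => fderiv ℝ φ x v) := hφdc.integrable_of_hasCompactSupport hφds
  have hlim1 : Tendsto (fun n => ∫ x, √(u1 x ^ 2 + u2 x ^ 2 + ε n ^ 2) * fderiv ℝ φ x v) atTop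
      (𝓝 (∫ x, √(u1 x ^ 2 + u2 x ^ 2) * fderiv ℝ φ x v)) := by
    refine tendsto_integral_of_dominated_convergence
      (fun x => |u1 x * fderiv ℝ φ x v| + |u2 x * fderiv ℝ φ x v| + |fderiv ℝ φ x v|) ?_ ?_ ?_ ?_
    · intro n
      exact (Real.continuous_sqrt.comp_aestronglyMeasurable
        (((h1.u2.1.pow 2).add (h2.u2.1.pow 2)).add aestronglyMeasurable_const)).mul
        hφdc.aestronglyMeasurable
    · exact ((h1.u2.integrable_mul hφdm).abs.add (h2.u2.integrable_mul hφdm).abs).add hφi.abs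
    · intro n
      refine ae_of_all _ fun x => ?_
      have h3 : √(u1 x ^ 2 + u2 x ^ 2 + ε n ^ 2) ≤ |u1 x| + |u2 x| + 1 := by
        rw [Real.sqrt_le_left (by positivity)]
        have e1 := sq_abs (u1 x)
        have e2 := sq_abs (u2 x)
        have e3 : ε n ^ 2 ≤ 1 := by nlinarith [hε n, hε1 n]
        nlinarith [abs_nonneg (u1 x), abs_nonneg (u2 x), mul_nonneg (abs_nonneg (u1 x)) (abs_nonneg (u2 x))]
      rw [norm_mul, Real.norm_of_nonneg (Real.sqrt_nonneg _), Real.norm_eq_abs, abs_mul, abs_mul]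
      have := mul_le_mul_of_nonneg_right h3 (abs_nonneg (fderiv ℝ φ x v))
      linarith
    · refine ae_of_all _ fun x => ?_
      refine Tendsto.mul_const _ ?_
      have h3 : Tendsto (fun n => u1 x ^ 2 + u2 x ^ 2 + ε n ^ 2) atTop (𝓝 (u1 x ^ 2 + u2 x ^ 2)) := by
        have := (hεl.pow 2).const_add (u1 x ^ 2 + u2 x ^ 2)
        simpa using this
      exact (Real.continuous_sqrt.tendsto _).comp h3
  have hlim2 : Tendsto (fun n => ∫ x, inner ℝ ((u1 x / √(u1 x ^ 2 + u2 x ^ 2 + ε n ^ 2)) • g1 x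
      + (u2 x / √(u1 x ^ 2 + u2 x ^ 2 + ε n ^ 2)) • g2 x) v * φ x) atTop
      (𝓝 (∫ x, inner ℝ (sg (u1 x) (u2 x) (g1 x) (g2 x)) v * φ x)) := by
    have hb1 : Integrable (fun x => (‖g1 x‖ + ‖g2 x‖) * (‖v‖ * φ x)) := by
      have a1 : MemLp (fun x => ‖g1 x‖ + ‖g2 x‖) 2 volume := h1.g2.norm.add h2.g2.norm
      have a2 : MemLp (fun x => ‖v‖ * φ x) 2 volume := hφm.const_mul _
      exact a1.integrable_mul a2
    refine tendsto_integral_of_dominated_convergence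
      (fun x => |(‖g1 x‖ + ‖g2 x‖) * (‖v‖ * φ x)|) ?_ hb1.abs ?_ ?_
    · intro n
      have a0 : AEStronglyMeasurable (fun x => √(u1 x ^ 2 + u2 x ^ 2 + ε n ^ 2)) volume :=
        Real.continuous_sqrt.comp_aestronglyMeasurable
          (((h1.u2.1.pow 2).add (h2.u2.1.pow 2)).add aestronglyMeasurable_const)
      have a1 : AEStronglyMeasurable (fun x => u1 x / √(u1 x ^ 2 + u2 x ^ 2 + ε n ^ 2)) volume :=
        (h1.u2.1.aemeasurable.div a0.aemeasurable).aestronglyMeasurable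
      have a2 : AEStronglyMeasurable (fun x => u2 x / √(u1 x ^ 2 + u2 x ^ 2 + ε n ^ 2)) volume :=
        (h2.u2.1.aemeasurable.div a0.aemeasurable).aestronglyMeasurable
      exact (((a1.smul h1.g2.1).add (a2.smul h2.g2.1)).inner aestronglyMeasurable_const).mul
        hφ.continuous.aestronglyMeasurable
    · intro n
      refine ae_of_all _ fun x => ?_
      rw [norm_mul, Real.norm_eq_abs, Real.norm_eq_abs]
      have b1 := abs_real_inner_le_norm ((u1 x / √(u1 x ^ 2 + u2 x ^ 2 + ε n ^ 2)) • g1 x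
        + (u2 x / √(u1 x ^ 2 + u2 x ^ 2 + ε n ^ 2)) • g2 x) v
      have b2 : ‖(u1 x / √(u1 x ^ 2 + u2 x ^ 2 + ε n ^ 2)) • g1 x
        + (u2 x / √(u1 x ^ 2 + u2 x ^ 2 + ε n ^ 2)) • g2 x‖ ≤ ‖g1 x‖ + ‖g2 x‖ := by
        refine (norm_add_le _ _).trans ?_
        rw [norm_smul, norm_smul, Real.norm_eq_abs, Real.norm_eq_abs]
        have c1 := div_sqrt_le (a := u1 x) (b := u2 x) (hε n)
        have c2 := div_sqrt_le (a := u2 x) (b := u1 x) (hε n)
        rw [add_comm (u2 x ^ 2) (u1 x ^ 2)] at c2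
        have := mul_le_mul_of_nonneg_right c1 (norm_nonneg (g1 x))
        have := mul_le_mul_of_nonneg_right c2 (norm_nonneg (g2 x))
        linarith
      have b3 := b1.trans (mul_le_mul_of_nonneg_right b2 (norm_nonneg v))
      have b4 := mul_le_mul_of_nonneg_right b3 (abs_nonneg (φ x))
      refine b4.trans (le_of_eq ?_)
      rw [abs_mul, abs_mul, abs_of_nonneg (norm_nonneg v), abs_of_nonneg (by positivity : 0 ≤ ‖g1 x‖ + ‖g2 x‖)]
      ring
    · refine ae_of_all _ fun x => ?_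
      refine Tendsto.mul_const _ ?_
      refine Tendsto.inner ?_ tendsto_const_nhds
      unfold sg
      rcases eq_or_lt_of_le (show 0 ≤ u1 x ^ 2 + u2 x ^ 2 by positivity) with h | h
      · have z1 : u1 x = 0 := by nlinarith [sq_nonneg (u1 x), sq_nonneg (u2 x)]
        have z2 : u2 x = 0 := by nlinarith [sq_nonneg (u1 x), sq_nonneg (u2 x)]
        simp [z1, z2]
      · have h3 : Tendsto (fun n => √(u1 x ^ 2 + u2 x ^ 2 + ε n ^ 2)) atTop (𝓝 √(u1 x ^ 2 + u2 x ^ 2)) := by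
          have := (hεl.pow 2).const_add (u1 x ^ 2 + u2 x ^ 2)
          have h4 : Tendsto (fun n => u1 x ^ 2 + u2 x ^ 2 + ε n ^ 2) atTop (𝓝 (u1 x ^ 2 + u2 x ^ 2)) := by
            simpa using this
          exact (Real.continuous_sqrt.tendsto _).comp h4
        have h5 : √(u1 x ^ 2 + u2 x ^ 2) ≠ 0 := (Real.sqrt_pos.2 h).ne'
        have h6 := ((tendsto_const_nhds (x := u1 x)).div h3 h5).smul_const (g1 x)
        have h7 := ((tendsto_const_nhds (x := u2 x)).div h3 h5).smul_const (g2 x)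
        have h8 := h6.add h7
        have e9 : (√(u1 x ^ 2 + u2 x ^ 2))⁻¹ • (u1 x • g1 x + u2 x • g2 x)
            = (u1 x / √(u1 x ^ 2 + u2 x ^ 2)) • g1 x + (u2 x / √(u1 x ^ 2 + u2 x ^ 2)) • g2 x := by
          rw [smul_add, smul_smul, smul_smul, div_eq_inv_mul, div_eq_inv_mul]
        rw [e9]
        exact h8
  refine tendsto_nhds_unique hlim1 (hlim2.neg.congr fun n => ?_)
  rw [hid n]

lemma hasFDerivAt_log_eps {ε : ℝ} (hε : 0 < ε) (p : ℝ × ℝ) :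
    HasFDerivAt (fun p : ℝ × ℝ => 1/2 * Real.log (1 + p.1 ^ 2 / ε ^ 2))
      ((p.1 / (p.1 ^ 2 + ε ^ 2)) • ContinuousLinearMap.fst ℝ ℝ ℝ
      + (0 : ℝ) • ContinuousLinearMap.snd ℝ ℝ ℝ) p := by
  have h0 : 0 < 1 + p.1 ^ 2 / ε ^ 2 := by positivity
  have h1 : HasFDerivAt (fun p : ℝ × ℝ => p.1) (ContinuousLinearMap.fst ℝ ℝ ℝ) p := hasFDerivAt_fst
  have h2 : HasFDerivAt (fun p : ℝ × ℝ => 1 + p.1 ^ 2 * (ε ^ 2)⁻¹) _ p :=
    (((h1.pow 2).mul_const ((ε ^ 2)⁻¹)).const_add 1)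
  have h0' : 0 < 1 + p.1 ^ 2 * (ε ^ 2)⁻¹ := by positivity
  have h3 := (h2.log h0'.ne').const_mul (1/2 : ℝ)
  have e : (fun p : ℝ × ℝ => 1/2 * Real.log (1 + p.1 ^ 2 / ε ^ 2))
      = fun p : ℝ × ℝ => 1/2 * Real.log (1 + p.1 ^ 2 * (ε ^ 2)⁻¹) := by
    funext p; simp only [div_eq_mul_inv]
  rw [e]
  refine h3.congr_fderiv ?_
  ext <;> simp
  field_simp
  ring

lemma div_eps_le {a ε : ℝ} (hε : 0 < ε) : |a / (a ^ 2 + ε ^ 2)| ≤ 1 / ε := by
  have h0 : 0 < a ^ 2 + ε ^ 2 := by positivity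
  rw [abs_div, abs_of_pos h0, div_le_div_iff₀ h0 hε]
  nlinarith [sq_nonneg (|a| - ε), sq_abs a, abs_nonneg a]

/-- the function `½ log (1 + u²/ε²)` and its gradient -/
theorem WG.log_eps {u : E3 → ℝ} {g : E3 → E3} (h : WG u g) {ε : ℝ} (hε : 0 < ε) :
    WG (fun x => 1/2 * Real.log (1 + u x ^ 2 / ε ^ 2)) (fun x => (u x / (u x ^ 2 + ε ^ 2)) • g x) := by
  have hF : Continuous (fun a : ℝ => 1/2 * Real.log (1 + a ^ 2 / ε ^ 2)) := by
    refine continuous_const.mul (Continuous.log (by fun_prop) fun a => ?_)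
    have : 0 < 1 + a ^ 2 / ε ^ 2 := by positivity
    exact this.ne'
  have hA : Continuous (fun a : ℝ => a / (a ^ 2 + ε ^ 2)) := by
    refine Continuous.div (by fun_prop) (by fun_prop) fun p => ?_
    have : 0 < p ^ 2 + ε ^ 2 := by positivity
    exact this.ne'
  have hm1 : AEStronglyMeasurable (fun x => 1/2 * Real.log (1 + u x ^ 2 / ε ^ 2)) volume :=
    hF.comp_aestronglyMeasurable h.u2.1
  have hm2 : AEStronglyMeasurable (fun x => (u x / (u x ^ 2 + ε ^ 2)) • g x) volume :=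
    (hA.comp_aestronglyMeasurable h.u2.1).smul h.g2.1
  refine ⟨(memLp_of_sq_le (c := (1 / ε) ^ 2) (b := fun _ => 0) hm1 (isq' h.u2) (integrable_zero _ _ _)
    (fun x => ?_)).1,
    (memLp_vec_of_sq_le (c := (1 / ε) ^ 2) (b := fun _ => 0) hm2 (isq h.g2) (integrable_zero _ _ _)
    (fun x => ?_)).1, ?_⟩
  · have h1 : 0 ≤ Real.log (1 + u x ^ 2 / ε ^ 2) := Real.log_nonneg (by
      have : 0 ≤ u x ^ 2 / ε ^ 2 := by positivity
      linarith)
    have h2 : Real.log (1 + u x ^ 2 / ε ^ 2) ≤ 2 * (|u x| / ε) := by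
      have h3 : 1 + u x ^ 2 / ε ^ 2 ≤ (1 + |u x| / ε) ^ 2 := by
        have : (|u x| / ε) ^ 2 = u x ^ 2 / ε ^ 2 := by rw [div_pow, sq_abs]
        nlinarith [show 0 ≤ |u x| / ε by positivity]
      have h4 := Real.log_le_log (by positivity) h3
      rw [Real.log_pow] at h4
      have h5 := Real.log_le_sub_one_of_pos (show 0 < 1 + |u x| / ε by positivity)
      push_cast at h4
      linarith
    have h3 : 1/2 * Real.log (1 + u x ^ 2 / ε ^ 2) ≤ |u x| / ε := by linarith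
    have h4 := pow_le_pow_left₀ (by positivity : 0 ≤ 1/2 * Real.log (1 + u x ^ 2 / ε ^ 2)) h3 2
    refine h4.trans (le_of_eq ?_)
    rw [div_pow, sq_abs]; ring
  · rw [norm_smul, mul_pow, Real.norm_eq_abs, add_zero]
    exact mul_le_mul_of_nonneg_right (pow_le_pow_left₀ (abs_nonneg _) (div_eps_le hε) 2) (by positivity)
  intro φ hφ hφc v
  have := WG.comp2 h h (fun p => 1/2 * Real.log (1 + p.1 ^ 2 / ε ^ 2))
    (fun p => p.1 / (p.1 ^ 2 + ε ^ 2)) (fun _ => 0) (hasFDerivAt_log_eps hε)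
    (hA.comp continuous_fst) continuous_const (L := 1 / ε) (fun p => div_eps_le hε)
    (fun p => by rw [abs_zero]; positivity) φ hφ hφc v
  simpa using this

end Pool.Agent.N288.TFW
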