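import Pool.Agent.N288.TFW.Exist

/-!
# The variation `ρ + t s²` of a relaxed minimiser
-/

set_option autoImplicit false

open MeasureTheory Filter Topology Set Metric
open scoped ENNReal NNReal Convolution ContDiff

namespace Pool.Agent.N288.TFW

open Pool.Agent.TH791.Cl (Nice pot)

variable {k : ℕ}

/-- the varied density -/
noncomputable def rt (ρ s : E3 → ℝ) (t : ℝ) (x : E3) : ℝ := ρ x + t * s x ^ 2

/-- the gradient of `½ log ρ_t` -/
noncomputable def qt (ρ : E3 → ℝ) (g : E3 → E3) (s : E3 → ℝ) (h : E3 → E3) (t : ℝ) (x : E3) : E3 :=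
  (rt ρ s t x)⁻¹ • (√(ρ x) • g x + (t * s x) • h x)

/-- the gradient of `√ρ_t` -/
noncomputable def gt (ρ : E3 → ℝ) (g : E3 → E3) (s : E3 → ℝ) (h : E3 → E3) (t : ℝ) (x : E3) : E3 :=
  √(rt ρ s t x) • qt ρ g s h t x

lemma sqrt_mul_inv' {W : ℝ} (hW : 0 ≤ W) : √W * W⁻¹ = (√W)⁻¹ := by
  rcases eq_or_lt_of_le hW with h | h
  · rw [← h]; simp
  · have h1 : √W ≠ 0 := (Real.sqrt_pos.2 h).ne'
    have h2 : W = √W * √W := (Real.mul_self_sqrt hW).symm
    have h3 : W ≠ 0 := h.ne'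
    rw [mul_inv_eq_iff_eq_mul₀ h3, eq_comm, inv_mul_eq_iff_eq_mul₀ h1]
    exact h2

section
variable {ρ s : E3 → ℝ} {g h : E3 → E3} {t : ℝ}

lemma rt_nonneg (h0 : ∀ x, 0 ≤ ρ x) (ht : 0 ≤ t) (x : E3) : 0 ≤ rt ρ s t x := by
  unfold rt
  have := h0 x
  positivity

lemma gt_eq (hA : Adm ρ g) (ht : 0 ≤ t) (x : E3) :
    gt ρ g s h t x = sg (√(ρ x)) (√t * s x) (g x) (√t • h x) := by
  have hW := rt_nonneg (s := s) hA.nonneg ht x
  have e1 : √(ρ x) ^ 2 + (√t * s x) ^ 2 = rt ρ s t x := by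
    unfold rt
    rw [Real.sq_sqrt (hA.nonneg x), mul_pow, Real.sq_sqrt ht]
  unfold gt qt sg
  rw [e1, smul_smul, sqrt_mul_inv' hW, smul_smul (√t * s x)]
  have e2 : √t * s x * √t = t * s x := by
    calc √t * s x * √t = (√t * √t) * s x := by ring
      _ = t * s x := by rw [Real.mul_self_sqrt ht]
  rw [e2]

lemma gt_sq (hA : Adm ρ g) (ht : 0 ≤ t) (x : E3) :
    ‖gt ρ g s h t x‖ ^ 2 = rt ρ s t x * ‖qt ρ g s h t x‖ ^ 2 := by
  have hW := rt_nonneg (s := s) hA.nonneg ht x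
  unfold gt
  rw [norm_smul, mul_pow, Real.norm_eq_abs, sq_abs, Real.sq_sqrt hW]

lemma rt_NN (hA : Adm ρ g) (hw : NN (fun x => s x ^ 2)) : NN (rt ρ s t) :=
  (hA.NN.add (hw.smul t))

lemma rt_adm (hA : Adm ρ g) (hs : WG s h) (hw : NN (fun x => s x ^ 2)) (ht : 0 ≤ t) :
    Adm (rt ρ s t) (gt ρ g s h t) := by
  have h53 : Integrable (fun x => rt ρ s t x ^ (5/3 : ℝ)) := by
    refine (rt_NN (t := t) hA hw).int53.congr (ae_of_all _ fun x => ?_)
    simp only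
    rw [abs_of_nonneg (rt_nonneg hA.nonneg ht x)]
  have := adm_of_sum (ρ := rt ρ s t) hA.WG (hs.smul (√t)) (fun x => by
    unfold rt
    rw [Real.sq_sqrt (hA.nonneg x), mul_pow, Real.sq_sqrt ht]) h53
  have e : gt ρ g s h t = fun x => sg (√(ρ x)) (√t * s x) (g x) (√t • h x) := by
    funext x; exact gt_eq hA ht x
  rw [e]
  exact this

/-- pointwise kinetic inequality -/
lemma kin_pt (hA : Adm ρ g) (ht : 0 < t) (x : E3) :
    ‖gt ρ g s h t x‖ ^ 2 - ‖g x‖ ^ 2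
      ≤ t * (2 * s x * inner ℝ (h x) (qt ρ g s h t x) - s x ^ 2 * ‖qt ρ g s h t x‖ ^ 2) := by
  rw [gt_sq hA ht.le]
  set q := qt ρ g s h t x with hq
  set W := rt ρ s t x with hW
  have hW0 : 0 ≤ W := rt_nonneg hA.nonneg ht.le x
  have hWe : W = √(ρ x) ^ 2 + t * s x ^ 2 := by
    rw [hW]; unfold rt; rw [Real.sq_sqrt (hA.nonneg x)]
  have hP : W • q = √(ρ x) • g x + (t * s x) • h x := by
    rcases eq_or_lt_of_le hW0 with h0 | h0
    · have z1 : √(ρ x) ^ 2 = 0 := by nlinarith [sq_nonneg (√(ρ x)), mul_nonneg ht.le (sq_nonneg (s x))]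
      have z2 : t * s x ^ 2 = 0 := by nlinarith [sq_nonneg (√(ρ x)), mul_nonneg ht.le (sq_nonneg (s x))]
      have z3 : √(ρ x) = 0 := by simpa using z1
      have z4 : s x = 0 := by
        rcases mul_eq_zero.1 z2 with h1 | h1
        · exact absurd h1 ht.ne'
        · simpa using h1
      rw [← h0, z3, z4]; simp
    · rw [hq]; unfold qt
      rw [← hW, smul_smul, mul_inv_cancel₀ h0.ne', one_smul]
  have h1 : 0 ≤ ‖g x - √(ρ x) • q‖ ^ 2 := by positivity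
  rw [norm_sub_sq_real, real_inner_smul_right, norm_smul, mul_pow, Real.norm_eq_abs, sq_abs] at h1
  have h2 : inner ℝ (W • q) q = W * ‖q‖ ^ 2 := by
    rw [real_inner_smul_left, real_inner_self_eq_norm_sq]
  rw [hP, inner_add_left, real_inner_smul_left, real_inner_smul_left] at h2
  have h3 : √(ρ x) ^ 2 = W - t * s x ^ 2 := by rw [hWe]; ring
  rw [h3] at h1
  nlinarith

lemma sc2 {a b : ℝ} (ha : 0 ≤ a) (hb : 0 ≤ b) :
    3/5 * b ^ (5/3 : ℝ) - 3/5 * a ^ (5/3 : ℝ) ≤ b ^ (2/3 : ℝ) * (b - a) := by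
  rcases eq_or_lt_of_le hb with h | h
  · rw [← h, Real.zero_rpow (by norm_num), Real.zero_rpow (by norm_num)]
    have := Real.rpow_nonneg ha (5/3)
    linarith
  · have h1 := one_add_mul_self_le_rpow_one_add (s := a / b - 1) (by
      have : 0 ≤ a / b := by positivity
      linarith) (p := 5/3) (by norm_num)
    have e1 : 1 + (a / b - 1) = a / b := by ring
    rw [e1, Real.div_rpow ha hb] at h1
    have h2 : 0 < b ^ (5/3 : ℝ) := Real.rpow_pos_of_pos h _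
    have h3 : b ^ (5/3 : ℝ) = b ^ (2/3 : ℝ) * b := by
      nth_rw 3 [← Real.rpow_one b]
      rw [← Real.rpow_add h]; norm_num
    have h4 := mul_le_mul_of_nonneg_left h1 h2.le
    have h5 : b ^ (5/3 : ℝ) * (a ^ (5/3 : ℝ) / b ^ (5/3 : ℝ)) = a ^ (5/3 : ℝ) := by field_simp
    rw [h5] at h4
    have h6 : b ^ (5/3 : ℝ) * (1 + 5/3 * (a / b - 1)) = b ^ (5/3:ℝ) + 5/3 * (b ^ (2/3 : ℝ) * (a - b)) := by
      rw [h3]; field_simp
    rw [h6] at h4
    linarith

/-- the kinetic integrand of the variation -/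
noncomputable def FF (ρ : E3 → ℝ) (g : E3 → E3) (s : E3 → ℝ) (h : E3 → E3) (t : ℝ) (x : E3) : ℝ :=
  2 * s x * inner ℝ (h x) (qt ρ g s h t x) - s x ^ 2 * ‖qt ρ g s h t x‖ ^ 2

lemma qt_meas (hA : Adm ρ g) (hs : WG s h) : AEStronglyMeasurable (qt ρ g s h t) volume := by
  have h1 : AEStronglyMeasurable (rt ρ s t) volume :=
    hA.int.aestronglyMeasurable.add ((hs.u2.1.pow 2).const_mul t)
  have h2 : AEStronglyMeasurable (fun x => (rt ρ s t x)⁻¹) volume := h1.aemeasurable.inv.aestronglyMeasurable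
  have h3 : AEStronglyMeasurable (fun x => t * s x) volume := hs.u2.1.const_mul t
  exact h2.smul ((hA.WG.u2.1.smul hA.g2.1).add (h3.smul hs.g2.1))

lemma sq_q_int (hA : Adm ρ g) (hs : WG s h) (hw : NN (fun x => s x ^ 2)) (ht : 0 < t) :
    Integrable (fun x => s x ^ 2 * ‖qt ρ g s h t x‖ ^ 2) := by
  have h1 : Integrable (fun x => t⁻¹ * ‖gt ρ g s h t x‖ ^ 2) :=
    (isq (rt_adm hA hs hw ht.le).g2).const_mul _
  refine h1.mono' ((hs.u2.1.pow 2).mul ((qt_meas hA hs).norm.pow 2)) (ae_of_all _ fun x => ?_)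
  rw [Real.norm_of_nonneg (by positivity), gt_sq hA ht.le]
  have h2 : s x ^ 2 ≤ t⁻¹ * rt ρ s t x := by
    unfold rt
    rw [le_inv_mul_iff₀ ht]
    have := hA.nonneg x
    linarith
  have h3 := mul_le_mul_of_nonneg_right h2 (sq_nonneg ‖qt ρ g s h t x‖)
  linarith

lemma FF_int (hA : Adm ρ g) (hs : WG s h) (hw : NN (fun x => s x ^ 2)) (ht : 0 < t) :
    Integrable (FF ρ g s h t) := by
  have h1 := sq_q_int hA hs hw ht
  have h2 := isq hs.g2
  have h3 : Integrable (fun x => 2 * s x * inner ℝ (h x) (qt ρ g s h t x)) := by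
    refine (h2.add h1).mono' ((hs.u2.1.const_mul 2).mul (hs.g2.1.inner (qt_meas hA hs)))
      (ae_of_all _ fun x => ?_)
    rw [norm_mul, norm_mul, Real.norm_eq_abs, Real.norm_eq_abs, Real.norm_eq_abs]
    have h4 := abs_real_inner_le_norm (h x) (qt ρ g s h t x)
    have h5 := mul_le_mul_of_nonneg_left h4 (show 0 ≤ |(2:ℝ)| * |s x| by positivity)
    refine h5.trans ?_
    rw [abs_two]
    show 2 * |s x| * (‖h x‖ * ‖qt ρ g s h t x‖) ≤ ‖h x‖ ^ 2 + s x ^ 2 * ‖qt ρ g s h t x‖ ^ 2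
    have := sq_abs (s x)
    nlinarith [sq_nonneg (‖h x‖ - |s x| * ‖qt ρ g s h t x‖)]
  exact h3.sub h1

lemma p_int (hA : Adm ρ g) (hs : WG s h) (hw : NN (fun x => s x ^ 2)) (ht : 0 < t) :
    Integrable (fun x => rt ρ s t x ^ (2/3 : ℝ) * s x ^ 2) := by
  have h0 := rt_adm hA hs hw ht.le
  have h1 : Integrable (fun x => t⁻¹ * rt ρ s t x ^ (5/3 : ℝ)) := h0.int53.const_mul _
  refine h1.mono' ?_ (ae_of_all _ fun x => ?_)
  · exact (h0.int.aestronglyMeasurable.aemeasurable.pow_const _).aestronglyMeasurable.mul (hs.u2.1.pow 2)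
  · have hW := rt_nonneg (s := s) hA.nonneg ht.le x
    rw [Real.norm_of_nonneg (mul_nonneg (Real.rpow_nonneg hW _) (sq_nonneg _))]
    have h2 : s x ^ 2 ≤ t⁻¹ * rt ρ s t x := by
      unfold rt
      rw [le_inv_mul_iff₀ ht]
      have := hA.nonneg x
      linarith
    have h3 := mul_le_mul_of_nonneg_left h2 (Real.rpow_nonneg hW (2/3))
    refine h3.trans (le_of_eq ?_)
    rcases eq_or_lt_of_le hW with h4 | h4
    · rw [← h4]; simp
    · have : rt ρ s t x ^ (5/3 : ℝ) = rt ρ s t x ^ (2/3 : ℝ) * rt ρ s t x := by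
        nth_rw 3 [← Real.rpow_one (rt ρ s t x)]
        rw [← Real.rpow_add h4]; norm_num
      rw [this]; ring

/-- **The variational inequality.** -/
theorem var_ineq {z : Fin k → ℝ} {R : Fin k → E3} {N0 : ℝ} (hA : Adm ρ g)
    (hmin : ∀ (σ : E3 → ℝ) (f : E3 → E3), Adm σ f → ∫ x, σ x ≤ N0 → EN z R ρ g ≤ EN z R σ f)
    (hs : WG s h) (hw : NN (fun x => s x ^ 2)) (ht : 0 < t)
    (hmass : (∫ x, ρ x) + t * ∫ x, s x ^ 2 ≤ N0) :
    0 ≤ (∫ x, FF ρ g s h t x) + (∫ x, rt ρ s t x ^ (2/3 : ℝ) * s x ^ 2)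
      - (∫ x, V z R x * s x ^ 2) + ∫ x, rt ρ s t x * pot (fun y => s y ^ 2) x := by
  have hAt := rt_adm hA hs hw ht.le
  have hm : ∫ x, rt ρ s t x ≤ N0 := by
    unfold rt
    rw [integral_add hA.int (hw.int.const_mul t), integral_const_mul]
    exact hmass
  have h1 := hmin _ _ hAt hm
  unfold EN at h1
  have hK : (∫ x, ‖gt ρ g s h t x‖ ^ 2) - (∫ x, ‖g x‖ ^ 2) ≤ t * ∫ x, FF ρ g s h t x := by
    rw [← integral_sub (isq hAt.g2) (isq hA.g2), ← integral_const_mul]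
    exact integral_mono ((isq hAt.g2).sub (isq hA.g2)) ((FF_int hA hs hw ht).const_mul t)
      (fun x => kin_pt hA ht x)
  have hP : 3/5 * (∫ x, rt ρ s t x ^ (5/3 : ℝ)) - 3/5 * (∫ x, ρ x ^ (5/3 : ℝ))
      ≤ t * ∫ x, rt ρ s t x ^ (2/3 : ℝ) * s x ^ 2 := by
    rw [← integral_const_mul, ← integral_const_mul, ← integral_const_mul,
      ← integral_sub (hAt.int53.const_mul _) (hA.int53.const_mul _)]
    refine integral_mono ((hAt.int53.const_mul _).sub (hA.int53.const_mul _))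
      ((p_int hA hs hw ht).const_mul t) (fun x => ?_)
    have := sc2 (hA.nonneg x) (hAt.nonneg x)
    refine this.trans (le_of_eq ?_)
    have : rt ρ s t x - ρ x = t * s x ^ 2 := by unfold rt; ring
    rw [this]; ring
  have hVt : ∫ x, V z R x * rt ρ s t x = (∫ x, V z R x * ρ x) + t * ∫ x, V z R x * s x ^ 2 := by
    rw [← integral_const_mul, ← integral_add (V_int z R hA.NN).1 ((V_int z R hw).1.const_mul t)]
    refine integral_congr_ae (ae_of_all _ fun x => ?_)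
    show V z R x * (ρ x + t * s x ^ 2) = V z R x * ρ x + t * (V z R x * s x ^ 2)
    ring
  have hDt : ∫ x, rt ρ s t x * pot (rt ρ s t) x = (∫ x, ρ x * pot ρ x)
      + 2 * t * (∫ x, s x ^ 2 * pot ρ x) + t ^ 2 * ∫ x, s x ^ 2 * pot (fun y => s y ^ 2) x :=
    hA.NN.expand hw t
  have hDl : ∫ x, rt ρ s t x * pot (fun y => s y ^ 2) x = (∫ x, s x ^ 2 * pot ρ x)
      + t * ∫ x, s x ^ 2 * pot (fun y => s y ^ 2) x := by
    rw [← hA.NN.swap hw, ← integral_const_mul,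
      ← integral_add (hA.NN.pot_int hw) ((hw.pot_int hw).const_mul t)]
    refine integral_congr_ae (ae_of_all _ fun x => ?_)
    show (ρ x + t * s x ^ 2) * pot (fun y => s y ^ 2) x = _
    ring
  have hpd := hw.pd
  rw [hVt, hDt] at h1
  rw [hDl]
  have h2 : 0 ≤ t * ((∫ x, FF ρ g s h t x) + (∫ x, rt ρ s t x ^ (2/3 : ℝ) * s x ^ 2)
      - (∫ x, V z R x * s x ^ 2) + ((∫ x, s x ^ 2 * pot ρ x)
      + t * ∫ x, s x ^ 2 * pot (fun y => s y ^ 2) x)) := by
    have h3 : 0 ≤ t ^ 2 * ∫ x, s x ^ 2 * pot (fun y => s y ^ 2) x := by positivity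
    nlinarith
  exact nonneg_of_mul_nonneg_right h2 ht

end

end Pool.Agent.N288.TFW
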