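import Mathlib
import Pool.Agent.TH791.Coul
import Pool.Agent.Helper149.Mollify
import Pool.Agent.Helper149.Fatou

/-!
# Weak gradients in the `L²` setting: mollification
-/

set_option autoImplicit false

open MeasureTheory Filter Topology Set
open scoped ENNReal NNReal Convolution ContDiff

namespace Pool.Agent.N288.TFW

abbrev E3 := EuclideanSpace ℝ (Fin 3)

/-- `g` is the weak gradient of `u`, both in `L²`. -/
structure WG (u : E3 → ℝ) (g : E3 → E3) : Prop where
  u2 : MemLp u 2 volume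
  g2 : MemLp g 2 volume
  weak : ∀ φ : E3 → ℝ, ContDiff ℝ ∞ φ → HasCompactSupport φ → ∀ v : E3,
    ∫ x, u x * fderiv ℝ φ x v = -∫ x, inner ℝ (g x) v * φ x

lemma isq {F : Type*} [NormedAddCommGroup F] {f : E3 → F} (h : MemLp f 2 volume) :
    Integrable (fun x => ‖f x‖ ^ 2) := h.integrable_norm_pow (by norm_num)

lemma isq' {f : E3 → ℝ} (h : MemLp f 2 volume) :
    Integrable (fun x => f x ^ 2) := by
  have := isq h
  simpa using this

/-- a.e. convergence plus convergence of the norms -/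
lemma L2conv {F : Type*} [NormedAddCommGroup F] {f : ℕ → E3 → F} {f0 : E3 → F}
    (h : ∀ n, MemLp (f n) 2 volume) (h0 : MemLp f0 2 volume)
    (hae : ∀ᵐ x, Tendsto (fun n => f n x) atTop (𝓝 (f0 x)))
    (hle : ∀ n, ∫ x, ‖f n x‖ ^ 2 ≤ ∫ x, ‖f0 x‖ ^ 2) :
    Tendsto (fun n => ∫ x, ‖f n x - f0 x‖ ^ 2) atTop (𝓝 0) := by
  have hd : ∀ n, Integrable (fun x => ‖f n x - f0 x‖ ^ 2) := fun n => isq ((h n).sub h0)
  by_contra hcon
  -- a subsequence stays away from zero
  have h1 : ∃ ε : ℝ, 0 < ε ∧ ∃ᶠ n in atTop, ε ≤ ∫ x, ‖f n x - f0 x‖ ^ 2 := by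
    by_contra hc
    push Not at hc
    apply hcon
    rw [Metric.tendsto_atTop']
    intro ε hε
    have := hc ε hε
    rw [eventually_atTop] at this
    obtain ⟨N, hN⟩ := this
    refine ⟨N, fun n hn => ?_⟩
    rw [Real.dist_eq, sub_zero, abs_of_nonneg (integral_nonneg fun x => by positivity)]
    exact hN n hn.le
  obtain ⟨ε, hε, hfr⟩ := h1
  obtain ⟨ns, hns, hns2⟩ := extraction_of_frequently_atTop hfr
  let G : ℕ → E3 → ℝ := fun k x => 2 * ‖f (ns k) x‖ ^ 2 + 2 * ‖f0 x‖ ^ 2 - ‖f (ns k) x - f0 x‖ ^ 2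
  have hGi : ∀ k, Integrable (G k) := fun k =>
    (((isq (h (ns k))).const_mul 2).add ((isq h0).const_mul 2)).sub (hd (ns k))
  have hGint : ∀ k, ∫ x, G k x = 2 * (∫ x, ‖f (ns k) x‖ ^ 2) + 2 * (∫ x, ‖f0 x‖ ^ 2)
      - ∫ x, ‖f (ns k) x - f0 x‖ ^ 2 := by
    intro k
    have i1 : Integrable (fun x => 2 * ‖f (ns k) x‖ ^ 2) := (isq (h (ns k))).const_mul 2
    have i2 : Integrable (fun x => 2 * ‖f0 x‖ ^ 2) := (isq h0).const_mul 2
    have i12 : Integrable (fun x => 2 * ‖f (ns k) x‖ ^ 2 + 2 * ‖f0 x‖ ^ 2) := i1.add i2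
    show ∫ x, (2 * ‖f (ns k) x‖ ^ 2 + 2 * ‖f0 x‖ ^ 2 - ‖f (ns k) x - f0 x‖ ^ 2) = _
    rw [integral_sub i12 (hd (ns k)), integral_add i1 i2, integral_const_mul, integral_const_mul]
  have hF := Helper149.Fatou.fatou_real (μ := (volume : Measure E3)) G (fun x => 4 * ‖f0 x‖ ^ 2)
    (4 * (∫ x, ‖f0 x‖ ^ 2) - ε) ?_ hGi ?_ ?_
  · have h2 := hF.2
    rw [integral_const_mul] at h2
    linarith
  · intro k x
    show 0 ≤ 2 * ‖f (ns k) x‖ ^ 2 + 2 * ‖f0 x‖ ^ 2 - ‖f (ns k) x - f0 x‖ ^ 2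
    have h3 := norm_sub_le (f (ns k) x) (f0 x)
    have h4 := norm_nonneg (f (ns k) x - f0 x)
    nlinarith [sq_nonneg (‖f (ns k) x‖ - ‖f0 x‖), mul_self_le_mul_self h4 h3]
  · intro k
    rw [hGint k]
    have := hle (ns k)
    have := hns2 k
    linarith
  · filter_upwards [hae] with x hx
    have hx' := hx.comp hns.tendsto_atTop
    have a1 : Tendsto (fun k => ‖f (ns k) x‖ ^ 2) atTop (𝓝 (‖f0 x‖ ^ 2)) := hx'.norm.pow 2
    have a2 : Tendsto (fun k => ‖f (ns k) x - f0 x‖ ^ 2) atTop (𝓝 0) := by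
      have := (hx'.sub_const (f0 x)).norm.pow 2
      simpa using this
    have := ((a1.const_mul 2).add_const (2 * ‖f0 x‖ ^ 2)).sub a2
    have e : 2 * ‖f0 x‖ ^ 2 + 2 * ‖f0 x‖ ^ 2 - 0 = 4 * ‖f0 x‖ ^ 2 := by ring
    rw [e] at this
    exact this

/-- bounded in `L²` plus a.e. convergence implies weak convergence -/
lemma weak_of_ae {u : ℕ → E3 → ℝ} {u0 ψ : E3 → ℝ} {C : ℝ} (h : ∀ n, MemLp (u n) 2 volume)
    (h0 : MemLp u0 2 volume) (hψ : MemLp ψ 2 volume)
    (hae : ∀ᵐ x, Tendsto (fun n => u n x) atTop (𝓝 (u0 x)))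
    (hC : ∀ n, ∫ x, (u n x) ^ 2 ≤ C) :
    Tendsto (fun n => ∫ x, u n x * ψ x) atTop (𝓝 (∫ x, u0 x * ψ x)) := by
  have hp : ∀ {f : E3 → ℝ}, MemLp f 2 volume → Integrable (fun x => f x * ψ x) := fun hf =>
    hf.integrable_mul hψ
  have hC0 : 0 ≤ C := (integral_nonneg fun x => sq_nonneg _).trans (hC 0)
  by_contra hcon
  have h1 : ∃ ε : ℝ, 0 < ε ∧ ∃ᶠ n in atTop, ε ≤ |(∫ x, u n x * ψ x) - ∫ x, u0 x * ψ x| := by
    by_contra hc
    push Not at hc
    apply hcon
    rw [Metric.tendsto_atTop']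
    intro ε hε
    have := hc ε hε
    rw [eventually_atTop] at this
    obtain ⟨N, hN⟩ := this
    refine ⟨N, fun n hn => ?_⟩
    rw [Real.dist_eq]
    exact hN n hn.le
  obtain ⟨ε, hε, hfr⟩ := h1
  have h2 : ∃ s : ℝ, (s = 1 ∨ s = -1) ∧ ∃ᶠ n in atTop,
      ε ≤ s * ((∫ x, u0 x * ψ x) - (∫ x, u n x * ψ x)) := by
    have : ∃ᶠ n in atTop, (ε ≤ 1 * ((∫ x, u0 x * ψ x) - (∫ x, u n x * ψ x))) ∨
        (ε ≤ (-1) * ((∫ x, u0 x * ψ x) - (∫ x, u n x * ψ x))) := by
      refine hfr.mono fun n hn => ?_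
      rcases le_abs.1 hn with h | h
      · right; linarith
      · left; linarith
    rcases frequently_or_distrib.1 this with h | h
    · exact ⟨1, Or.inl rfl, h⟩
    · exact ⟨-1, Or.inr rfl, h⟩
  obtain ⟨s, hs, hfr2⟩ := h2
  have hs2 : s ^ 2 = 1 := by rcases hs with h | h <;> rw [h] <;> norm_num
  obtain ⟨ns, hns, hns2⟩ := extraction_of_frequently_atTop hfr2
  set δ : ℝ := ε / (2 * (C + 1)) with hδ
  have hδ0 : 0 < δ := by positivity
  let G : ℕ → E3 → ℝ := fun k x => δ * (u (ns k) x) ^ 2 + 1 / (4 * δ) * (ψ x) ^ 2 + s * (u (ns k) x * ψ x)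
  have i2 : Integrable (fun x => 1 / (4 * δ) * (ψ x) ^ 2) := (isq' hψ).const_mul _
  have key : ∀ (f : E3 → ℝ), MemLp f 2 volume →
      Integrable (fun x => δ * (f x) ^ 2 + 1 / (4 * δ) * (ψ x) ^ 2 + s * (f x * ψ x)) ∧
      ∫ x, (δ * (f x) ^ 2 + 1 / (4 * δ) * (ψ x) ^ 2 + s * (f x * ψ x)) =
      δ * (∫ x, (f x) ^ 2) + (1 / (4 * δ) * ∫ x, (ψ x) ^ 2) + s * ∫ x, f x * ψ x := by
    intro f hf
    have i1 : Integrable (fun x => δ * (f x) ^ 2) := (isq' hf).const_mul _
    have i3 : Integrable (fun x => s * (f x * ψ x)) := (hp hf).const_mul _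
    have i12 : Integrable (fun x => δ * (f x) ^ 2 + 1 / (4 * δ) * (ψ x) ^ 2) := i1.add i2
    refine ⟨i12.add i3, ?_⟩
    rw [integral_add i12 i3, integral_add i1 i2, integral_const_mul, integral_const_mul,
      integral_const_mul]
  have hF := Helper149.Fatou.fatou_real (μ := (volume : Measure E3)) G
    (fun x => δ * (u0 x) ^ 2 + 1 / (4 * δ) * (ψ x) ^ 2 + s * (u0 x * ψ x))
    (δ * C + (1 / (4 * δ) * ∫ x, (ψ x) ^ 2) + s * (∫ x, u0 x * ψ x) - ε) ?_
    (fun k => (key _ (h (ns k))).1) ?_ ?_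
  · have h3 := hF.2
    rw [(key _ h0).2] at h3
    have h4 : 0 ≤ δ * ∫ x, (u0 x) ^ 2 := mul_nonneg hδ0.le (integral_nonneg fun x => sq_nonneg _)
    have h5 : δ * C < ε := by
      rw [hδ, div_mul_eq_mul_div, div_lt_iff₀ (by positivity)]
      nlinarith
    linarith
  · intro k x
    show 0 ≤ δ * (u (ns k) x) ^ 2 + 1 / (4 * δ) * (ψ x) ^ 2 + s * (u (ns k) x * ψ x)
    have e : δ * (u (ns k) x) ^ 2 + 1 / (4 * δ) * (ψ x) ^ 2 + s * (u (ns k) x * ψ x)
        = δ * (u (ns k) x + s * ψ x / (2 * δ)) ^ 2 := by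
      field_simp
      linear_combination (-4 * (ψ x)^2) * hs2
    rw [e]; positivity
  · intro k
    show ∫ x, (δ * (u (ns k) x) ^ 2 + 1 / (4 * δ) * (ψ x) ^ 2 + s * (u (ns k) x * ψ x)) ≤ _
    rw [(key _ (h (ns k))).2]
    have a1 := mul_le_mul_of_nonneg_left (hC (ns k)) hδ0.le
    have a2 := hns2 k
    linarith
  · filter_upwards [hae] with x hx
    have hx' := hx.comp hns.tendsto_atTop
    exact ((((hx'.pow 2).const_mul δ).add_const _).add ((hx'.mul_const (ψ x)).const_mul s))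

/-- mollification of a vector valued function, `L²` bound -/
lemma conv_L2 {F : Type*} [NormedAddCommGroup F] [NormedSpace ℝ F] [CompleteSpace F]
    (b : ContDiffBump (0 : E3)) {f : E3 → F} (hf : MemLp f 2 volume) :
    MemLp ((b.normed volume) ⋆[ContinuousLinearMap.lsmul ℝ ℝ, volume] f) 2 volume ∧
    ∫ x, ‖((b.normed volume) ⋆[ContinuousLinearMap.lsmul ℝ ℝ, volume] f) x‖ ^ 2 ≤ ∫ x, ‖f x‖ ^ 2 := by
  set k : E3 → ℝ := b.normed volume with hk
  have hk0 : ∀ x, 0 ≤ k x := fun x => b.nonneg_normed x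
  have hkc : Continuous k := b.continuous_normed
  have hkint : Integrable k := b.integrable_normed
  have hk1 : ∫⁻ t, ‖k t‖ₑ = 1 := by
    have h1 : ∫ t, k t = 1 := b.integral_normed
    have h2 := ofReal_integral_eq_lintegral_ofReal hkint (ae_of_all _ hk0)
    rw [h1] at h2
    rw [← ENNReal.ofReal_one, h2]
    refine lintegral_congr fun t => ?_
    rw [Real.enorm_of_nonneg (hk0 t)]
  have hloc : LocallyIntegrable f volume := hf.locallyIntegrable (by norm_num)
  have hcont : Continuous ((k) ⋆[ContinuousLinearMap.lsmul ℝ ℝ, volume] f) :=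
    b.hasCompactSupport_normed.continuous_convolution_left _ hkc hloc
  obtain ⟨f', hf'm, hff'⟩ := hf.1
  have hconv : k ⋆[ContinuousLinearMap.lsmul ℝ ℝ, volume] f
      = k ⋆[ContinuousLinearMap.lsmul ℝ ℝ, volume] f' :=
    convolution_congr _ (ae_eq_refl _) hff'
  have hen : ∀ {G : E3 → F} (x : E3), ENNReal.ofReal (‖G x‖ ^ 2) = ‖G x‖ₑ ^ (2:ℝ) := by
    intro G x
    rw [← ofReal_norm, ENNReal.ofReal_rpow_of_nonneg (norm_nonneg _) (by norm_num)]
    norm_num
  have hmain : ∫⁻ x, ‖(k ⋆[ContinuousLinearMap.lsmul ℝ ℝ, volume] f) x‖ₑ ^ (2:ℝ)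
      ≤ ∫⁻ x, ‖f x‖ₑ ^ (2:ℝ) := by
    have h2 : ∫⁻ x, ‖f x‖ₑ ^ (2:ℝ) = ∫⁻ x, ‖f' x‖ₑ ^ (2:ℝ) := by
      refine lintegral_congr_ae ?_
      filter_upwards [hff'] with x hx
      rw [hx]
    rw [hconv, h2]
    refine le_trans (lintegral_mono fun x => ?_)
      (Helper149.Mollify.lintegral_conv_rpow_le (fun t => ‖k t‖ₑ) hkc.measurable.enorm hk1
        (fun x => ‖f' x‖ₑ) hf'm.enorm 2 (by norm_num))
    refine ENNReal.rpow_le_rpow ?_ (by norm_num)
    rw [convolution_def]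
    refine le_trans (enorm_integral_le_lintegral_enorm _) (lintegral_mono fun t => ?_)
    simp only [ContinuousLinearMap.lsmul_apply, enorm_smul]
    exact le_rfl
  obtain ⟨i1, i2⟩ := Helper149.Fatou.integrable_of_lintegral_le (μ := (volume : Measure E3))
    (a := fun x => ‖(k ⋆[ContinuousLinearMap.lsmul ℝ ℝ, volume] f) x‖ ^ 2)
    (b := fun x => ‖f x‖ ^ 2) (hcont.norm.pow 2).aestronglyMeasurable (fun x => by positivity)
    (isq hf) (fun x => by positivity) (by simpa only [hen] using hmain)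
  refine ⟨?_, i2⟩
  rw [memLp_two_iff_integrable_sq_norm hcont.aestronglyMeasurable]
  exact i1

/-- Approximation of a weak gradient pair by mollification. -/
theorem WG.approx {u : E3 → ℝ} {g : E3 → E3} (h : WG u g) :
    ∃ (w : ℕ → E3 → ℝ) (G : ℕ → E3 → E3), (∀ n, ContDiff ℝ ∞ (w n)) ∧
      (∀ n, Continuous (G n)) ∧
      (∀ n x v, fderiv ℝ (w n) x v = inner ℝ (G n x) v) ∧
      (∀ᵐ x, Tendsto (fun n => w n x) atTop (𝓝 (u x))) ∧
      (∀ᵐ x, Tendsto (fun n => G n x) atTop (𝓝 (g x))) ∧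
      (∀ n, MemLp (w n) 2 volume) ∧ (∀ n, MemLp (G n) 2 volume) ∧
      (∀ n, ∫ x, ‖w n x‖ ^ 2 ≤ ∫ x, ‖u x‖ ^ 2) ∧ (∀ n, ∫ x, ‖G n x‖ ^ 2 ≤ ∫ x, ‖g x‖ ^ 2) := by
  let b : ℕ → ContDiffBump (0 : E3) := fun n =>
    ⟨1 / (2 * ((n : ℝ) + 1)), 1 / ((n : ℝ) + 1), by positivity, by
      apply one_div_lt_one_div_of_lt <;> nlinarith [Nat.cast_nonneg (α := ℝ) n]⟩
  have hul : LocallyIntegrable u volume := h.u2.locallyIntegrable (by norm_num)
  have hgl : LocallyIntegrable g volume := h.g2.locallyIntegrable (by norm_num)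
  have hφ : Tendsto (fun i => (b i).rOut) atTop (𝓝 0) := tendsto_one_div_add_atTop_nhds_zero_nat
  have h'φ : ∀ᶠ i in atTop, (b i).rOut ≤ 2 * (b i).rIn := by
    refine Eventually.of_forall fun n => ?_
    show 1 / ((n : ℝ) + 1) ≤ 2 * (1 / (2 * ((n : ℝ) + 1)))
    have : (0:ℝ) < (n:ℝ) + 1 := by positivity
    apply le_of_eq
    field_simp
  refine ⟨fun n => ((b n).normed volume) ⋆[ContinuousLinearMap.lsmul ℝ ℝ, volume] u,
    fun n => ((b n).normed volume) ⋆[ContinuousLinearMap.lsmul ℝ ℝ, volume] g, ?_, ?_, ?_, ?_, ?_,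
    fun n => (conv_L2 (b n) h.u2).1, fun n => (conv_L2 (b n) h.g2).1,
    fun n => (conv_L2 (b n) h.u2).2, fun n => (conv_L2 (b n) h.g2).2⟩
  · intro n
    exact ((b n).hasCompactSupport_normed).contDiff_convolution_left _ ((b n).contDiff_normed) hul
  · intro n
    exact ((b n).hasCompactSupport_normed).continuous_convolution_left _ ((b n).continuous_normed) hgl
  · intro n x v
    set k : E3 → ℝ := (b n).normed volume with hk
    have hkd : ContDiff ℝ ∞ k := (b n).contDiff_normed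
    have hks : HasCompactSupport k := (b n).hasCompactSupport_normed
    have hkc : Continuous k := (b n).continuous_normed
    have hderiv := hks.hasFDerivAt_convolution_left (ContinuousLinearMap.lsmul ℝ ℝ)
      (hkd.of_le (by exact_mod_cast le_top)) hul x (μ := volume)
    rw [hderiv.fderiv]
    have hexists : ConvolutionExistsAt (fderiv ℝ k) u x
        ((ContinuousLinearMap.lsmul ℝ ℝ).precompL E3) volume :=
      (hks.fderiv ℝ).convolutionExists_left _ (hkd.continuous_fderiv (by simp)) hul x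
    have e1 : (fderiv ℝ k ⋆[(ContinuousLinearMap.lsmul ℝ ℝ).precompL E3, volume] u) x v
        = ∫ t, fderiv ℝ k t v * u (x - t) := by
      rw [convolution_def, ContinuousLinearMap.integral_apply hexists]
      refine integral_congr_ae (ae_of_all _ fun t => ?_)
      simp [ContinuousLinearMap.precompL_apply]
    rw [e1]
    have e2 : ∫ t, fderiv ℝ k t v * u (x - t) = ∫ y, fderiv ℝ k (x - y) v * u y := by
      rw [← integral_sub_left_eq_self _ _ x]
      simp
    rw [e2]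
    have hφd : ContDiff ℝ ∞ (fun y => k (x - y)) := hkd.comp (contDiff_const.sub contDiff_id)
    have hφs : HasCompactSupport (fun y => k (x - y)) := hks.comp_homeomorph (Homeomorph.subLeft x)
    have hφf : ∀ y, fderiv ℝ (fun y => k (x - y)) y v = - fderiv ℝ k (x - y) v := by
      intro y
      have h3 : HasFDerivAt (fun y => k (x - y))
          ((fderiv ℝ k (x - y)).comp (-(ContinuousLinearMap.id ℝ E3))) y := by
        have h4 : HasFDerivAt (fun y => x - y) (-(ContinuousLinearMap.id ℝ E3)) y := by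
          simpa using (hasFDerivAt_id y).const_sub x
        exact HasFDerivAt.comp y ((hkd.differentiable (by simp)) (x - y)).hasFDerivAt h4
      rw [h3.fderiv]
      simp
    have h5 := h.weak (fun y => k (x - y)) hφd hφs v
    simp only [hφf] at h5
    have e3 : ∫ y, fderiv ℝ k (x - y) v * u y = ∫ y, inner ℝ (g y) v * k (x - y) := by
      calc ∫ y, fderiv ℝ k (x - y) v * u y = - ∫ y, u y * -(fderiv ℝ k (x - y) v) := by
            rw [← integral_neg]
            refine integral_congr_ae (ae_of_all _ fun y => ?_)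
            simp; ring
        _ = ∫ y, inner ℝ (g y) v * k (x - y) := by rw [h5, neg_neg]
    rw [e3]
    -- the inner product with the convolution
    have hexg : ConvolutionExistsAt k g x (ContinuousLinearMap.lsmul ℝ ℝ) volume :=
      hks.convolutionExists_left _ hkc hgl x
    have e4 : (k ⋆[ContinuousLinearMap.lsmul ℝ ℝ, volume] g) x = ∫ y, k (x - y) • g y := by
      rw [convolution_eq_swap]; rfl
    have hi : Integrable (fun y => k (x - y) • g y) := by
      have := hexg.integrable_swap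
      exact this
    show _ = inner ℝ ((k ⋆[ContinuousLinearMap.lsmul ℝ ℝ, volume] g) x) v
    rw [e4, real_inner_comm, ← integral_inner hi]
    refine integral_congr_ae (ae_of_all _ fun y => ?_)
    show inner ℝ (g y) v * k (x - y) = inner ℝ v (k (x - y) • g y)
    rw [real_inner_smul_right, real_inner_comm]
    ring
  · exact ContDiffBump.ae_convolution_tendsto_right_of_locallyIntegrable (φ := b) (K := 2) hφ h'φ hul
  · exact ContDiffBump.ae_convolution_tendsto_right_of_locallyIntegrable (φ := b) (K := 2) hφ h'φ hgl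

end Pool.Agent.N288.TFW
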