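import Pool.Agent.N288.TFW.Sqrt

/-!
# Weak compactness in `L²`
-/

set_option autoImplicit false

open MeasureTheory Filter Topology Set
open scoped ENNReal NNReal Convolution ContDiff

namespace Pool.Agent.N288.TFW

theorem weak_compact {g : ℕ → E3 → E3} (hg : ∀ n, MemLp (g n) 2 volume) {κ : ℝ}
    (hκ : Tendsto (fun n => ∫ x, ‖g n x‖ ^ 2) atTop (𝓝 κ)) :
    ∃ g0 : E3 → E3, MemLp g0 2 volume ∧ ∫ x, ‖g0 x‖ ^ 2 ≤ κ ∧ ∃ U : Ultrafilter ℕ,
      (U : Filter ℕ) ≤ atTop ∧ ∀ h : E3 → E3, MemLp h 2 volume →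
      Tendsto (fun n => ∫ x, inner ℝ (g n x) (h x)) U (𝓝 (∫ x, inner ℝ (g0 x) (h x))) := by
  set H := Lp E3 2 (volume : Measure E3) with hH
  let X : ℕ → H := fun n => (hg n).toLp (g n)
  have hin : ∀ {a b : E3 → E3} (ha : MemLp a 2 volume) (hb : MemLp b 2 volume),
      inner ℝ (ha.toLp a : H) (hb.toLp b : H) = ∫ x, inner ℝ (a x) (b x) := by
    intro a b ha hb
    rw [L2.inner_def]
    refine integral_congr_ae ?_
    filter_upwards [ha.coeFn_toLp, hb.coeFn_toLp] with x hx hy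
    rw [hx, hy]
  have hnorm : ∀ n, ‖X n‖ ^ 2 = ∫ x, ‖g n x‖ ^ 2 := by
    intro n
    rw [← real_inner_self_eq_norm_sq]
    rw [hin (hg n) (hg n)]
    simp only [real_inner_self_eq_norm_sq]
  obtain ⟨C, hC⟩ := hκ.bddAbove_range
  have hC' : ∀ n, ∫ x, ‖g n x‖ ^ 2 ≤ C := fun n => hC ⟨n, rfl⟩
  have hC0 : 0 ≤ C := (integral_nonneg fun x => by positivity).trans (hC' 0)
  have hXb : ∀ n, ‖X n‖ ≤ √C := fun n => Real.le_sqrt_of_sq_le (by rw [hnorm]; exact hC' n)
  let T : ℕ → WeakDual ℝ H := fun n => StrongDual.toWeakDual (InnerProductSpace.toDual ℝ H (X n))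
  have hcomp := WeakDual.isCompact_closedBall (𝕜 := ℝ) (E := H) 0 (√C)
  let U : Ultrafilter ℕ := Ultrafilter.of atTop
  have hU : (U : Filter ℕ) ≤ atTop := Ultrafilter.of_le atTop
  obtain ⟨L, hL1, hL2⟩ := hcomp.ultrafilter_le_nhds (U.map T) (by
    rw [Ultrafilter.coe_map, le_principal_iff, mem_map]
    refine univ_mem' fun n => ?_
    show InnerProductSpace.toDual ℝ H (X n) ∈ Metric.closedBall 0 (√C)
    rw [mem_closedBall_zero_iff, LinearIsometryEquiv.norm_map]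
    exact hXb n)
  have hLev : ∀ y : H, Tendsto (fun n => inner ℝ (X n) y) U (𝓝 (L y)) := by
    intro y
    have h1 : Tendsto T U (𝓝 L) := hL2
    have h2 := (WeakDual.eval_continuous (𝕜 := ℝ) (E := H) y).tendsto L
    have h3 := h2.comp h1
    exact h3
  let g1 : H := (InnerProductSpace.toDual ℝ H).symm (WeakDual.toStrongDual L)
  have hg1 : ∀ y : H, inner ℝ g1 y = L y := by
    intro y
    have := InnerProductSpace.toDual_symm_apply (𝕜 := ℝ) (x := y) (y := WeakDual.toStrongDual L)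
    exact this
  refine ⟨fun x => g1 x, Lp.memLp g1, ?_, U, hU, ?_⟩
  · -- lower semicontinuity
    have e1 : ∫ x, ‖g1 x‖ ^ 2 = ‖g1‖ ^ 2 := by
      rw [← real_inner_self_eq_norm_sq, L2.inner_def]
      simp only [real_inner_self_eq_norm_sq]
    rw [e1]
    have h1 := hLev g1
    rw [← hg1, real_inner_self_eq_norm_sq] at h1
    have h2 : Tendsto (fun n => ‖X n‖ * ‖g1‖) U (𝓝 (√κ * ‖g1‖)) := by
      have h3 : Tendsto (fun n => ‖X n‖) atTop (𝓝 (√κ)) := by
        have := (Real.continuous_sqrt.tendsto κ).comp hκ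
        refine this.congr fun n => ?_
        show √(∫ x, ‖g n x‖ ^ 2) = _
        rw [← hnorm, Real.sqrt_sq (norm_nonneg _)]
      exact (h3.mono_left hU).mul_const _
    have h3 := le_of_tendsto_of_tendsto' h1 h2 fun n => (le_abs_self _).trans (abs_real_inner_le_norm _ _)
    have hκ0 : 0 ≤ κ := ge_of_tendsto' hκ fun n => integral_nonneg fun x => by positivity
    rcases eq_or_lt_of_le (norm_nonneg g1) with h | h
    · rw [← h]; simpa using hκ0
    · have h4 : ‖g1‖ ≤ √κ := by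
        have : ‖g1‖ * ‖g1‖ ≤ √κ * ‖g1‖ := by nlinarith
        exact le_of_mul_le_mul_right this h
      have h5 := pow_le_pow_left₀ h.le h4 2
      rwa [Real.sq_sqrt hκ0] at h5
  · intro h hh
    have h1 := hLev (hh.toLp h)
    rw [← hg1] at h1
    have e1 : inner ℝ g1 (hh.toLp h) = ∫ x, inner ℝ (g1 x) (h x) := by
      rw [L2.inner_def]
      refine integral_congr_ae ?_
      filter_upwards [hh.coeFn_toLp] with x hx
      rw [hx]
    rw [e1] at h1
    refine h1.congr fun n => ?_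
    exact hin (hg n) hh

/-- weak limits of gradients -/
theorem WG.limit {u : ℕ → E3 → ℝ} {g : ℕ → E3 → E3} (h : ∀ n, WG (u n) (g n)) {u0 : E3 → ℝ}
    (h0 : MemLp u0 2 volume) (hae : ∀ᵐ x, Tendsto (fun n => u n x) atTop (𝓝 (u0 x)))
    {C : ℝ} (hC : ∀ n, ∫ x, (u n x) ^ 2 ≤ C) {κ : ℝ}
    (hκ : Tendsto (fun n => ∫ x, ‖g n x‖ ^ 2) atTop (𝓝 κ)) :
    ∃ g0, WG u0 g0 ∧ ∫ x, ‖g0 x‖ ^ 2 ≤ κ := by
  obtain ⟨g0, hg0, hle, U, hU, hlim⟩ := weak_compact (fun n => (h n).g2) hκ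
  refine ⟨g0, ⟨h0, hg0, fun φ hφ hφc v => ?_⟩, hle⟩
  have hφdc : Continuous (fun x => fderiv ℝ φ x v) :=
    (hφ.continuous_fderiv (by simp)).clm_apply continuous_const
  have hφds : HasCompactSupport (fun x => fderiv ℝ φ x v) := hφc.fderiv_apply (𝕜 := ℝ) v
  have hφdm : MemLp (fun x => fderiv ℝ φ x v) 2 volume := hφdc.memLp_of_hasCompactSupport hφds
  have hφm : MemLp φ 2 volume := hφ.continuous.memLp_of_hasCompactSupport hφc
  have hφv : MemLp (fun x => φ x • v) 2 volume := by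
    have hc : Continuous (fun x => φ x • v) := hφ.continuous.smul continuous_const
    exact hc.memLp_of_hasCompactSupport (hφc.smul_right)
  have h1 := (weak_of_ae (fun n => (h n).u2) h0 hφdm hae hC).mono_left hU
  have h2 := (hlim _ hφv).neg
  have e : ∀ (a : E3 → E3), ∫ x, inner ℝ (a x) (φ x • v) = ∫ x, inner ℝ (a x) v * φ x := by
    intro a
    refine integral_congr_ae (ae_of_all _ fun x => ?_)
    show inner ℝ (a x) (φ x • v) = _
    rw [real_inner_smul_right, mul_comm]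
  rw [e] at h2
  refine tendsto_nhds_unique h1 (h2.congr fun n => ?_)
  rw [e, ← (h n).weak φ hφ hφc v]

end Pool.Agent.N288.TFW
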